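import Mathlib

/-!
The modes of the periodic beam on a line with a speed that is not an integer: frequencies,
coincidences, and the algebraic part of the two line inequality.
-/

set_option autoImplicit false

namespace Pool.Agent.R244.Beam

open Set Complex
open scoped ComplexConjugate

/-- the frequency of the mode `(σ, k)` on the line with speed `a`: `k² - ak` for `σ = true` and
`-k² - ak` for `σ = false` -/
noncomputable def om (a : ℝ) (μ : Bool × ℤ) : ℝ :=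
  if μ.1 then (μ.2 : ℝ) ^ 2 - a * μ.2 else -(μ.2 : ℝ) ^ 2 - a * μ.2

lemma om_true (a : ℝ) (k : ℤ) : om a (true, k) = (k : ℝ) ^ 2 - a * k := by simp [om]

lemma om_false (a : ℝ) (k : ℤ) : om a (false, k) = -(k : ℝ) ^ 2 - a * k := by simp [om]

/-- `a` is not an integer -/
def NI (a : ℝ) : Prop := ∀ n : ℤ, (n : ℝ) ≠ a

lemma om_inj_sign {a : ℝ} (ha : NI a) (σ : Bool) {k l : ℤ} (h : om a (σ, k) = om a (σ, l)) :
    k = l := by
  by_contra hne
  have hkl : ((k : ℝ) - l) ≠ 0 := by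
    rw [sub_ne_zero]
    exact_mod_cast hne
  cases σ with
  | true =>
    rw [om_true, om_true] at h
    have h1 : ((k : ℝ) - l) * (k + l - a) = 0 := by linear_combination h
    rcases mul_eq_zero.mp h1 with h2 | h2
    · exact hkl h2
    · apply ha (k + l)
      push_cast
      linarith
  | false =>
    rw [om_false, om_false] at h
    have h1 : ((k : ℝ) - l) * (k + l + a) = 0 := by linear_combination -h
    rcases mul_eq_zero.mp h1 with h2 | h2
    · exact hkl h2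
    · apply ha (-(k + l))
      push_cast
      linarith

/-- two different modes with the same frequency have opposite signs -/
lemma sign_ne {a : ℝ} (ha : NI a) {μ ν : Bool × ℤ} (hne : μ ≠ ν) (h : om a μ = om a ν) :
    μ.1 ≠ ν.1 := by
  obtain ⟨σ, k⟩ := μ
  obtain ⟨τ, l⟩ := ν
  intro h1
  simp only at h1
  subst h1
  exact hne (by rw [om_inj_sign ha σ h])

/-- three modes cannot have the same frequency -/
lemma unique_partner {a : ℝ} (ha : NI a) {μ ν ρ : Bool × ℤ} (h1 : μ ≠ ν) (h2 : μ ≠ ρ)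
    (h3 : om a μ = om a ν) (h4 : om a μ = om a ρ) : ν = ρ := by
  have h5 := sign_ne ha h1 h3
  have h6 := sign_ne ha h2 h4
  have h7 : ν.1 = ρ.1 := by
    revert h5 h6
    cases μ.1 <;> cases ν.1 <;> cases ρ.1 <;> simp
  obtain ⟨τ, l⟩ := ν
  obtain ⟨τ', l'⟩ := ρ
  simp only at h7
  subst h7
  rw [om_inj_sign ha τ (h3.symm.trans h4)]

lemma coincide_bound {a : ℝ} (ha : NI a) {μ ν : Bool × ℤ} (hne : μ ≠ ν) (h : om a μ = om a ν) :
    (μ.2 : ℝ) ^ 2 + (ν.2 : ℝ) ^ 2 ≤ 4 * a ^ 2 := by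
  have h1 := sign_ne ha hne h
  obtain ⟨σ, k⟩ := μ
  obtain ⟨τ, l⟩ := ν
  simp only at h1 ⊢
  cases σ <;> cases τ
  · exact absurd rfl h1
  · rw [om_false, om_true] at h
    nlinarith [sq_nonneg ((k : ℝ) + l), sq_nonneg ((k : ℝ) - l - 2 * a), sq_nonneg ((k : ℝ) - l + 2 * a),
      sq_nonneg ((k : ℝ) - l)]
  · rw [om_false, om_true] at h
    nlinarith [sq_nonneg ((k : ℝ) + l), sq_nonneg ((k : ℝ) - l - 2 * a), sq_nonneg ((k : ℝ) - l + 2 * a),
      sq_nonneg ((k : ℝ) - l)]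
  · exact absurd rfl h1

/-- **No cycles.** A nonempty finite set `Z` of modes with nonzero `k` cannot be closed under passing
to the other mode with the same frequency, on both of two lines with different speeds. -/
lemma no_cycle {a1 a2 : ℝ} (h1 : NI a1) (h2 : NI a2) (hne : a1 ≠ a2) (Z : Finset (Bool × ℤ))
    (h0 : ∀ μ ∈ Z, μ.2 ≠ 0) (hZ1 : ∀ μ ∈ Z, ∃ ν ∈ Z, ν ≠ μ ∧ om a1 ν = om a1 μ)
    (hZ2 : ∀ μ ∈ Z, ∃ ν ∈ Z, ν ≠ μ ∧ om a2 ν = om a2 μ) : Z = ∅ := by
  classical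
  by_contra hcon
  have hnon : Z.Nonempty := Finset.nonempty_iff_ne_empty.mpr hcon
  set P : Finset (Bool × ℤ) := Z.filter (fun μ => μ.1 = true) with hP
  set N : Finset (Bool × ℤ) := Z.filter (fun μ => μ.1 = false) with hN
  -- the sums of the frequencies over `P` and over `N` agree on both lines
  have key : ∀ a : ℝ, NI a → (∀ μ ∈ Z, ∃ ν ∈ Z, ν ≠ μ ∧ om a ν = om a μ) →
      ∑ μ ∈ P, om a μ = ∑ μ ∈ N, om a μ := by
    intro a ha hZ
    choose! f hf using hZ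
    have hsign : ∀ μ ∈ Z, (f μ).1 = !μ.1 := by
      intro μ hμ
      have := sign_ne ha (hf μ hμ).2.1 (hf μ hμ).2.2
      revert this
      cases (f μ).1 <;> cases μ.1 <;> simp
    apply Finset.sum_bij (fun μ _ => f μ)
    · intro μ hμ
      rw [hP, Finset.mem_filter] at hμ
      rw [hN, Finset.mem_filter]
      refine ⟨(hf μ hμ.1).1, ?_⟩
      rw [hsign μ hμ.1, hμ.2]
      rfl
    · intro μ hμ ν hν hfe
      rw [hP, Finset.mem_filter] at hμ hν
      have e1 : om a μ = om a ν := by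
        rw [← (hf μ hμ.1).2.2, ← (hf ν hν.1).2.2, hfe]
      obtain ⟨σ, k⟩ := μ
      obtain ⟨τ, l⟩ := ν
      have h3 : σ = true := hμ.2
      have h4 : τ = true := hν.2
      subst h3 h4
      rw [om_inj_sign ha true e1]
    · intro ν hν
      rw [hN, Finset.mem_filter] at hν
      refine ⟨f ν, ?_, ?_⟩
      · rw [hP, Finset.mem_filter]
        refine ⟨(hf ν hν.1).1, ?_⟩
        rw [hsign ν hν.1, hν.2]
        rfl
      · have h5 := hf ν hν.1
        have h6 := hf (f ν) h5.1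
        exact (unique_partner ha h5.2.1 h6.2.1.symm h5.2.2 h6.2.2.symm).symm
    · intro μ hμ
      rw [hP, Finset.mem_filter] at hμ
      exact (hf μ hμ.1).2.2.symm
  have k1 := key a1 h1 hZ1
  have k2 := key a2 h2 hZ2
  have eP : ∀ a : ℝ, ∑ μ ∈ P, om a μ = ∑ μ ∈ P, (μ.2 : ℝ) ^ 2 - a * ∑ μ ∈ P, (μ.2 : ℝ) := by
    intro a
    rw [Finset.mul_sum, ← Finset.sum_sub_distrib]
    apply Finset.sum_congr rfl
    intro μ hμ
    rw [hP, Finset.mem_filter] at hμ
    unfold om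
    rw [if_pos hμ.2]
  have eN : ∀ a : ℝ, ∑ μ ∈ N, om a μ = -∑ μ ∈ N, (μ.2 : ℝ) ^ 2 - a * ∑ μ ∈ N, (μ.2 : ℝ) := by
    intro a
    rw [Finset.mul_sum, ← Finset.sum_neg_distrib, ← Finset.sum_sub_distrib]
    apply Finset.sum_congr rfl
    intro μ hμ
    rw [hN, Finset.mem_filter] at hμ
    unfold om
    rw [if_neg (by rw [hμ.2]; simp)]
  rw [eP, eN] at k1 k2
  set Q1 := ∑ μ ∈ P, (μ.2 : ℝ) ^ 2
  set Q2 := ∑ μ ∈ N, (μ.2 : ℝ) ^ 2
  set L1 := ∑ μ ∈ P, (μ.2 : ℝ)
  set L2 := ∑ μ ∈ N, (μ.2 : ℝ)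
  have h3 : (a1 - a2) * (L1 - L2) = 0 := by linear_combination k2 - k1
  have h4 : L1 - L2 = 0 := by
    rcases mul_eq_zero.mp h3 with h | h
    · exact absurd (sub_eq_zero.mp h) hne
    · exact h
  have h5 : Q1 + Q2 = 0 := by linear_combination k1 + a1 * h4
  have hQ1 : 0 ≤ Q1 := Finset.sum_nonneg fun μ _ => by positivity
  have hQ2 : 0 ≤ Q2 := Finset.sum_nonneg fun μ _ => by positivity
  have h6 : Q1 = 0 := by linarith
  have h7 : Q2 = 0 := by linarith
  obtain ⟨μ, hμ⟩ := hnon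
  have h8 : (μ.2 : ℝ) ^ 2 = 0 := by
    by_cases hs : μ.1 = true
    · exact (Finset.sum_eq_zero_iff_of_nonneg (fun μ _ => by positivity)).mp h6 μ
        (Finset.mem_filter.mpr ⟨hμ, hs⟩)
    · exact (Finset.sum_eq_zero_iff_of_nonneg (fun μ _ => by positivity)).mp h7 μ
        (Finset.mem_filter.mpr ⟨hμ, by simpa using hs⟩)
  have h9 : μ.2 = 0 := by
    have := pow_eq_zero_iff (two_ne_zero) |>.mp h8
    exact_mod_cast this
  exact h0 μ hμ h9

/-- the sum over the modes with a given frequency -/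
noncomputable def gs (a : ℝ) (A : Finset (Bool × ℤ)) (α : Bool × ℤ → ℂ) (c : Bool × ℤ → ℂ) (w : ℝ) :
    ℂ := ∑ μ ∈ A.filter (fun μ => om a μ = w), α μ * c μ

/-- Injectivity on a finite set of modes. -/
lemma inj_fin {a1 a2 : ℝ} (h1 : NI a1) (h2 : NI a2) (hne : a1 ≠ a2) (P : Finset (Bool × ℤ))
    (h0 : ∀ μ ∈ P, μ.2 ≠ 0) (α β : Bool × ℤ → ℂ) (hα : ∀ μ, ‖α μ‖ = 1) (hβ : ∀ μ, ‖β μ‖ = 1)
    (c : Bool × ℤ → ℂ) (hc1 : ∀ μ ∈ P, gs a1 P α c (om a1 μ) = 0)
    (hc2 : ∀ μ ∈ P, gs a2 P β c (om a2 μ) = 0) : ∀ μ ∈ P, c μ = 0 := by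
  classical
  by_contra hcon
  push Not at hcon
  obtain ⟨μ0, hμ0, hμ0c⟩ := hcon
  obtain ⟨μ1, hμ1, hmax⟩ := P.exists_max_image (fun μ => ‖c μ‖) ⟨μ0, hμ0⟩
  set M : ℝ := ‖c μ1‖ with hM
  have hMpos : 0 < M := lt_of_lt_of_le (norm_pos_iff.mpr hμ0c) (hmax μ0 hμ0)
  set Z : Finset (Bool × ℤ) := P.filter (fun μ => ‖c μ‖ = M) with hZ
  have hclosed : ∀ (a : ℝ) (_ : NI a) (γ : Bool × ℤ → ℂ), (∀ μ, ‖γ μ‖ = 1) →
      (∀ μ ∈ P, gs a P γ c (om a μ) = 0) → ∀ μ ∈ Z, ∃ ν ∈ Z, ν ≠ μ ∧ om a ν = om a μ := by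
    intro a ha γ hγ hs μ hμ
    rw [hZ, Finset.mem_filter] at hμ
    have h3 := hs μ hμ.1
    unfold gs at h3
    have hmem : μ ∈ P.filter (fun ν => om a ν = om a μ) := Finset.mem_filter.mpr ⟨hμ.1, rfl⟩
    rw [← Finset.add_sum_erase _ _ hmem] at h3
    have h4 : ((P.filter (fun ν => om a ν = om a μ)).erase μ).Nonempty := by
      rw [Finset.nonempty_iff_ne_empty]
      intro he
      rw [he, Finset.sum_empty, add_zero] at h3
      have : ‖γ μ * c μ‖ = 0 := by rw [h3, norm_zero]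
      rw [norm_mul, hγ, one_mul, hμ.2] at this
      linarith
    obtain ⟨ν, hν⟩ := h4
    have hν' := hν
    rw [Finset.mem_erase, Finset.mem_filter] at hν
    have h5 : (P.filter (fun ν => om a ν = om a μ)).erase μ = {ν} := by
      ext ρ
      rw [Finset.mem_singleton]
      constructor
      · intro hρ
        rw [Finset.mem_erase, Finset.mem_filter] at hρ
        exact unique_partner ha hρ.1.symm hν.1.symm hρ.2.2.symm hν.2.2.symm
      · intro hρ
        rw [hρ]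
        exact hν'
    rw [h5, Finset.sum_singleton] at h3
    refine ⟨ν, ?_, hν.1, hν.2.2⟩
    rw [hZ, Finset.mem_filter]
    refine ⟨hν.2.1, ?_⟩
    have h6 : γ ν * c ν = -(γ μ * c μ) := by linear_combination h3
    have h7 : ‖γ ν * c ν‖ = ‖γ μ * c μ‖ := by rw [h6, norm_neg]
    rw [norm_mul, norm_mul, hγ, hγ, one_mul, one_mul, hμ.2] at h7
    exact h7
  have hZe := no_cycle h1 h2 hne Z (fun μ hμ => h0 μ (Finset.mem_filter.mp hμ).1)
    (hclosed a1 h1 α hα hc1) (hclosed a2 h2 β hβ hc2)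
  have : μ1 ∈ Z := Finset.mem_filter.mpr ⟨hμ1, rfl⟩
  rw [hZe] at this
  simp at this

/-- The lower estimate on a finite set of modes. -/
lemma lower_fin {a1 a2 : ℝ} (h1 : NI a1) (h2 : NI a2) (hne : a1 ≠ a2) (P : Finset (Bool × ℤ))
    (h0 : ∀ μ ∈ P, μ.2 ≠ 0) (α β : Bool × ℤ → ℂ) (hα : ∀ μ, ‖α μ‖ = 1) (hβ : ∀ μ, ‖β μ‖ = 1) :
    ∃ C : ℝ, 0 ≤ C ∧ ∀ c : Bool × ℤ → ℂ, ∑ μ ∈ P, ‖c μ‖ ^ 2 ≤
      C * (∑ w ∈ P.image (om a1), ‖gs a1 P α c w‖ ^ 2 + ∑ w ∈ P.image (om a2), ‖gs a2 P β c w‖ ^ 2) := by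
  classical
  -- the linear map
  set ex : (P → ℂ) → Bool × ℤ → ℂ := fun c μ => if h : μ ∈ P then c ⟨μ, h⟩ else 0 with hex
  have hadd : ∀ (a : ℝ) (γ : Bool × ℤ → ℂ) (c d : P → ℂ) (w : ℝ),
      gs a P γ (ex (c + d)) w = gs a P γ (ex c) w + gs a P γ (ex d) w := by
    intro a γ c d w
    unfold gs
    rw [← Finset.sum_add_distrib]
    apply Finset.sum_congr rfl
    intro μ hμ
    have hμP := (Finset.mem_filter.mp hμ).1
    simp only [hex, dif_pos hμP, Pi.add_apply]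
    ring
  have hsmul : ∀ (a : ℝ) (γ : Bool × ℤ → ℂ) (r : ℂ) (c : P → ℂ) (w : ℝ),
      gs a P γ (ex (r • c)) w = r * gs a P γ (ex c) w := by
    intro a γ r c w
    unfold gs
    rw [Finset.mul_sum]
    apply Finset.sum_congr rfl
    intro μ hμ
    have hμP := (Finset.mem_filter.mp hμ).1
    simp only [hex, dif_pos hμP, Pi.smul_apply, smul_eq_mul]
    ring
  let Lm : (P → ℂ) →ₗ[ℂ] (P → ℂ) × (P → ℂ) :=
    { toFun := fun c => (fun μ => gs a1 P α (ex c) (om a1 μ), fun μ => gs a2 P β (ex c) (om a2 μ))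
      map_add' := by
        intro c d
        ext μ
        · exact hadd a1 α c d _
        · exact hadd a2 β c d _
      map_smul' := by
        intro r c
        ext μ
        · exact hsmul a1 α r c _
        · exact hsmul a2 β r c _ }
  have hker : LinearMap.ker Lm = ⊥ := by
    rw [LinearMap.ker_eq_bot']
    intro c hc
    have e1 : ∀ μ : P, gs a1 P α (ex c) (om a1 μ) = 0 := fun μ => congrFun (congrArg Prod.fst hc) μ
    have e2 : ∀ μ : P, gs a2 P β (ex c) (om a2 μ) = 0 := fun μ => congrFun (congrArg Prod.snd hc) μ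
    have e3 := inj_fin h1 h2 hne P h0 α β hα hβ (ex c) (fun μ hμ => e1 ⟨μ, hμ⟩)
      (fun μ hμ => e2 ⟨μ, hμ⟩)
    ext μ
    have e4 := e3 μ μ.2
    simp only [hex, dif_pos μ.2] at e4
    exact e4
  obtain ⟨K, hK, hLK⟩ := LinearMap.exists_antilipschitzWith Lm hker
  refine ⟨(P.card : ℝ) * (K : ℝ) ^ 2, by positivity, fun c => ?_⟩
  set c' : P → ℂ := fun μ => c μ with hc'
  have hexc : ∀ μ ∈ P, ex c' μ = c μ := by
    intro μ hμ
    simp only [hex, dif_pos hμ, hc']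
  have hgs : ∀ (a : ℝ) (γ : Bool × ℤ → ℂ) (w : ℝ), gs a P γ (ex c') w = gs a P γ c w := by
    intro a γ w
    unfold gs
    apply Finset.sum_congr rfl
    intro μ hμ
    rw [hexc μ (Finset.mem_filter.mp hμ).1]
  set R : ℝ := ∑ w ∈ P.image (om a1), ‖gs a1 P α c w‖ ^ 2 +
    ∑ w ∈ P.image (om a2), ‖gs a2 P β c w‖ ^ 2 with hR
  have hR1 : 0 ≤ ∑ w ∈ P.image (om a1), ‖gs a1 P α c w‖ ^ 2 :=
    Finset.sum_nonneg fun w _ => by positivity
  have hR2 : 0 ≤ ∑ w ∈ P.image (om a2), ‖gs a2 P β c w‖ ^ 2 :=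
    Finset.sum_nonneg fun w _ => by positivity
  have hR0 : 0 ≤ R := by positivity
  have hL : ‖Lm c'‖ ≤ Real.sqrt R := by
    have hb : ∀ (a : ℝ) (γ : Bool × ℤ → ℂ) (μ : P),
        ∑ w ∈ P.image (om a), ‖gs a P γ c w‖ ^ 2 ≤ R → ‖gs a P γ (ex c') (om a μ)‖ ≤ Real.sqrt R := by
      intro a γ μ hle
      rw [hgs]
      apply Real.le_sqrt_of_sq_le
      refine le_trans ?_ hle
      exact Finset.single_le_sum (f := fun w => ‖gs a P γ c w‖ ^ 2) (fun w _ => by positivity)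
        (Finset.mem_image_of_mem _ μ.2)
    rw [Prod.norm_def, max_le_iff]
    constructor
    · rw [pi_norm_le_iff_of_nonneg (Real.sqrt_nonneg _)]
      intro μ
      exact hb a1 α μ (by linarith)
    · rw [pi_norm_le_iff_of_nonneg (Real.sqrt_nonneg _)]
      intro μ
      exact hb a2 β μ (by linarith)
  have hcK : ‖c'‖ ≤ K * Real.sqrt R := by
    have := hLK.le_mul_dist c' 0
    rw [map_zero, dist_zero_right, dist_zero_right] at this
    exact this.trans (by gcongr)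
  calc ∑ μ ∈ P, ‖c μ‖ ^ 2 ≤ ∑ μ ∈ P, (K * Real.sqrt R) ^ 2 := by
        apply Finset.sum_le_sum
        intro μ hμ
        have : ‖c μ‖ ≤ ‖c'‖ := norm_le_pi_norm c' ⟨μ, hμ⟩
        gcongr
        exact this.trans hcK
    _ = (P.card : ℝ) * (K : ℝ) ^ 2 * R := by
        rw [Finset.sum_const, nsmul_eq_mul, mul_pow, Real.sq_sqrt hR0]
        ring

/-- **The algebraic part of the two line inequality.** -/
lemma alg {a1 a2 : ℝ} (h1 : NI a1) (h2 : NI a2) (hne : a1 ≠ a2) (α β : Bool × ℤ → ℂ)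
    (hα : ∀ μ, ‖α μ‖ = 1) (hβ : ∀ μ, ‖β μ‖ = 1) :
    ∃ C : ℝ, 0 ≤ C ∧ ∀ (A : Finset (Bool × ℤ)) (c : Bool × ℤ → ℂ), (∀ μ ∈ A, μ.2 ≠ 0) →
      ∑ μ ∈ A, ‖c μ‖ ^ 2 ≤ C * (∑ w ∈ A.image (om a1), ‖gs a1 A α c w‖ ^ 2 +
        ∑ w ∈ A.image (om a2), ‖gs a2 A β c w‖ ^ 2) := by
  classical
  -- all modes which may have a partner on line 1
  obtain ⟨B, hB⟩ := exists_nat_gt (2 * |a1|)
  set P : Finset (Bool × ℤ) := (Finset.univ ×ˢ Finset.Icc (-(B : ℤ)) B).filter (fun μ => μ.2 ≠ 0)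
    with hP
  have hPmem : ∀ μ : Bool × ℤ, μ ∉ P → μ.2 ≠ 0 → ∀ ν, ν ≠ μ → om a1 ν ≠ om a1 μ := by
    intro μ hμ hμ0 ν hν he
    apply hμ
    rw [hP, Finset.mem_filter, Finset.mem_product, Finset.mem_Icc]
    refine ⟨⟨Finset.mem_univ _, ?_⟩, hμ0⟩
    have h3 := coincide_bound h1 hν he
    have h4 : (μ.2 : ℝ) ^ 2 ≤ (2 * |a1|) ^ 2 := by
      rw [mul_pow, sq_abs]
      nlinarith [sq_nonneg (ν.2 : ℝ)]
    have h5 : |(μ.2 : ℝ)| ≤ 2 * |a1| := by
      rw [← abs_of_nonneg (by positivity : 0 ≤ 2 * |a1|)]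
      exact sq_le_sq.mp h4
    have h6 : |(μ.2 : ℝ)| ≤ B := h5.trans hB.le
    rw [abs_le] at h6
    constructor
    · exact_mod_cast h6.1
    · exact_mod_cast h6.2
  obtain ⟨C, hC, hfin⟩ := lower_fin h1 h2 hne P (fun μ hμ => (Finset.mem_filter.mp hμ).2) α β hα hβ
  refine ⟨1 + 10 * C, by positivity, fun A c hA => ?_⟩
  set S1 : ℝ := ∑ w ∈ A.image (om a1), ‖gs a1 A α c w‖ ^ 2 with hS1
  set S2 : ℝ := ∑ w ∈ A.image (om a2), ‖gs a2 A β c w‖ ^ 2 with hS2
  have hS10 : 0 ≤ S1 := Finset.sum_nonneg fun w _ => by positivity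
  have hS20 : 0 ≤ S2 := Finset.sum_nonneg fun w _ => by positivity
  -- the part outside `P`
  have hout : ∑ μ ∈ A.filter (fun μ => μ ∉ P), ‖c μ‖ ^ 2 ≤ S1 := by
    have e1 : ∀ μ ∈ A.filter (fun μ => μ ∉ P), ‖c μ‖ ^ 2 = ‖gs a1 A α c (om a1 μ)‖ ^ 2 := by
      intro μ hμ
      rw [Finset.mem_filter] at hμ
      have : A.filter (fun ν => om a1 ν = om a1 μ) = {μ} := by
        ext ν
        rw [Finset.mem_filter, Finset.mem_singleton]
        constructor
        · intro hν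
          by_contra hne'
          exact hPmem μ hμ.2 (hA μ hμ.1) ν hne' hν.2
        · rintro rfl
          exact ⟨hμ.1, rfl⟩
      unfold gs
      rw [this, Finset.sum_singleton, norm_mul, hα, one_mul]
    rw [Finset.sum_congr rfl e1]
    have hinj : Set.InjOn (om a1) (A.filter (fun μ => μ ∉ P) : Set (Bool × ℤ)) := by
      intro μ hμ ν hν he
      rw [Finset.mem_coe, Finset.mem_filter] at hμ hν
      by_contra hne'
      exact hPmem ν hν.2 (hA ν hν.1) μ hne' he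
    rw [← Finset.sum_image (f := fun w => ‖gs a1 A α c w‖ ^ 2) hinj]
    apply Finset.sum_le_sum_of_subset_of_nonneg
    · exact Finset.image_subset_image (Finset.filter_subset _ _)
    · intro w _ _
      positivity
  -- the part inside `P`: set `c` to zero outside `A`
  set d : Bool × ℤ → ℂ := fun μ => if μ ∈ A then c μ else 0 with hd
  have hin : ∑ μ ∈ A.filter (fun μ => μ ∈ P), ‖c μ‖ ^ 2 ≤ ∑ μ ∈ P, ‖d μ‖ ^ 2 := by
    have e1 : ∀ μ ∈ A.filter (fun μ => μ ∈ P), ‖c μ‖ ^ 2 = ‖d μ‖ ^ 2 := by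
      intro μ hμ
      rw [Finset.mem_filter] at hμ
      simp only [hd, if_pos hμ.1]
    rw [Finset.sum_congr rfl e1]
    apply Finset.sum_le_sum_of_subset_of_nonneg
    · intro μ hμ
      exact (Finset.mem_filter.mp hμ).2
    · intro μ _ _
      positivity
  -- comparison of the group sums
  have hcmp : ∀ (a : ℝ) (_ : NI a) (γ : Bool × ℤ → ℂ), (∀ μ, ‖γ μ‖ = 1) →
      ∑ w ∈ P.image (om a), ‖gs a P γ d w‖ ^ 2 ≤
        2 * ∑ w ∈ A.image (om a), ‖gs a A γ c w‖ ^ 2 +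
          4 * ∑ μ ∈ A.filter (fun μ => μ ∉ P), ‖c μ‖ ^ 2 := by
    intro a ha γ hγ
    -- `gs` over `P` of `d` is `gs` over `A` of `c` minus the part outside `P`
    have e1 : ∀ w, gs a P γ d w = gs a A γ c w -
        ∑ μ ∈ (A.filter (fun μ => μ ∉ P)).filter (fun μ => om a μ = w), γ μ * c μ := by
      intro w
      have e2 : gs a P γ d w = ∑ μ ∈ (A.filter (fun μ => μ ∈ P)).filter (fun μ => om a μ = w),
          γ μ * c μ := by
        unfold gs
        symm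
        apply Finset.sum_subset_zero_on_sdiff
        · intro μ hμ
          simp only [Finset.mem_filter] at hμ ⊢
          exact ⟨hμ.1.2, hμ.2⟩
        · intro μ hμ
          simp only [Finset.mem_sdiff, Finset.mem_filter] at hμ
          have : μ ∉ A := by
            intro h
            exact hμ.2 ⟨⟨h, hμ.1.1⟩, hμ.1.2⟩
          simp only [hd, if_neg this, mul_zero]
        · intro μ hμ
          simp only [Finset.mem_filter] at hμ
          simp only [hd, if_pos hμ.1.1]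
      have e3 : gs a A γ c w =
          ∑ μ ∈ (A.filter (fun μ => μ ∈ P)).filter (fun μ => om a μ = w), γ μ * c μ +
          ∑ μ ∈ (A.filter (fun μ => μ ∉ P)).filter (fun μ => om a μ = w), γ μ * c μ := by
        unfold gs
        rw [Finset.filter_comm, Finset.filter_comm (s := A) (p := fun μ => μ ∉ P)]
        exact (Finset.sum_filter_add_sum_filter_not _ _ _).symm
      rw [e2, e3]
      ring
    have hcard : ∀ w, ‖∑ μ ∈ (A.filter (fun μ => μ ∉ P)).filter (fun μ => om a μ = w),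
        γ μ * c μ‖ ^ 2 ≤ 2 * ∑ μ ∈ (A.filter (fun μ => μ ∉ P)).filter (fun μ => om a μ = w),
          ‖c μ‖ ^ 2 := by
      intro w
      set G := (A.filter (fun μ => μ ∉ P)).filter (fun μ => om a μ = w) with hG
      have hGc : G.card ≤ 2 := by
        by_contra hcc
        push Not at hcc
        obtain ⟨μ, ν, ρ, hμ, hν, hρ, h3, h4, h5⟩ := Finset.two_lt_card_iff.mp hcc
        rw [hG, Finset.mem_filter] at hμ hν hρ
        exact h5 (unique_partner ha h3 h4 (hμ.2.trans hν.2.symm) (hμ.2.trans hρ.2.symm))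
      have h3 : ‖∑ μ ∈ G, γ μ * c μ‖ ≤ ∑ μ ∈ G, ‖c μ‖ := by
        refine (norm_sum_le _ _).trans (le_of_eq ?_)
        apply Finset.sum_congr rfl
        intro μ _
        rw [norm_mul, hγ, one_mul]
      have h4 : (∑ μ ∈ G, ‖c μ‖) ^ 2 ≤ G.card * ∑ μ ∈ G, ‖c μ‖ ^ 2 := sq_sum_le_card_mul_sum_sq
      have h5 : 0 ≤ ∑ μ ∈ G, ‖c μ‖ ^ 2 := Finset.sum_nonneg fun μ _ => by positivity
      calc _ ≤ (∑ μ ∈ G, ‖c μ‖) ^ 2 := by gcongr
        _ ≤ G.card * ∑ μ ∈ G, ‖c μ‖ ^ 2 := h4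
        _ ≤ 2 * ∑ μ ∈ G, ‖c μ‖ ^ 2 := by
            gcongr
            exact_mod_cast hGc
    have hsq : ∀ u v : ℂ, ‖u - v‖ ^ 2 ≤ 2 * ‖u‖ ^ 2 + 2 * ‖v‖ ^ 2 := by
      intro u v
      have h := norm_sub_le u v
      have h0 := norm_nonneg (u - v)
      nlinarith [sq_nonneg (‖u‖ - ‖v‖), norm_nonneg u, norm_nonneg v]
    have h3 : ∀ w, ‖gs a P γ d w‖ ^ 2 ≤ 2 * ‖gs a A γ c w‖ ^ 2 +
        4 * ∑ μ ∈ (A.filter (fun μ => μ ∉ P)).filter (fun μ => om a μ = w), ‖c μ‖ ^ 2 := by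
      intro w
      rw [e1 w]
      have := hsq (gs a A γ c w)
        (∑ μ ∈ (A.filter (fun μ => μ ∉ P)).filter (fun μ => om a μ = w), γ μ * c μ)
      have := hcard w
      linarith
    calc _ ≤ ∑ w ∈ P.image (om a), (2 * ‖gs a A γ c w‖ ^ 2 +
        4 * ∑ μ ∈ (A.filter (fun μ => μ ∉ P)).filter (fun μ => om a μ = w), ‖c μ‖ ^ 2) :=
          Finset.sum_le_sum fun w _ => h3 w
      _ = 2 * ∑ w ∈ P.image (om a), ‖gs a A γ c w‖ ^ 2 +
          4 * ∑ w ∈ P.image (om a),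
            ∑ μ ∈ (A.filter (fun μ => μ ∉ P)).filter (fun μ => om a μ = w), ‖c μ‖ ^ 2 := by
          rw [Finset.sum_add_distrib, ← Finset.mul_sum, ← Finset.mul_sum]
      _ ≤ _ := by
          apply add_le_add
          · apply mul_le_mul_of_nonneg_left _ (by norm_num)
            -- outside the image of `A` the group sums vanish
            have h4 : ∀ w ∉ A.image (om a), ‖gs a A γ c w‖ ^ 2 = 0 := by
              intro w hw
              have : A.filter (fun μ => om a μ = w) = ∅ := by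
                rw [Finset.filter_eq_empty_iff]
                intro μ hμ he
                exact hw (Finset.mem_image.mpr ⟨μ, hμ, he⟩)
              unfold gs
              rw [this, Finset.sum_empty, norm_zero]
              norm_num
            calc ∑ w ∈ P.image (om a), ‖gs a A γ c w‖ ^ 2
                ≤ ∑ w ∈ P.image (om a) ∪ A.image (om a), ‖gs a A γ c w‖ ^ 2 :=
                  Finset.sum_le_sum_of_subset_of_nonneg Finset.subset_union_left
                    fun w _ _ => by positivity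
              _ = ∑ w ∈ A.image (om a), ‖gs a A γ c w‖ ^ 2 := by
                  symm
                  apply Finset.sum_subset Finset.subset_union_right
                  intro w _ hw
                  exact h4 w hw
          · apply mul_le_mul_of_nonneg_left _ (by norm_num)
            exact Finset.sum_fiberwise_le_sum_of_sum_fiber_nonneg (fun w _ =>
              Finset.sum_nonneg fun μ _ => by positivity)
  have h3 := hfin d
  have h4 := hcmp a1 h1 α hα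
  have h5 := hcmp a2 h2 β hβ
  have h6 : ∑ μ ∈ A, ‖c μ‖ ^ 2 = ∑ μ ∈ A.filter (fun μ => μ ∈ P), ‖c μ‖ ^ 2 +
      ∑ μ ∈ A.filter (fun μ => μ ∉ P), ‖c μ‖ ^ 2 :=
    (Finset.sum_filter_add_sum_filter_not _ _ _).symm
  rw [h6]
  have h7 : ∑ w ∈ P.image (om a1), ‖gs a1 P α d w‖ ^ 2 +
      ∑ w ∈ P.image (om a2), ‖gs a2 P β d w‖ ^ 2 ≤ 10 * (S1 + S2) := by
    rw [← hS1] at h4
    rw [← hS2] at h5
    linarith
  calc _ ≤ C * (∑ w ∈ P.image (om a1), ‖gs a1 P α d w‖ ^ 2 +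
        ∑ w ∈ P.image (om a2), ‖gs a2 P β d w‖ ^ 2) + S1 := add_le_add (hin.trans h3) hout
    _ ≤ C * (10 * (S1 + S2)) + (S1 + S2) := by
        gcongr
        linarith
    _ = _ := by ring

end Pool.Agent.R244.Beam
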