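import Mathlib

/-!
Ingham type inequalities for sparse sets of real frequencies.
-/

set_option autoImplicit false

namespace Pool.Agent.R244.Ing

open MeasureTheory Set Complex
open scoped ComplexConjugate

/-- trigonometric sum with frequencies in the finite set `S` -/
noncomputable def F (S : Finset ℝ) (x : ℝ → ℂ) (t : ℝ) : ℂ := ∑ w ∈ S, x w * cexp (I * (w * t : ℝ))

lemma F_cont (S : Finset ℝ) (x : ℝ → ℂ) : Continuous (F S x) := by
  unfold F
  fun_prop

lemma norm_e (r : ℝ) : ‖cexp (I * (r : ℂ))‖ = 1 := by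
  rw [mul_comm, Complex.norm_exp_ofReal_mul_I]

/-! ### sums of inverse squares of distances -/

noncomputable def K0 : ℝ := ∑' j : ℤ, (1 + (j : ℝ) ^ 2)⁻¹

lemma summ : Summable fun j : ℤ => (1 + (j : ℝ) ^ 2)⁻¹ := by
  have h1 : Summable fun j : ℤ => 1 / (j : ℝ) ^ 2 := by
    have := Real.summable_one_div_int_pow (p := 2)
    exact this.mpr (by norm_num)
  have h2 : Summable fun j : ℤ => (if j = 0 then (1 : ℝ) else 0) + 1 / (j : ℝ) ^ 2 := by
    apply Summable.add _ h1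
    apply summable_of_ne_finset_zero (s := {0})
    intro b hb
    simp at hb
    simp [hb]
  refine Summable.of_nonneg_of_le (fun j => by positivity) (fun j => ?_) h2
  by_cases hj : j = 0
  · subst hj
    simp
  · have : (0 : ℝ) < (j : ℝ) ^ 2 := by
      have : (j : ℝ) ≠ 0 := by exact_mod_cast hj
      positivity
    rw [if_neg hj, zero_add, one_div]
    apply inv_anti₀ this
    linarith

lemma K0_nonneg : 0 ≤ K0 := tsum_nonneg fun j => by positivity

lemma sum_le_K0 (A : Finset ℤ) : ∑ j ∈ A, (1 + (j : ℝ) ^ 2)⁻¹ ≤ K0 :=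
  summ.sum_le_tsum A fun j _ => by positivity

/-- the set `S` is `g`-separated -/
def Sep (g : ℝ) (S : Finset ℝ) : Prop := ∀ x ∈ S, ∀ y ∈ S, x ≠ y → g ≤ |x - y|

lemma sep_sum (g : ℝ) (hg : 0 < g) (S : Finset ℝ) (hS : Sep g S) (x : ℝ) (hx : x ∈ S) :
    ∑ y ∈ S.erase x, ((x - y) ^ 2)⁻¹ ≤ 5 * K0 / g ^ 2 := by
  set j : ℝ → ℤ := fun y => ⌊(y - x) / g⌋ with hj
  have hinj : Set.InjOn j (S.erase x : Set ℝ) := by
    intro y hy z hz hyz
    by_contra hne
    have h1 := hS y (Finset.mem_of_mem_erase (by exact_mod_cast hy)) z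
      (Finset.mem_of_mem_erase (by exact_mod_cast hz)) hne
    simp only [hj] at hyz
    have h2 := Int.floor_le ((y - x) / g)
    have h3 := Int.lt_floor_add_one ((y - x) / g)
    have h4 := Int.floor_le ((z - x) / g)
    have h5 := Int.lt_floor_add_one ((z - x) / g)
    rw [hyz] at h2 h3
    have h6 : |(y - x) / g - (z - x) / g| < 1 := by
      rw [abs_lt]
      constructor <;> linarith
    rw [← sub_div, abs_div, abs_of_pos hg, div_lt_one hg] at h6
    have h7 : y - x - (z - x) = y - z := by ring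
    rw [h7] at h6
    linarith
  have hb : ∀ y ∈ S.erase x, ((x - y) ^ 2)⁻¹ ≤ 5 / g ^ 2 * (1 + (j y : ℝ) ^ 2)⁻¹ := by
    intro y hy
    have hne : x ≠ y := (Finset.ne_of_mem_erase hy).symm
    have h1 := hS x hx y (Finset.mem_of_mem_erase hy) hne
    set u : ℝ := (y - x) / g with hu
    have hxy : x - y = -(u * g) := by
      rw [hu]
      field_simp
      ring
    have h2 : 1 ≤ |u| := by
      rw [hu, abs_div, abs_of_pos hg, le_div_iff₀ hg, one_mul, abs_sub_comm]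
      exact h1
    have h3 := Int.floor_le u
    have h4 := Int.lt_floor_add_one u
    have hju : j y = ⌊u⌋ := rfl
    rw [hju]
    set m : ℤ := ⌊u⌋ with hm
    have h5 : 1 + (m : ℝ) ^ 2 ≤ 5 * u ^ 2 := by
      rcases le_or_gt 0 u with h0 | h0
      · rw [abs_of_nonneg h0] at h2
        have hm1 : (1 : ℤ) ≤ m := by
          rw [hm]
          exact Int.le_floor.mpr (by simpa using h2)
        have hm1' : (1 : ℝ) ≤ m := by exact_mod_cast hm1
        nlinarith
      · rw [abs_of_neg h0] at h2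
        have hm1 : m ≤ -1 := by
          have : (m : ℝ) ≤ -1 := by linarith
          exact_mod_cast this
        rcases eq_or_lt_of_le hm1 with h6 | h6
        · rw [h6]
          push_cast
          nlinarith
        · have h7 : m ≤ -2 := by omega
          have h7' : (m : ℝ) ≤ -2 := by exact_mod_cast h7
          have h8 : (m : ℝ) + 1 ≤ -1 := by linarith
          have h9 : u ^ 2 ≥ ((m : ℝ) + 1) ^ 2 := by nlinarith
          nlinarith
    have hu2 : 0 < u ^ 2 := by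
      have : (0 : ℝ) < 1 + (m : ℝ) ^ 2 := by positivity
      nlinarith
    rw [hxy]
    have e1 : (-(u * g)) ^ 2 = u ^ 2 * g ^ 2 := by ring
    rw [e1, ← div_eq_mul_inv, div_div, ← one_div, div_le_div_iff₀ (by positivity) (by positivity)]
    nlinarith [mul_le_mul_of_nonneg_left h5 (by positivity : (0 : ℝ) ≤ g ^ 2)]
  calc ∑ y ∈ S.erase x, ((x - y) ^ 2)⁻¹ ≤ ∑ y ∈ S.erase x, 5 / g ^ 2 * (1 + (j y : ℝ) ^ 2)⁻¹ :=
        Finset.sum_le_sum hb
    _ = 5 / g ^ 2 * ∑ y ∈ S.erase x, (1 + (j y : ℝ) ^ 2)⁻¹ := by rw [Finset.mul_sum]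
    _ = 5 / g ^ 2 * ∑ i ∈ (S.erase x).image j, (1 + (i : ℝ) ^ 2)⁻¹ := by
        rw [Finset.sum_image hinj]
    _ ≤ 5 / g ^ 2 * K0 := by
        gcongr
        exact sum_le_K0 _
    _ = _ := by ring

/-! ### the weight `t (L - t)` -/

lemma W_bound (L : ℝ) (hL : 0 < L) (u : ℝ) (hu : u ≠ 0) :
    ‖∫ t in (0 : ℝ)..L, ((t * (L - t) : ℝ) : ℂ) * cexp (I * (u * t : ℝ))‖ ≤ 4 * L * (u ^ 2)⁻¹ := by
  have hu' : (u : ℂ) ≠ 0 := by exact_mod_cast hu
  have hI : I * (u : ℂ) ≠ 0 := mul_ne_zero I_ne_zero hu'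
  have hd : ∀ t : ℝ, HasDerivAt (fun t : ℝ => cexp (I * (u * t : ℝ)) *
      ((t : ℂ) * (L - t) / (I * u) - (L - 2 * t) / (I * u) ^ 2 - 2 / (I * u) ^ 3))
      (((t * (L - t) : ℝ) : ℂ) * cexp (I * (u * t : ℝ))) t := by
    intro t
    have h2 : HasDerivAt (fun t : ℝ => (t : ℂ)) 1 t := Complex.ofRealCLM.hasDerivAt
    have h3 : HasDerivAt (fun t : ℝ => cexp (I * (u * t : ℝ)))
        (cexp (I * (u * t : ℝ)) * (I * u)) t := by
      have h4 : HasDerivAt (fun t : ℝ => I * ((u * t : ℝ) : ℂ)) (I * u) t := by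
        have := h2.const_mul (I * u)
        rw [mul_one] at this
        refine this.congr_of_eventuallyEq (Filter.Eventually.of_forall fun s => ?_)
        push_cast
        ring
      exact h4.cexp
    have h5 : HasDerivAt (fun t : ℝ => (t : ℂ) * (L - t) / (I * u) - (L - 2 * t) / (I * u) ^ 2 -
        2 / (I * u) ^ 3) (((L : ℂ) - 2 * t) / (I * u) + 2 / (I * u) ^ 2) t := by
      have h6 : HasDerivAt (fun t : ℝ => (t : ℂ) * (L - t)) ((L : ℂ) - 2 * t) t := by
        have := h2.mul (h2.const_sub (L : ℂ))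
        refine this.congr_deriv ?_
        ring
      have h7 : HasDerivAt (fun t : ℝ => (L : ℂ) - 2 * t) (-2) t := by
        have := (h2.const_mul 2).const_sub (L : ℂ)
        simpa using this
      have h8 := ((h6.div_const (I * u)).sub (h7.div_const ((I * u) ^ 2))).sub_const
        (2 / (I * (u : ℂ)) ^ 3)
      refine h8.congr_deriv ?_
      ring
    refine (h3.mul h5).congr_deriv ?_
    push_cast
    field_simp
    ring
  have hc : Continuous fun t : ℝ => ((t * (L - t) : ℝ) : ℂ) * cexp (I * (u * t : ℝ)) := by fun_prop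
  rw [intervalIntegral.integral_eq_sub_of_hasDerivAt (fun t _ => hd t) (hc.intervalIntegrable _ _)]
  have e0 : cexp (I * ((u * 0 : ℝ) : ℂ)) = 1 := by simp
  have e1 : cexp (I * (u * L : ℝ)) * ((L : ℂ) * (L - L) / (I * u) - (L - 2 * L) / (I * u) ^ 2 -
        2 / (I * u) ^ 3) - cexp (I * ((u * 0 : ℝ) : ℂ)) *
        (((0 : ℝ) : ℂ) * (L - (0 : ℝ)) / (I * u) - (L - 2 * (0 : ℝ)) / (I * u) ^ 2 - 2 / (I * u) ^ 3) =
      ((L : ℂ) * (cexp (I * (u * L : ℝ)) + 1)) / (I * u) ^ 2 -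
        2 * (cexp (I * (u * L : ℝ)) - 1) / (I * u) ^ 3 := by
    rw [e0]
    push_cast
    field_simp
    ring
  rw [e1]
  have n1 : ‖cexp (I * (u * L : ℝ))‖ = 1 := norm_e _
  have n2 : ‖cexp (I * (u * L : ℝ)) - 1‖ ≤ |u| * L := by
    have h := Real.norm_exp_I_mul_ofReal_sub_one_le (x := u * L)
    refine h.trans ?_
    rw [Real.norm_eq_abs, abs_mul, abs_of_pos hL]
  have nI : ‖I * (u : ℂ)‖ = |u| := by
    rw [norm_mul, Complex.norm_I, one_mul, Complex.norm_real, Real.norm_eq_abs]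
  have hau : 0 < |u| := abs_pos.mpr hu
  calc _ ≤ ‖((L : ℂ) * (cexp (I * (u * L : ℝ)) + 1)) / (I * u) ^ 2‖ +
        ‖2 * (cexp (I * (u * L : ℝ)) - 1) / (I * u) ^ 3‖ := norm_sub_le _ _
    _ ≤ L * 2 / |u| ^ 2 + 2 * (|u| * L) / |u| ^ 3 := by
        rw [norm_div, norm_div, norm_pow, norm_pow, nI, norm_mul, norm_mul, Complex.norm_real,
          Real.norm_of_nonneg hL.le]
        gcongr
        · refine (norm_add_le _ _).trans ?_
          rw [n1, norm_one]
          norm_num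
        · rw [Complex.norm_ofNat]
    _ = 4 * L * (u ^ 2)⁻¹ := by
        rw [← sq_abs u]
        field_simp
        ring

lemma W_zero (L : ℝ) : ∫ t in (0 : ℝ)..L, t * (L - t) = L ^ 3 / 6 := by
  have : ∀ t : ℝ, t * (L - t) = L * t - t ^ 2 := fun t => by ring
  simp only [this]
  have h1 : IntervalIntegrable (fun t : ℝ => L * t) volume 0 L := by
    apply Continuous.intervalIntegrable
    fun_prop
  have h2 : IntervalIntegrable (fun t : ℝ => t ^ 2) volume 0 L := by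
    apply Continuous.intervalIntegrable
    fun_prop
  rw [intervalIntegral.integral_sub h1 h2, intervalIntegral.integral_const_mul,
    integral_id, integral_pow]
  norm_num
  ring

/-- the weighted quadratic form -/
lemma quad (L g : ℝ) (hL : 0 < L) (hg : 0 < g) (S : Finset ℝ) (hS : Sep g S) (x : ℝ → ℂ) :
    |(∫ t in (0 : ℝ)..L, t * (L - t) * ‖F S x t‖ ^ 2) - L ^ 3 / 6 * ∑ w ∈ S, ‖x w‖ ^ 2| ≤
      20 * L * K0 / g ^ 2 * ∑ w ∈ S, ‖x w‖ ^ 2 := by
  have h1 : ((∫ t in (0 : ℝ)..L, t * (L - t) * ‖F S x t‖ ^ 2 : ℝ) : ℂ) =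
      ∑ w ∈ S, ∑ v ∈ S, x w * conj (x v) *
        ∫ t in (0 : ℝ)..L, ((t * (L - t) : ℝ) : ℂ) * cexp (I * ((w - v) * t : ℝ)) := by
    rw [← intervalIntegral.integral_ofReal]
    have e1 : ∀ t : ℝ, ((t * (L - t) * ‖F S x t‖ ^ 2 : ℝ) : ℂ) = ∑ w ∈ S, ∑ v ∈ S,
        x w * conj (x v) * (((t * (L - t) : ℝ) : ℂ) * cexp (I * ((w - v) * t : ℝ))) := by
      intro t
      have e2 : ((‖F S x t‖ ^ 2 : ℝ) : ℂ) = F S x t * conj (F S x t) := by
        rw [Complex.mul_conj, Complex.normSq_eq_norm_sq]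
      rw [Complex.ofReal_mul, e2]
      unfold F
      rw [map_sum, Finset.sum_mul_sum, Finset.mul_sum]
      apply Finset.sum_congr rfl
      intro w _
      rw [Finset.mul_sum]
      apply Finset.sum_congr rfl
      intro v _
      rw [map_mul]
      have e3 : conj (cexp (I * ((v * t : ℝ) : ℂ))) = cexp (-(I * ((v * t : ℝ) : ℂ))) := by
        rw [← Complex.exp_conj, map_mul, Complex.conj_I, Complex.conj_ofReal]
        ring_nf
      have e4 : cexp (I * (((w - v) * t : ℝ) : ℂ)) =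
          cexp (I * ((w * t : ℝ) : ℂ)) * cexp (-(I * ((v * t : ℝ) : ℂ))) := by
        rw [← Complex.exp_add]
        congr 1
        push_cast
        ring
      rw [e3, e4]
      ring
    simp only [e1]
    rw [intervalIntegral.integral_finsetSum]
    · apply Finset.sum_congr rfl
      intro w _
      rw [intervalIntegral.integral_finsetSum]
      · apply Finset.sum_congr rfl
        intro v _
        rw [intervalIntegral.integral_const_mul]
      · intro v _
        apply Continuous.intervalIntegrable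
        fun_prop
    · intro w _
      apply Continuous.intervalIntegrable
      fun_prop
  have hdiag : ∀ w, ∫ t in (0 : ℝ)..L, ((t * (L - t) : ℝ) : ℂ) * cexp (I * ((w - w) * t : ℝ)) =
      ((L ^ 3 / 6 : ℝ) : ℂ) := by
    intro w
    rw [← W_zero L, ← intervalIntegral.integral_ofReal]
    congr 1
    ext t
    simp
  have h2 : ((∫ t in (0 : ℝ)..L, t * (L - t) * ‖F S x t‖ ^ 2 : ℝ) : ℂ) -
      ((L ^ 3 / 6 * ∑ w ∈ S, ‖x w‖ ^ 2 : ℝ) : ℂ) = ∑ w ∈ S, ∑ v ∈ S.erase w, x w * conj (x v) *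
        ∫ t in (0 : ℝ)..L, ((t * (L - t) : ℝ) : ℂ) * cexp (I * ((w - v) * t : ℝ)) := by
    rw [h1]
    have e5 : ((L ^ 3 / 6 * ∑ w ∈ S, ‖x w‖ ^ 2 : ℝ) : ℂ) = ∑ w ∈ S, x w * conj (x w) *
        ∫ t in (0 : ℝ)..L, ((t * (L - t) : ℝ) : ℂ) * cexp (I * ((w - w) * t : ℝ)) := by
      rw [Complex.ofReal_mul, Complex.ofReal_sum, Finset.mul_sum]
      apply Finset.sum_congr rfl
      intro w _
      rw [hdiag, Complex.mul_conj, Complex.normSq_eq_norm_sq]
      ring
    rw [e5, ← Finset.sum_sub_distrib]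
    apply Finset.sum_congr rfl
    intro w hw
    rw [← Finset.add_sum_erase S _ hw]
    ring
  have h3 : |(∫ t in (0 : ℝ)..L, t * (L - t) * ‖F S x t‖ ^ 2) - L ^ 3 / 6 * ∑ w ∈ S, ‖x w‖ ^ 2| =
      ‖∑ w ∈ S, ∑ v ∈ S.erase w, x w * conj (x v) *
        ∫ t in (0 : ℝ)..L, ((t * (L - t) : ℝ) : ℂ) * cexp (I * ((w - v) * t : ℝ))‖ := by
    rw [← h2, ← Complex.ofReal_sub, Complex.norm_real, Real.norm_eq_abs]
  rw [h3]
  have h4 : ∀ w ∈ S, ∀ v ∈ S.erase w, ‖x w * conj (x v) *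
      ∫ t in (0 : ℝ)..L, ((t * (L - t) : ℝ) : ℂ) * cexp (I * ((w - v) * t : ℝ))‖ ≤
      (‖x w‖ ^ 2 + ‖x v‖ ^ 2) / 2 * (4 * L * ((w - v) ^ 2)⁻¹) := by
    intro w _ v hv
    have hne : w - v ≠ 0 := sub_ne_zero.mpr (Finset.ne_of_mem_erase hv).symm
    rw [norm_mul, norm_mul, RCLike.norm_conj]
    have := W_bound L hL (w - v) hne
    have h5 : ‖x w‖ * ‖x v‖ ≤ (‖x w‖ ^ 2 + ‖x v‖ ^ 2) / 2 := by
      nlinarith [sq_nonneg (‖x w‖ - ‖x v‖)]
    exact mul_le_mul h5 this (norm_nonneg _) (by positivity)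
  have hsym : ∑ w ∈ S, ∑ v ∈ S.erase w, ‖x v‖ ^ 2 * ((w - v) ^ 2)⁻¹ =
      ∑ w ∈ S, ∑ v ∈ S.erase w, ‖x w‖ ^ 2 * ((w - v) ^ 2)⁻¹ := by
    have h6 : ∀ f : ℝ → ℝ → ℝ, ∑ w ∈ S, ∑ v ∈ S.erase w, f w v =
        ∑ w ∈ S, ∑ v ∈ S, if v = w then 0 else f w v := by
      intro f
      apply Finset.sum_congr rfl
      intro w hw
      rw [← Finset.add_sum_erase S _ hw, if_pos rfl, zero_add]
      apply Finset.sum_congr rfl
      intro v hv
      rw [if_neg (Finset.ne_of_mem_erase hv)]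
    rw [h6, h6, Finset.sum_comm]
    apply Finset.sum_congr rfl
    intro w _
    apply Finset.sum_congr rfl
    intro v _
    by_cases h : v = w
    · rw [if_pos h, if_pos h.symm]
    · rw [if_neg h, if_neg (Ne.symm h)]
      congr 2
      ring
  calc _ ≤ ∑ w ∈ S, ∑ v ∈ S.erase w, ‖x w * conj (x v) *
        ∫ t in (0 : ℝ)..L, ((t * (L - t) : ℝ) : ℂ) * cexp (I * ((w - v) * t : ℝ))‖ :=
        (norm_sum_le _ _).trans (Finset.sum_le_sum fun w _ => norm_sum_le _ _)
    _ ≤ ∑ w ∈ S, ∑ v ∈ S.erase w, (‖x w‖ ^ 2 + ‖x v‖ ^ 2) / 2 * (4 * L * ((w - v) ^ 2)⁻¹) :=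
        Finset.sum_le_sum fun w hw => Finset.sum_le_sum fun v hv => h4 w hw v hv
    _ = 2 * L * (∑ w ∈ S, ∑ v ∈ S.erase w, ‖x w‖ ^ 2 * ((w - v) ^ 2)⁻¹) +
        2 * L * ∑ w ∈ S, ∑ v ∈ S.erase w, ‖x v‖ ^ 2 * ((w - v) ^ 2)⁻¹ := by
        rw [Finset.mul_sum, Finset.mul_sum, ← Finset.sum_add_distrib]
        apply Finset.sum_congr rfl
        intro w _
        rw [Finset.mul_sum, Finset.mul_sum, ← Finset.sum_add_distrib]
        apply Finset.sum_congr rfl
        intro v _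
        ring
    _ = 4 * L * ∑ w ∈ S, ∑ v ∈ S.erase w, ‖x w‖ ^ 2 * ((w - v) ^ 2)⁻¹ := by
        rw [hsym]
        ring
    _ = 4 * L * ∑ w ∈ S, ‖x w‖ ^ 2 * ∑ v ∈ S.erase w, ((w - v) ^ 2)⁻¹ := by
        congr 1
        apply Finset.sum_congr rfl
        intro w _
        rw [Finset.mul_sum]
    _ ≤ 4 * L * ∑ w ∈ S, ‖x w‖ ^ 2 * (5 * K0 / g ^ 2) := by
        gcongr with w hw
        exact sep_sum g hg S hS w hw
    _ = _ := by
        rw [← Finset.sum_mul]
        ring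

/-- lower estimate (Ingham) for large gaps -/
lemma lower (L g : ℝ) (hL : 0 < L) (hg : 0 < g) (hgL : 240 * K0 ≤ g ^ 2 * L ^ 2) (S : Finset ℝ)
    (hS : Sep g S) (x : ℝ → ℂ) :
    ∑ w ∈ S, ‖x w‖ ^ 2 ≤ 3 / L * ∫ t in (0 : ℝ)..L, ‖F S x t‖ ^ 2 := by
  have h1 := (abs_le.mp (quad L g hL hg S hS x)).1
  set X := ∑ w ∈ S, ‖x w‖ ^ 2 with hX
  have hX0 : 0 ≤ X := Finset.sum_nonneg fun w _ => by positivity
  have h2 : 20 * L * K0 / g ^ 2 ≤ L ^ 3 / 12 := by
    rw [div_le_iff₀ (by positivity)]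
    nlinarith
  have h3 : L ^ 3 / 12 * X ≤ ∫ t in (0 : ℝ)..L, t * (L - t) * ‖F S x t‖ ^ 2 := by
    have := mul_le_mul_of_nonneg_right h2 hX0
    linarith
  have hc := F_cont S x
  have h4 : ∫ t in (0 : ℝ)..L, t * (L - t) * ‖F S x t‖ ^ 2 ≤
      ∫ t in (0 : ℝ)..L, L ^ 2 / 4 * ‖F S x t‖ ^ 2 := by
    apply intervalIntegral.integral_mono_on hL.le
    · apply Continuous.intervalIntegrable
      fun_prop
    · apply Continuous.intervalIntegrable
      fun_prop
    · intro t _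
      apply mul_le_mul_of_nonneg_right _ (by positivity)
      nlinarith [sq_nonneg (L - 2 * t)]
  rw [intervalIntegral.integral_const_mul] at h4
  have h5 : L ^ 3 / 12 * X ≤ L ^ 2 / 4 * ∫ t in (0 : ℝ)..L, ‖F S x t‖ ^ 2 := h3.trans h4
  rw [div_mul_eq_mul_div, le_div_iff₀ hL]
  have hL2 : 0 < L ^ 2 := by positivity
  have h6 : L ^ 2 * (X * L) ≤ L ^ 2 * (3 * ∫ t in (0 : ℝ)..L, ‖F S x t‖ ^ 2) := by nlinarith
  exact le_of_mul_le_mul_left h6 hL2

/-- upper estimate -/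
lemma upper (T g : ℝ) (hT : 0 < T) (hg : 0 < g) (S : Finset ℝ) (hS : Sep g S) (x : ℝ → ℂ) :
    ∫ t in (0 : ℝ)..T, ‖F S x t‖ ^ 2 ≤ (9 * T / 4 + 30 * K0 / (g ^ 2 * T)) * ∑ w ∈ S, ‖x w‖ ^ 2 := by
  set y : ℝ → ℂ := fun w => x w * cexp (I * (-(w * T) : ℝ)) with hy
  have hy1 : ∀ w, ‖y w‖ = ‖x w‖ := by
    intro w
    rw [hy]
    simp only
    rw [norm_mul, norm_e, mul_one]
  have h1 := (abs_le.mp (quad (3 * T) g (by positivity) hg S hS y)).2
  simp only [hy1] at h1
  set X := ∑ w ∈ S, ‖x w‖ ^ 2 with hX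
  have hX0 : 0 ≤ X := Finset.sum_nonneg fun w _ => by positivity
  have hF : ∀ t, F S y (t + T) = F S x t := by
    intro t
    unfold F
    apply Finset.sum_congr rfl
    intro w _
    rw [hy]
    simp only
    rw [mul_assoc, ← Complex.exp_add]
    congr 2
    push_cast
    ring
  have hc := F_cont S y
  have h2 : ∫ t in (0 : ℝ)..T, 2 * T ^ 2 * ‖F S x t‖ ^ 2 ≤
      ∫ t in (0 : ℝ)..(3 * T), t * (3 * T - t) * ‖F S y t‖ ^ 2 := by
    calc ∫ t in (0 : ℝ)..T, 2 * T ^ 2 * ‖F S x t‖ ^ 2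
        = ∫ t in (0 : ℝ)..T, (fun s => 2 * T ^ 2 * ‖F S y s‖ ^ 2) (t + T) := by
          apply intervalIntegral.integral_congr
          intro t _
          simp only
          rw [hF]
      _ = ∫ s in (0 + T)..(T + T), 2 * T ^ 2 * ‖F S y s‖ ^ 2 :=
          intervalIntegral.integral_comp_add_right (fun s => 2 * T ^ 2 * ‖F S y s‖ ^ 2) T
      _ ≤ ∫ s in (0 + T)..(T + T), s * (3 * T - s) * ‖F S y s‖ ^ 2 := by
          apply intervalIntegral.integral_mono_on (by linarith)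
          · apply Continuous.intervalIntegrable
            fun_prop
          · apply Continuous.intervalIntegrable
            fun_prop
          · intro s hs
            apply mul_le_mul_of_nonneg_right _ (by positivity)
            have h3 := hs.1
            have h4 := hs.2
            nlinarith
      _ ≤ ∫ t in (0 : ℝ)..(3 * T), t * (3 * T - t) * ‖F S y t‖ ^ 2 := by
          apply intervalIntegral.integral_mono_interval (by linarith) (by linarith) (by linarith)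
          · rw [Filter.EventuallyLE, ae_restrict_iff' measurableSet_Ioc]
            refine ae_of_all _ fun t ht => ?_
            have h3 := ht.1
            have h4 := ht.2
            simp only [Pi.zero_apply]
            have : 0 ≤ 3 * T - t := by linarith
            positivity
          · apply Continuous.intervalIntegrable
            fun_prop
  rw [intervalIntegral.integral_const_mul] at h2
  have h5 : 2 * T ^ 2 * ∫ t in (0 : ℝ)..T, ‖F S x t‖ ^ 2 ≤
      ((3 * T) ^ 3 / 6 + 20 * (3 * T) * K0 / g ^ 2) * X := by linarith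
  have hT2 : 0 < 2 * T ^ 2 := by positivity
  apply le_of_mul_le_mul_left _ hT2
  refine h5.trans (le_of_eq ?_)
  field_simp
  ring

end Pool.Agent.R244.Ing
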