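import Mathlib
import Pool.Agent.R244.Ingham

/-!
Ingham type inequalities on every interval for sparse sets of real frequencies (Haraux's method).
-/

set_option autoImplicit false

namespace Pool.Agent.R244.Ing

open MeasureTheory Set Complex
open scoped ComplexConjugate

/-- lower estimate on `[0,T]` -/
def Obs (Ω : Set ℝ) (T : ℝ) : Prop := ∃ C : ℝ, 0 ≤ C ∧ ∀ (S : Finset ℝ) (x : ℝ → ℂ),
  (∀ w ∈ S, w ∈ Ω) → ∑ w ∈ S, ‖x w‖ ^ 2 ≤ C * ∫ t in (0 : ℝ)..T, ‖F S x t‖ ^ 2

/-- upper estimate on all intervals -/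
def Dir (Ω : Set ℝ) : Prop := ∀ T : ℝ, 0 < T → ∃ C : ℝ, 0 ≤ C ∧ ∀ (S : Finset ℝ) (x : ℝ → ℂ),
  (∀ w ∈ S, w ∈ Ω) → ∫ t in (0 : ℝ)..T, ‖F S x t‖ ^ 2 ≤ C * ∑ w ∈ S, ‖x w‖ ^ 2

/-- the set is uniformly discrete -/
def UD (Ω : Set ℝ) : Prop := ∃ g : ℝ, 0 < g ∧ ∀ x ∈ Ω, ∀ y ∈ Ω, x ≠ y → g ≤ |x - y|

lemma dir_of_ud {Ω : Set ℝ} (h : UD Ω) : Dir Ω := by
  obtain ⟨g, hg, h⟩ := h
  intro T hT
  refine ⟨9 * T / 4 + 30 * K0 / (g ^ 2 * T), ?_, fun S x hS => ?_⟩
  · have := K0_nonneg
    positivity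
  · exact upper T g hT hg S (fun a ha b hb hab => h a (hS a ha) b (hS b hb) hab) x

lemma F_insert {S : Finset ℝ} {w0 : ℝ} (h : w0 ∉ S) (x : ℝ → ℂ) (t : ℝ) :
    F (insert w0 S) x t = x w0 * cexp (I * (w0 * t : ℝ)) + F S x t := by
  unfold F
  rw [Finset.sum_insert h]

/-- the value of `∫_0^D |e^{iuδ} - 1|² dδ` is bounded below -/
lemma osc_lower (D η : ℝ) (hD : 0 < D) (hη : 0 < η) : ∃ c : ℝ, 0 < c ∧ ∀ u : ℝ, η ≤ |u| →
    c ≤ ∫ δ in (0 : ℝ)..D, ‖cexp (I * (u * δ : ℝ)) - 1‖ ^ 2 := by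
  have hval : ∀ u : ℝ, u ≠ 0 → ∫ δ in (0 : ℝ)..D, ‖cexp (I * (u * δ : ℝ)) - 1‖ ^ 2 =
      2 * (D - Real.sin (u * D) / u) := by
    intro u hu
    have h1 : ∀ δ : ℝ, ‖cexp (I * (u * δ : ℝ)) - 1‖ ^ 2 = 2 - 2 * Real.cos (u * δ) := by
      intro δ
      rw [← Complex.normSq_eq_norm_sq, mul_comm I, Complex.exp_mul_I, ← Complex.ofReal_cos,
        ← Complex.ofReal_sin, Complex.normSq_apply]
      simp only [add_re, sub_re, mul_re, add_im, sub_im, mul_im, Complex.ofReal_re,
        Complex.ofReal_im, I_re, I_im, one_re, one_im]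
      nlinarith [Real.sin_sq_add_cos_sq (u * δ)]
    simp only [h1]
    have h2 : ∀ δ : ℝ, HasDerivAt (fun δ : ℝ => 2 * δ - 2 * (Real.sin (u * δ) / u))
        (2 - 2 * Real.cos (u * δ)) δ := by
      intro δ
      have h3 : HasDerivAt (fun δ : ℝ => Real.sin (u * δ)) (Real.cos (u * δ) * u) δ := by
        have := ((hasDerivAt_id δ).const_mul u).sin
        simpa using this
      have h4 := ((hasDerivAt_id δ).const_mul 2).sub ((h3.div_const u).const_mul 2)
      refine h4.congr_deriv ?_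
      field_simp
    rw [intervalIntegral.integral_eq_sub_of_hasDerivAt (fun δ _ => h2 δ)
      (by apply Continuous.intervalIntegrable; fun_prop)]
    simp
    ring
  -- the function `1 - sin v / v` on `v ≥ η D`
  have key : ∃ c : ℝ, 0 < c ∧ ∀ v : ℝ, η * D ≤ v → c ≤ 1 - Real.sin v / v := by
    have hv0 : 0 < η * D := by positivity
    set b : ℝ := max 2 (η * D) with hb
    have hne : (Icc (η * D) b).Nonempty := ⟨η * D, left_mem_Icc.mpr (le_max_right _ _)⟩
    have hcont : ContinuousOn (fun v : ℝ => 1 - Real.sin v / v) (Icc (η * D) b) := by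
      apply ContinuousOn.sub continuousOn_const
      apply ContinuousOn.div Real.continuous_sin.continuousOn continuousOn_id
      intro v hv
      have : 0 < v := lt_of_lt_of_le hv0 hv.1
      exact this.ne'
    obtain ⟨v0, hv0m, hmin⟩ := isCompact_Icc.exists_isMinOn hne hcont
    have hv0p : 0 < v0 := lt_of_lt_of_le hv0 hv0m.1
    have h1 : 0 < 1 - Real.sin v0 / v0 := by
      have := Real.sin_lt hv0p
      have h2 : Real.sin v0 / v0 < 1 := by
        rw [div_lt_one hv0p]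
        exact this
      linarith
    refine ⟨min (1 - Real.sin v0 / v0) (1 / 2), lt_min h1 (by norm_num), fun v hv => ?_⟩
    rcases le_or_gt v b with h | h
    · exact (min_le_left _ _).trans (hmin ⟨hv, h⟩)
    · have h2 : 2 < v := lt_of_le_of_lt (le_max_left _ _) h
      refine (min_le_right _ _).trans ?_
      have h3 : Real.sin v / v ≤ 1 / 2 := by
        rw [div_le_iff₀ (by linarith)]
        have := Real.sin_le_one v
        linarith
      linarith
  obtain ⟨c, hc, hkey⟩ := key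
  refine ⟨2 * D * c, by positivity, fun u hu => ?_⟩
  have hu0 : u ≠ 0 := by
    intro h
    rw [h, abs_zero] at hu
    linarith
  rw [hval u hu0]
  have h1 : η * D ≤ |u| * D := by gcongr
  have h2 := hkey (|u| * D) h1
  have h3 : Real.sin (u * D) / u = D * (Real.sin (|u| * D) / (|u| * D)) := by
    rcases le_or_gt 0 u with h | h
    · rw [abs_of_nonneg h]
      field_simp
    · rw [abs_of_neg h]
      have : -u * D = -(u * D) := by ring
      rw [this, Real.sin_neg]
      field_simp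
  rw [h3]
  nlinarith

lemma sq_norm_sub_le (a b : ℂ) : ‖a - b‖ ^ 2 ≤ 2 * ‖a‖ ^ 2 + 2 * ‖b‖ ^ 2 := by
  have h := norm_sub_le a b
  have h0 := norm_nonneg (a - b)
  nlinarith [sq_nonneg (‖a‖ - ‖b‖), norm_nonneg a, norm_nonneg b]

lemma int_shift_le (f : ℝ → ℂ) (hf : Continuous f) (T' T δ : ℝ) (h0 : 0 ≤ δ) (h1 : δ ≤ T - T')
    (hT' : 0 < T') (hT : T' < T) (z : ℂ) (hz : ‖z‖ = 1) :
    ∫ t in (0 : ℝ)..T', ‖f (t + δ) - z * f t‖ ^ 2 ≤ 4 * ∫ t in (0 : ℝ)..T, ‖f t‖ ^ 2 := by
  have e1 : ∫ t in (0 : ℝ)..T', ‖f (t + δ) - z * f t‖ ^ 2 ≤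
      ∫ t in (0 : ℝ)..T', (2 * ‖f (t + δ)‖ ^ 2 + 2 * ‖f t‖ ^ 2) := by
    apply intervalIntegral.integral_mono_on (by linarith)
    · apply Continuous.intervalIntegrable
      fun_prop
    · apply Continuous.intervalIntegrable
      fun_prop
    · intro t _
      refine (sq_norm_sub_le _ _).trans (le_of_eq ?_)
      rw [norm_mul, hz, one_mul]
  have i1 : IntervalIntegrable (fun t => 2 * ‖f (t + δ)‖ ^ 2) volume 0 T' := by
    apply Continuous.intervalIntegrable
    fun_prop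
  have i2 : IntervalIntegrable (fun t => 2 * ‖f t‖ ^ 2) volume 0 T' := by
    apply Continuous.intervalIntegrable
    fun_prop
  rw [intervalIntegral.integral_add i1 i2, intervalIntegral.integral_const_mul,
    intervalIntegral.integral_const_mul] at e1
  have hpos : ∀ a b : ℝ, 0 ≤ a → a ≤ b → b ≤ T →
      ∫ t in a..b, ‖f t‖ ^ 2 ≤ ∫ t in (0 : ℝ)..T, ‖f t‖ ^ 2 := by
    intro a b ha hab hb
    apply intervalIntegral.integral_mono_interval ha hab hb
    · exact ae_of_all _ fun t => by simp only [Pi.zero_apply]; positivity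
    · apply Continuous.intervalIntegrable
      fun_prop
  have e2 : ∫ t in (0 : ℝ)..T', ‖f (t + δ)‖ ^ 2 ≤ ∫ t in (0 : ℝ)..T, ‖f t‖ ^ 2 := by
    have := intervalIntegral.integral_comp_add_right (a := 0) (b := T')
      (fun t => ‖f t‖ ^ 2) δ
    rw [this]
    exact hpos _ _ (by linarith) (by linarith) (by linarith)
  have e3 := hpos 0 T' le_rfl (by linarith) (by linarith)
  linarith

/-- the common part of the two difference arguments: for `f = P + F S x` with an exponential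
polynomial part `P` killed by the difference -/
lemma diff_arg {Ω : Set ℝ} (T' T : ℝ) (hT' : 0 < T') (hT : T' < T) (h : Obs Ω T') (w0 η : ℝ)
    (hη : 0 < η) (hw : ∀ w ∈ Ω, η ≤ |w - w0|) :
    ∃ C : ℝ, 0 ≤ C ∧ ∀ (S : Finset ℝ) (x : ℝ → ℂ) (f : ℝ → ℂ), Continuous f → (∀ w ∈ S, w ∈ Ω) →
      (∀ δ t : ℝ, f (t + δ) - cexp (I * (w0 * δ : ℝ)) * f t =
        F S (fun w => x w * (cexp (I * (w * δ : ℝ)) - cexp (I * (w0 * δ : ℝ)))) t) →
      ∑ w ∈ S, ‖x w‖ ^ 2 ≤ C * ∫ t in (0 : ℝ)..T, ‖f t‖ ^ 2 := by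
  obtain ⟨C1, hC1, H1⟩ := h
  have hD : 0 < T - T' := by linarith
  obtain ⟨c, hc, H3⟩ := osc_lower (T - T') η hD hη
  refine ⟨4 * C1 * (T - T') / c, by positivity, ?_⟩
  intro S x f hfc hSΩ hg
  set J : ℝ := ∫ t in (0 : ℝ)..T, ‖f t‖ ^ 2 with hJ
  have hT0 : 0 < T := by linarith
  have hJ0 : 0 ≤ J := intervalIntegral.integral_nonneg hT0.le fun t _ => by positivity
  have h1 : ∀ δ : ℝ, 0 ≤ δ → δ ≤ T - T' →
      ∑ w ∈ S, ‖x w‖ ^ 2 * ‖cexp (I * ((w - w0) * δ : ℝ)) - 1‖ ^ 2 ≤ 4 * C1 * J := by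
    intro δ h0 h1
    have h2 := H1 S (fun w => x w * (cexp (I * (w * δ : ℝ)) - cexp (I * (w0 * δ : ℝ)))) hSΩ
    have h3 := int_shift_le f hfc T' T δ h0 h1 hT' hT (cexp (I * (w0 * δ : ℝ))) (norm_e _)
    simp only [hg] at h3
    have h4 : ∀ w : ℝ, ‖x w * (cexp (I * (w * δ : ℝ)) - cexp (I * (w0 * δ : ℝ)))‖ ^ 2 =
        ‖x w‖ ^ 2 * ‖cexp (I * ((w - w0) * δ : ℝ)) - 1‖ ^ 2 := by
      intro w
      have e1 : cexp (I * (w * δ : ℝ)) - cexp (I * (w0 * δ : ℝ)) =
          cexp (I * (w0 * δ : ℝ)) * (cexp (I * ((w - w0) * δ : ℝ)) - 1) := by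
        rw [mul_sub, ← Complex.exp_add, mul_one]
        congr 2
        push_cast
        ring
      rw [e1, norm_mul, norm_mul, norm_e, one_mul, mul_pow]
    simp only [h4] at h2
    calc _ ≤ _ := h2
      _ ≤ C1 * (4 * J) := by gcongr
      _ = _ := by ring
  have h2 : c * ∑ w ∈ S, ‖x w‖ ^ 2 ≤ 4 * C1 * (T - T') * J := by
    calc c * ∑ w ∈ S, ‖x w‖ ^ 2 = ∑ w ∈ S, ‖x w‖ ^ 2 * c := by
          rw [Finset.mul_sum]
          apply Finset.sum_congr rfl
          intro w _
          ring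
      _ ≤ ∑ w ∈ S, ‖x w‖ ^ 2 * ∫ δ in (0 : ℝ)..(T - T'),
            ‖cexp (I * ((w - w0) * δ : ℝ)) - 1‖ ^ 2 := by
          apply Finset.sum_le_sum
          intro w hwS
          gcongr
          exact H3 _ (hw w (hSΩ w hwS))
      _ = ∫ δ in (0 : ℝ)..(T - T'), ∑ w ∈ S, ‖x w‖ ^ 2 *
            ‖cexp (I * ((w - w0) * δ : ℝ)) - 1‖ ^ 2 := by
          rw [intervalIntegral.integral_finsetSum]
          · apply Finset.sum_congr rfl
            intro w _
            rw [intervalIntegral.integral_const_mul]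
          · intro w _
            apply Continuous.intervalIntegrable
            fun_prop
      _ ≤ ∫ δ in (0 : ℝ)..(T - T'), 4 * C1 * J := by
          apply intervalIntegral.integral_mono_on (by linarith)
          · apply Continuous.intervalIntegrable
            fun_prop
          · exact continuous_const.intervalIntegrable _ _
          · intro δ hδ
            exact h1 δ hδ.1 hδ.2
      _ = 4 * C1 * (T - T') * J := by
          rw [intervalIntegral.integral_const, smul_eq_mul]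
          ring
  rw [div_mul_eq_mul_div, le_div_iff₀ hc]
  linarith

/-- Adding one frequency. -/
lemma obs_insert {Ω : Set ℝ} (T' T : ℝ) (hT' : 0 < T') (hT : T' < T) (h : Obs Ω T') (hD : Dir Ω)
    (w0 η : ℝ) (hη : 0 < η) (hw : ∀ w ∈ Ω, η ≤ |w - w0|) : Obs (insert w0 Ω) T := by
  have hT0 : 0 < T := by linarith
  obtain ⟨C2, hC2, H2⟩ := hD T hT0
  obtain ⟨C3, hC30, H3⟩ := diff_arg T' T hT' hT h w0 η hη hw
  refine ⟨C3 + (2 + 2 * C2 * C3) / T, by positivity, fun S' x hS' => ?_⟩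
  have main : ∀ (S : Finset ℝ) (x : ℝ → ℂ), w0 ∉ S → (∀ w ∈ S, w ∈ Ω) →
      ‖x w0‖ ^ 2 + ∑ w ∈ S, ‖x w‖ ^ 2 ≤ (C3 + (2 + 2 * C2 * C3) / T) *
        ∫ t in (0 : ℝ)..T, ‖F (insert w0 S) x t‖ ^ 2 := by
    intro S x hS hSΩ
    set f : ℝ → ℂ := F (insert w0 S) x with hf
    have hfc : Continuous f := F_cont _ _
    set J : ℝ := ∫ t in (0 : ℝ)..T, ‖f t‖ ^ 2 with hJ
    have hJ0 : 0 ≤ J := intervalIntegral.integral_nonneg hT0.le fun t _ => by positivity
    have hg : ∀ δ t : ℝ, f (t + δ) - cexp (I * (w0 * δ : ℝ)) * f t =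
        F S (fun w => x w * (cexp (I * (w * δ : ℝ)) - cexp (I * (w0 * δ : ℝ)))) t := by
      intro δ t
      rw [hf, F_insert hS, F_insert hS]
      unfold F
      have e1 : ∀ w : ℝ, cexp (I * (w * (t + δ) : ℝ)) =
          cexp (I * (w * δ : ℝ)) * cexp (I * (w * t : ℝ)) := by
        intro w
        rw [← Complex.exp_add]
        congr 1
        push_cast
        ring
      simp only [e1]
      rw [mul_add, Finset.mul_sum]
      have e2 : ∑ w ∈ S, x w * (cexp (I * (w * δ : ℝ)) - cexp (I * (w0 * δ : ℝ))) *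
          cexp (I * (w * t : ℝ)) = ∑ w ∈ S, x w * (cexp (I * (w * δ : ℝ)) *
          cexp (I * (w * t : ℝ))) - ∑ w ∈ S, cexp (I * (w0 * δ : ℝ)) * (x w *
          cexp (I * (w * t : ℝ))) := by
        rw [← Finset.sum_sub_distrib]
        apply Finset.sum_congr rfl
        intro w _
        ring
      rw [e2]
      ring
    have h3 : ∑ w ∈ S, ‖x w‖ ^ 2 ≤ C3 * J := H3 S x f hfc hSΩ hg
    have h4 : T * ‖x w0‖ ^ 2 ≤ 2 * J + 2 * (C2 * (C3 * J)) := by
      have e1 : T * ‖x w0‖ ^ 2 = ∫ t in (0 : ℝ)..T, ‖f t - F S x t‖ ^ 2 := by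
        have e2 : ∀ t, ‖f t - F S x t‖ ^ 2 = ‖x w0‖ ^ 2 := by
          intro t
          rw [hf, F_insert hS, add_sub_cancel_right, norm_mul, norm_e, mul_one]
        simp only [e2]
        rw [intervalIntegral.integral_const, smul_eq_mul, sub_zero]
      have hc2 := F_cont S x
      rw [e1]
      calc ∫ t in (0 : ℝ)..T, ‖f t - F S x t‖ ^ 2
          ≤ ∫ t in (0 : ℝ)..T, (2 * ‖f t‖ ^ 2 + 2 * ‖F S x t‖ ^ 2) := by
            apply intervalIntegral.integral_mono_on hT0.le
            · apply Continuous.intervalIntegrable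
              fun_prop
            · apply Continuous.intervalIntegrable
              fun_prop
            · intro t _
              exact sq_norm_sub_le _ _
        _ = 2 * J + 2 * ∫ t in (0 : ℝ)..T, ‖F S x t‖ ^ 2 := by
            have i1 : IntervalIntegrable (fun t => 2 * ‖f t‖ ^ 2) volume 0 T := by
              apply Continuous.intervalIntegrable
              fun_prop
            have i2 : IntervalIntegrable (fun t => 2 * ‖F S x t‖ ^ 2) volume 0 T := by
              apply Continuous.intervalIntegrable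
              fun_prop
            rw [intervalIntegral.integral_add i1 i2, intervalIntegral.integral_const_mul,
              intervalIntegral.integral_const_mul]
        _ ≤ 2 * J + 2 * (C2 * (C3 * J)) := by
            have h5 := H2 S x hSΩ
            have h6 : C2 * ∑ w ∈ S, ‖x w‖ ^ 2 ≤ C2 * (C3 * J) := by gcongr
            linarith
    have h5 : ‖x w0‖ ^ 2 ≤ (2 + 2 * C2 * C3) / T * J := by
      rw [div_mul_eq_mul_div, le_div_iff₀ hT0]
      linarith
    rw [add_mul]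
    linarith
  by_cases hmem : w0 ∈ S'
  · have h1 := main (S'.erase w0) x (Finset.notMem_erase _ _) (fun w hw' => by
      have h2 := hS' w (Finset.mem_of_mem_erase hw')
      rcases h2 with h2 | h2
      · exact absurd h2 (Finset.ne_of_mem_erase hw')
      · exact h2)
    rw [Finset.insert_erase hmem] at h1
    have h2 := Finset.add_sum_erase S' (fun w => ‖x w‖ ^ 2) hmem
    rw [h2] at h1
    exact h1
  · set x' : ℝ → ℂ := fun w => if w = w0 then 0 else x w with hx'
    have h1 := main S' x' hmem (fun w hw' => by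
      have h2 := hS' w hw'
      rcases h2 with h2 | h2
      · exact absurd (h2 ▸ hw') hmem
      · exact h2)
    have h2 : ∀ w ∈ S', x' w = x w := by
      intro w hw'
      rw [hx']
      simp only
      rw [if_neg]
      intro h3
      exact hmem (h3 ▸ hw')
    have h3 : ∑ w ∈ S', ‖x' w‖ ^ 2 = ∑ w ∈ S', ‖x w‖ ^ 2 :=
      Finset.sum_congr rfl fun w hw' => by rw [h2 w hw']
    have h4 : ∀ t, F (insert w0 S') x' t = F S' x t := by
      intro t
      rw [F_insert hmem]
      have : x' w0 = 0 := by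
        rw [hx']
        simp
      rw [this, zero_mul, zero_add]
      unfold F
      exact Finset.sum_congr rfl fun w hw' => by rw [h2 w hw']
    simp only [h4] at h1
    rw [h3] at h1
    have h5 : 0 ≤ ‖x' w0‖ ^ 2 := by positivity
    linarith

lemma Obs.mono {Ω Ω' : Set ℝ} {T : ℝ} (h : Obs Ω T) (hs : Ω' ⊆ Ω) : Obs Ω' T := by
  obtain ⟨C, hC, H⟩ := h
  exact ⟨C, hC, fun S x hS => H S x fun w hw => hs (hS w hw)⟩

lemma Obs.mono_T {Ω : Set ℝ} {T' T : ℝ} (hT' : 0 < T') (hT : T' ≤ T) (h : Obs Ω T') : Obs Ω T := by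
  obtain ⟨C, hC, H⟩ := h
  refine ⟨C, hC, fun S x hS => (H S x hS).trans ?_⟩
  gcongr
  have hc := F_cont S x
  apply intervalIntegral.integral_mono_interval le_rfl hT'.le hT
  · exact ae_of_all _ fun t => by simp only [Pi.zero_apply]; positivity
  · apply Continuous.intervalIntegrable
    fun_prop

lemma UD.mono {Ω Ω' : Set ℝ} (h : UD Ω) (hs : Ω' ⊆ Ω) : UD Ω' := by
  obtain ⟨g, hg, H⟩ := h
  exact ⟨g, hg, fun x hx y hy => H x (hs hx) y (hs hy)⟩

lemma obs_union (A : Finset ℝ) : ∀ (Ω0 : Set ℝ) (T' T : ℝ), 0 < T' → T' < T → Obs Ω0 T' →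
    UD (Ω0 ∪ A) → Obs (Ω0 ∪ A) T := by
  induction A using Finset.induction_on with
  | empty =>
    intro Ω0 T' T hT' hT h0 _
    simpa using h0.mono_T hT' hT.le
  | insert a A ha ih =>
    intro Ω0 T' T hT' hT h0 hu
    have hu' : UD (Ω0 ∪ A) := hu.mono (by
      intro z hz
      rcases hz with hz | hz
      · exact Or.inl hz
      · refine Or.inr ?_
        simp [Finset.mem_coe.mp hz])
    have h1 := ih Ω0 T' ((T' + T) / 2) hT' (by linarith) h0 hu'
    by_cases hmem : a ∈ Ω0 ∪ (A : Set ℝ)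
    · have : Ω0 ∪ ((insert a A : Finset ℝ) : Set ℝ) = Ω0 ∪ A := by
        ext z
        simp only [Finset.coe_insert, Set.mem_union, Set.mem_insert_iff, Finset.mem_coe]
        constructor
        · rintro (hz | hz | hz)
          · exact Or.inl hz
          · subst hz
            exact hmem
          · exact Or.inr hz
        · rintro (hz | hz)
          · exact Or.inl hz
          · exact Or.inr (Or.inr hz)
      rw [this]
      exact h1.mono_T (by linarith) (by linarith)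
    · have : Ω0 ∪ ((insert a A : Finset ℝ) : Set ℝ) = insert a (Ω0 ∪ A) := by
        ext z
        simp only [Finset.coe_insert, Set.mem_union, Set.mem_insert_iff, Finset.mem_coe]
        tauto
      rw [this]
      obtain ⟨g, hg, H⟩ := hu
      refine obs_insert ((T' + T) / 2) T (by linarith) (by linarith) h1 (dir_of_ud hu') a g hg ?_
      intro w hw
      apply H
      · rcases hw with hw | hw
        · exact Or.inl hw
        · refine Or.inr ?_
          simp [Finset.mem_coe.mp hw]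
      · refine Or.inr ?_
        simp
      · rintro rfl
        exact hmem hw

/-- A uniformly discrete set whose gaps become arbitrarily large satisfies the lower estimate on
every interval. -/
lemma obs_of_sparse {Ω : Set ℝ} (hud : UD Ω)
    (hsp : ∀ g : ℝ, ∃ A : Finset ℝ, ∀ x ∈ Ω, ∀ y ∈ Ω, x ∉ A → y ∉ A → x ≠ y → g ≤ |x - y|)
    (T : ℝ) (hT : 0 < T) : Obs Ω T := by
  classical
  set g : ℝ := Real.sqrt (240 * K0 + 1) / (T / 2) with hg
  have hK := K0_nonneg
  have hg0 : 0 < g := by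
    have : 0 < Real.sqrt (240 * K0 + 1) := Real.sqrt_pos.mpr (by linarith)
    positivity
  have hgT : 240 * K0 ≤ g ^ 2 * (T / 2) ^ 2 := by
    rw [hg, div_pow, Real.sq_sqrt (by linarith)]
    field_simp
    linarith
  obtain ⟨A, hA⟩ := hsp g
  set A' : Finset ℝ := A.filter (fun a => a ∈ Ω) with hA'
  have h0 : Obs (Ω \ A) (T / 2) := by
    refine ⟨3 / (T / 2), by positivity, fun S x hS => ?_⟩
    exact lower (T / 2) g (by positivity) hg0 hgT S (fun a ha b hb hab =>
      hA a (hS a ha).1 b (hS b hb).1 (fun h => (hS a ha).2 (Finset.mem_coe.mpr h))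
        (fun h => (hS b hb).2 (Finset.mem_coe.mpr h)) hab) x
  have hset : Ω \ A ∪ (A' : Set ℝ) = Ω := by
    ext z
    simp only [hA', Set.mem_union, Set.mem_sdiff, Finset.mem_coe, Finset.coe_filter,
      Set.mem_ofPred_eq]
    tauto
  have h1 := obs_union A' (Ω \ A) (T / 2) T (by positivity) (by linarith) h0 (by rw [hset]; exact hud)
  rwa [hset] at h1

/-- The lower estimate with a constant and a linear term. -/
lemma obs_linear {Ω : Set ℝ} (hud : UD (insert 0 Ω))
    (hsp : ∀ g : ℝ, ∃ A : Finset ℝ, ∀ x ∈ Ω, ∀ y ∈ Ω, x ∉ A → y ∉ A → x ≠ y → g ≤ |x - y|)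
    (h0 : (0 : ℝ) ∉ Ω) (T : ℝ) (hT : 0 < T) :
    ∃ C : ℝ, 0 ≤ C ∧ ∀ (S : Finset ℝ) (x : ℝ → ℂ) (b c : ℂ), (∀ w ∈ S, w ∈ Ω) →
      ‖b‖ ^ 2 + ‖c‖ ^ 2 + ∑ w ∈ S, ‖x w‖ ^ 2 ≤
        C * ∫ t in (0 : ℝ)..T, ‖b * t + c + F S x t‖ ^ 2 := by
  have hsp' : ∀ g : ℝ, ∃ A : Finset ℝ, ∀ x ∈ insert 0 Ω, ∀ y ∈ insert 0 Ω, x ∉ A → y ∉ A →
      x ≠ y → g ≤ |x - y| := by
    intro g
    obtain ⟨A, hA⟩ := hsp g
    refine ⟨insert 0 A, fun x hx y hy hxA hyA hxy => ?_⟩
    rw [Finset.mem_insert, not_or] at hxA hyA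
    rcases hx with hx | hx
    · exact absurd hx hxA.1
    · rcases hy with hy | hy
      · exact absurd hy hyA.1
      · exact hA x hx y hy hxA.2 hyA.2 hxy
  obtain ⟨C1, hC1, H1⟩ := obs_of_sparse hud hsp' (T / 2) (by positivity)
  obtain ⟨g0, hg0, Hg⟩ := hud
  obtain ⟨C2, hC2, H2⟩ := dir_of_ud (Ω := Ω) ⟨g0, hg0, fun x hx y hy =>
    Hg x (Set.mem_insert_of_mem _ hx) y (Set.mem_insert_of_mem _ hy)⟩ T hT
  obtain ⟨κ, hκ, H3⟩ := osc_lower (T / 2) g0 (by positivity) hg0
  have hT2 : 0 < T - T / 2 := by linarith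
  -- constants
  set m : ℝ := min ((T / 2) ^ 3 / 3) κ with hm
  have hm0 : 0 < m := lt_min (by positivity) hκ
  set C3 : ℝ := 2 * C1 * T / m with hC3
  have hC30 : 0 ≤ C3 := by positivity
  refine ⟨C3 + (3 + 3 * (T ^ 3 / 3) * C3 + 3 * C2 * C3) / T, by positivity, ?_⟩
  intro S x b c hS
  set f : ℝ → ℂ := fun t => b * t + c + F S x t with hf
  have hFc := F_cont S x
  have hfc : Continuous f := by
    rw [hf]
    fun_prop
  set J : ℝ := ∫ t in (0 : ℝ)..T, ‖f t‖ ^ 2 with hJ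
  have hJ0 : 0 ≤ J := intervalIntegral.integral_nonneg hT.le fun t _ => by positivity
  have h0S : (0 : ℝ) ∉ S := fun h => h0 (hS 0 h)
  -- the difference
  have hd : ∀ δ t : ℝ, f (t + δ) - 1 * f t = F (insert 0 S)
      (fun w => if w = 0 then b * δ else x w * (cexp (I * (w * δ : ℝ)) - 1)) t := by
    intro δ t
    rw [F_insert h0S, if_pos rfl]
    simp only [hf]
    unfold F
    have e0 : cexp (I * ((0 * t : ℝ) : ℂ)) = 1 := by simp
    have e1 : ∑ w ∈ S, (if w = 0 then b * δ else x w * (cexp (I * (w * δ : ℝ)) - 1)) *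
        cexp (I * (w * t : ℝ)) = ∑ w ∈ S, x w * cexp (I * (w * (t + δ) : ℝ)) -
        ∑ w ∈ S, x w * cexp (I * (w * t : ℝ)) := by
      rw [← Finset.sum_sub_distrib]
      apply Finset.sum_congr rfl
      intro w hw
      have hw0 : w ≠ 0 := fun h => h0S (h ▸ hw)
      rw [if_neg hw0]
      have e2 : cexp (I * (w * (t + δ) : ℝ)) = cexp (I * (w * δ : ℝ)) * cexp (I * (w * t : ℝ)) := by
        rw [← Complex.exp_add]
        congr 1
        push_cast
        ring
      rw [e2]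
      ring
    rw [e0, e1]
    push_cast
    ring
  have h1 : ∀ δ : ℝ, 0 ≤ δ → δ ≤ T / 2 →
      ‖b‖ ^ 2 * δ ^ 2 + ∑ w ∈ S, ‖x w‖ ^ 2 * ‖cexp (I * (w * δ : ℝ)) - 1‖ ^ 2 ≤ 4 * C1 * J := by
    intro δ hδ0 hδ1
    have h2 := H1 (insert 0 S) (fun w => if w = 0 then b * δ else x w * (cexp (I * (w * δ : ℝ)) - 1))
      (by
        intro w hw
        rw [Finset.mem_insert] at hw
        rcases hw with hw | hw
        · exact Or.inl hw
        · exact Or.inr (hS w hw))
    have h3 := int_shift_le f hfc (T / 2) T δ hδ0 (by linarith) (by positivity) (by linarith) 1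
      norm_one
    simp only [hd] at h3
    rw [Finset.sum_insert h0S, if_pos rfl] at h2
    have e1 : ∑ w ∈ S, ‖if w = 0 then b * (δ : ℂ) else x w * (cexp (I * (w * δ : ℝ)) - 1)‖ ^ 2 =
        ∑ w ∈ S, ‖x w‖ ^ 2 * ‖cexp (I * (w * δ : ℝ)) - 1‖ ^ 2 := by
      apply Finset.sum_congr rfl
      intro w hw
      have hw0 : w ≠ 0 := fun h => h0S (h ▸ hw)
      rw [if_neg hw0, norm_mul, mul_pow]
    rw [e1, norm_mul, Complex.norm_real, mul_pow, Real.norm_eq_abs, sq_abs] at h2
    calc _ ≤ _ := h2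
      _ ≤ C1 * (4 * J) := by gcongr
      _ = _ := by ring
  have hwS : ∀ w ∈ S, g0 ≤ |w| := by
    intro w hw
    have hw0 : w ≠ 0 := fun h => h0S (h ▸ hw)
    have := Hg w (Set.mem_insert_of_mem _ (hS w hw)) 0 (Set.mem_insert _ _) hw0
    rwa [sub_zero] at this
  have h2 : m * (‖b‖ ^ 2 + ∑ w ∈ S, ‖x w‖ ^ 2) ≤ 2 * C1 * T * J := by
    have hb3 : ∫ δ in (0 : ℝ)..(T / 2), ‖b‖ ^ 2 * δ ^ 2 = ‖b‖ ^ 2 * ((T / 2) ^ 3 / 3) := by
      rw [intervalIntegral.integral_const_mul, integral_pow]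
      norm_num
    calc m * (‖b‖ ^ 2 + ∑ w ∈ S, ‖x w‖ ^ 2)
        = ‖b‖ ^ 2 * m + ∑ w ∈ S, ‖x w‖ ^ 2 * m := by
          rw [mul_add, Finset.mul_sum]
          congr 1
          · ring
          · apply Finset.sum_congr rfl
            intro w _
            ring
      _ ≤ ‖b‖ ^ 2 * ((T / 2) ^ 3 / 3) + ∑ w ∈ S, ‖x w‖ ^ 2 * ∫ δ in (0 : ℝ)..(T / 2),
            ‖cexp (I * (w * δ : ℝ)) - 1‖ ^ 2 := by
          apply add_le_add
          · gcongr
            exact min_le_left _ _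
          · apply Finset.sum_le_sum
            intro w hw
            gcongr
            exact (min_le_right _ _).trans (H3 w (hwS w hw))
      _ = ∫ δ in (0 : ℝ)..(T / 2), (‖b‖ ^ 2 * δ ^ 2 + ∑ w ∈ S, ‖x w‖ ^ 2 *
            ‖cexp (I * (w * δ : ℝ)) - 1‖ ^ 2) := by
          rw [intervalIntegral.integral_add, hb3, intervalIntegral.integral_finsetSum]
          · congr 1
            apply Finset.sum_congr rfl
            intro w _
            rw [intervalIntegral.integral_const_mul]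
          · intro w _
            apply Continuous.intervalIntegrable
            fun_prop
          · apply Continuous.intervalIntegrable
            fun_prop
          · apply Continuous.intervalIntegrable
            fun_prop
      _ ≤ ∫ δ in (0 : ℝ)..(T / 2), 4 * C1 * J := by
          apply intervalIntegral.integral_mono_on (by linarith)
          · apply Continuous.intervalIntegrable
            fun_prop
          · exact continuous_const.intervalIntegrable _ _
          · intro δ hδ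
            exact h1 δ hδ.1 hδ.2
      _ = 2 * C1 * T * J := by
          rw [intervalIntegral.integral_const, smul_eq_mul]
          ring
  have h3 : ‖b‖ ^ 2 + ∑ w ∈ S, ‖x w‖ ^ 2 ≤ C3 * J := by
    rw [hC3, div_mul_eq_mul_div, le_div_iff₀ hm0]
    linarith
  have hbJ : ‖b‖ ^ 2 ≤ C3 * J := by
    have : 0 ≤ ∑ w ∈ S, ‖x w‖ ^ 2 := Finset.sum_nonneg fun w _ => by positivity
    linarith
  have hxJ : ∑ w ∈ S, ‖x w‖ ^ 2 ≤ C3 * J := by
    have : 0 ≤ ‖b‖ ^ 2 := by positivity
    linarith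
  have h4 : T * ‖c‖ ^ 2 ≤ 3 * J + 3 * (‖b‖ ^ 2 * (T ^ 3 / 3)) + 3 * (C2 * (C3 * J)) := by
    have e1 : T * ‖c‖ ^ 2 = ∫ t in (0 : ℝ)..T, ‖f t - b * t - F S x t‖ ^ 2 := by
      have e2 : ∀ t : ℝ, ‖f t - b * t - F S x t‖ ^ 2 = ‖c‖ ^ 2 := by
        intro t
        simp only [hf]
        congr 2
        ring
      simp only [e2]
      rw [intervalIntegral.integral_const, smul_eq_mul, sub_zero]
    have e3 : ∀ u v w : ℂ, ‖u - v - w‖ ^ 2 ≤ 3 * ‖u‖ ^ 2 + 3 * ‖v‖ ^ 2 + 3 * ‖w‖ ^ 2 := by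
      intro u v w
      have h5 : ‖u - v - w‖ ≤ ‖u‖ + ‖v‖ + ‖w‖ := by
        refine (norm_sub_le _ _).trans ?_
        gcongr
        exact norm_sub_le _ _
      have h6 := norm_nonneg (u - v - w)
      nlinarith [sq_nonneg (‖u‖ - ‖v‖), sq_nonneg (‖u‖ - ‖w‖), sq_nonneg (‖v‖ - ‖w‖),
        norm_nonneg u, norm_nonneg v, norm_nonneg w]
    rw [e1]
    have i1 : IntervalIntegrable (fun t => 3 * ‖f t‖ ^ 2) volume 0 T := by
      apply Continuous.intervalIntegrable
      fun_prop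
    have i2 : IntervalIntegrable (fun t : ℝ => 3 * ‖b * t‖ ^ 2) volume 0 T := by
      apply Continuous.intervalIntegrable
      fun_prop
    have i3 : IntervalIntegrable (fun t => 3 * ‖F S x t‖ ^ 2) volume 0 T := by
      apply Continuous.intervalIntegrable
      fun_prop
    calc ∫ t in (0 : ℝ)..T, ‖f t - b * t - F S x t‖ ^ 2
        ≤ ∫ t in (0 : ℝ)..T, (3 * ‖f t‖ ^ 2 + 3 * ‖b * t‖ ^ 2 + 3 * ‖F S x t‖ ^ 2) := by
          apply intervalIntegral.integral_mono_on hT.le
          · apply Continuous.intervalIntegrable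
            fun_prop
          · apply Continuous.intervalIntegrable
            fun_prop
          · intro t _
            exact e3 _ _ _
      _ = 3 * J + 3 * (‖b‖ ^ 2 * (T ^ 3 / 3)) + 3 * ∫ t in (0 : ℝ)..T, ‖F S x t‖ ^ 2 := by
          rw [intervalIntegral.integral_add (i1.add i2) i3, intervalIntegral.integral_add i1 i2,
            intervalIntegral.integral_const_mul, intervalIntegral.integral_const_mul,
            intervalIntegral.integral_const_mul]
          congr 3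
          have e4 : ∀ t : ℝ, ‖b * t‖ ^ 2 = ‖b‖ ^ 2 * t ^ 2 := by
            intro t
            rw [norm_mul, Complex.norm_real, mul_pow, Real.norm_eq_abs, sq_abs]
          simp only [e4]
          rw [intervalIntegral.integral_const_mul, integral_pow]
          norm_num
      _ ≤ _ := by
          have h5 := H2 S x hS
          have h6 : C2 * ∑ w ∈ S, ‖x w‖ ^ 2 ≤ C2 * (C3 * J) := by gcongr
          linarith
  have h5 : ‖c‖ ^ 2 ≤ (3 + 3 * (T ^ 3 / 3) * C3 + 3 * C2 * C3) / T * J := by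
    rw [div_mul_eq_mul_div, le_div_iff₀ hT]
    have h6 : ‖b‖ ^ 2 * (T ^ 3 / 3) ≤ C3 * J * (T ^ 3 / 3) := by gcongr
    nlinarith
  rw [add_mul]
  linarith

end Pool.Agent.R244.Ing
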