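import Mathlib
import Pool.Agent.R244.Haraux
import Pool.Agent.R244.BeamAlg

/-!
The set of frequencies of the modes on a line with a speed which is not an integer is sparse.
-/

set_option autoImplicit false

namespace Pool.Agent.R244.Beam

open Set Complex
open scoped ComplexConjugate

lemma exists_delta {a : ℝ} (ha : NI a) : ∃ δ : ℝ, 0 < δ ∧ δ ≤ 1 ∧ ∀ n : ℤ, δ ≤ |(n : ℝ) - a| := by
  have h1 : 0 < Int.fract a := by
    have h0 := Int.fract_nonneg a
    rcases eq_or_lt_of_le h0 with h | h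
    · exfalso
      apply ha ⌊a⌋
      have := Int.self_sub_floor a
      linarith
    · exact h
  have h2 := Int.fract_lt_one a
  refine ⟨min (Int.fract a) (1 - Int.fract a), lt_min h1 (by linarith), ?_, fun n => ?_⟩
  · exact (min_le_left _ _).trans h2.le
  · have h3 : a = ⌊a⌋ + Int.fract a := (Int.floor_add_fract a).symm
    rcases le_or_gt n ⌊a⌋ with h | h
    · have h4 : (n : ℝ) ≤ ⌊a⌋ := by exact_mod_cast h
      refine (min_le_left _ _).trans ?_
      rw [abs_sub_comm]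
      refine le_trans ?_ (le_abs_self _)
      linarith
    · have h4 : (⌊a⌋ : ℝ) + 1 ≤ n := by exact_mod_cast h
      refine (min_le_right _ _).trans ?_
      refine le_trans ?_ (le_abs_self _)
      linarith

lemma exists_pos_lower {ι : Type*} (s : Finset ι) (f : ι → ℝ) (h : ∀ i ∈ s, 0 < f i) :
    ∃ ε : ℝ, 0 < ε ∧ ∀ i ∈ s, ε ≤ f i := by
  rcases s.eq_empty_or_nonempty with rfl | hne
  · exact ⟨1, one_pos, by simp⟩
  · obtain ⟨i, hi, hmin⟩ := s.exists_min_image f hne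
    exact ⟨f i, h i hi, hmin⟩

/-- all frequencies on a line -/
def Om (a : ℝ) : Set ℝ := Set.range (om a)

lemma same_sign {a δ : ℝ} (hδ : 0 < δ) (hδ1 : δ ≤ 1) (h : ∀ n : ℤ, δ ≤ |(n : ℝ) - a|) (k l : ℤ)
    (hkl : k ≠ l) : |((k : ℝ) ^ 2 - a * k) - ((l : ℝ) ^ 2 - a * l)| ≥ δ * (|(k : ℝ)| - |a| / 2) ∧
      |((k : ℝ) ^ 2 - a * k) - ((l : ℝ) ^ 2 - a * l)| ≥ δ := by
  have e1 : ((k : ℝ) ^ 2 - a * k) - ((l : ℝ) ^ 2 - a * l) = (k - l) * (((k + l : ℤ) : ℝ) - a) := by
    push_cast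
    ring
  rw [e1, abs_mul]
  have h1 : 1 ≤ |(k : ℝ) - l| := by
    have : (1 : ℤ) ≤ |k - l| := Int.one_le_abs (sub_ne_zero.mpr hkl)
    have h2 : ((1 : ℤ) : ℝ) ≤ ((|k - l| : ℤ) : ℝ) := by exact_mod_cast this
    rw [Int.cast_abs] at h2
    push_cast at h2
    exact h2
  have h2 := h (k + l)
  have h3 : 2 * |(k : ℝ)| - |a| ≤ |(k : ℝ) - l| + |((k + l : ℤ) : ℝ) - a| := by
    have e2 : (2 : ℝ) * k = ((k : ℝ) - l) + (((k + l : ℤ) : ℝ) - a) + a := by
      push_cast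
      ring
    have e3 : 2 * |(k : ℝ)| = |(2 : ℝ) * k| := by
      rw [abs_mul]
      norm_num
    rw [e3, e2]
    have := abs_add_le (((k : ℝ) - l) + (((k + l : ℤ) : ℝ) - a)) a
    have := abs_add_le ((k : ℝ) - l) (((k + l : ℤ) : ℝ) - a)
    linarith
  set p := |(k : ℝ) - l|
  set q := |((k + l : ℤ) : ℝ) - a|
  constructor
  · rcases le_total p q with h4 | h4
    · have h5 : |(k : ℝ)| - |a| / 2 ≤ q := by linarith
      have h6 : δ * (|(k : ℝ)| - |a| / 2) ≤ δ * q := by gcongr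
      nlinarith
    · have h5 : |(k : ℝ)| - |a| / 2 ≤ p := by linarith
      have h6 : δ * (|(k : ℝ)| - |a| / 2) ≤ δ * p := by gcongr
      nlinarith
  · nlinarith

lemma om_false' (a : ℝ) (k : ℤ) : om a (false, k) = -((k : ℝ) ^ 2 - (-a) * k) := by
  rw [om_false]
  ring

lemma NI_neg {a : ℝ} (ha : NI a) : NI (-a) := by
  intro n hn
  apply ha (-n)
  push_cast
  linarith

lemma opp_lower (a : ℝ) (k l : ℤ) : om a (true, k) - om a (false, l) ≥
    |(k : ℝ)| * (|(k : ℝ)| - |a|) + |(l : ℝ)| * (|(l : ℝ)| - |a|) := by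
  rw [om_true, om_false]
  have h1 : a * k ≤ |a| * |(k : ℝ)| := by
    rw [← abs_mul]
    exact le_abs_self _
  have h2 : -(a * l) ≤ |a| * |(l : ℝ)| := by
    rw [← abs_mul]
    exact neg_le_abs _
  have h3 : |(k : ℝ)| * |(k : ℝ)| = (k : ℝ) ^ 2 := by rw [← sq, sq_abs]
  have h4 : |(l : ℝ)| * |(l : ℝ)| = (l : ℝ) ^ 2 := by rw [← sq, sq_abs]
  nlinarith

/-- sparseness -/
lemma om_sparse {a : ℝ} (ha : NI a) (g : ℝ) : ∃ A : Finset ℝ, ∀ x ∈ Om a, ∀ y ∈ Om a, x ∉ A →
    y ∉ A → x ≠ y → g ≤ |x - y| := by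
  classical
  obtain ⟨δ, hδ, hδ1, hd⟩ := exists_delta ha
  obtain ⟨δ', hδ', hδ1', hd'⟩ := exists_delta (NI_neg ha)
  obtain ⟨B, hB⟩ := exists_nat_gt (|g| / δ + |g| / δ' + |a| + 1 + |g|)
  refine ⟨(Finset.univ ×ˢ Finset.Icc (-(B : ℤ)) B).image (om a), ?_⟩
  rintro x ⟨⟨σ, k⟩, rfl⟩ y ⟨⟨τ, l⟩, rfl⟩ hx hy hxy
  have hg := abs_nonneg g
  have ha0 := abs_nonneg a
  have hgd : 0 ≤ |g| / δ := by positivity
  have hgd' : 0 ≤ |g| / δ' := by positivity
  have big : ∀ (σ : Bool) (k : ℤ), om a (σ, k) ∉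
      (Finset.univ ×ˢ Finset.Icc (-(B : ℤ)) B).image (om a) → (B : ℝ) < |(k : ℝ)| := by
    intro σ k h
    by_contra hcon
    push Not at hcon
    apply h
    refine Finset.mem_image_of_mem _ ?_
    rw [Finset.mem_product, Finset.mem_Icc]
    refine ⟨Finset.mem_univ _, ?_⟩
    rw [abs_le] at hcon
    constructor
    · exact_mod_cast hcon.1
    · exact_mod_cast hcon.2
  have hk := big σ k hx
  have hl := big τ l hy
  have hgle := le_abs_self g
  have opp : ∀ k l : ℤ, (B : ℝ) < |(k : ℝ)| → (B : ℝ) < |(l : ℝ)| →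
      g ≤ om a (true, k) - om a (false, l) := by
    intro k l hk hl
    have h1 := opp_lower a k l
    have h2 : |(k : ℝ)| * (|(k : ℝ)| - |a|) ≥ |g| := by
      have h3 : |(k : ℝ)| - |a| ≥ 1 := by linarith
      have h4 : |(k : ℝ)| ≥ |g| := by linarith
      nlinarith
    have h2' : |(l : ℝ)| * (|(l : ℝ)| - |a|) ≥ 0 := by
      have h3 : |(l : ℝ)| - |a| ≥ 1 := by linarith
      have h4 : |(l : ℝ)| ≥ 0 := abs_nonneg _
      nlinarith
    linarith
  cases σ <;> cases τ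
  · -- false, false
    have hkl : k ≠ l := by
      rintro rfl
      exact hxy rfl
    have h1 := (same_sign hδ' hδ1' hd' k l hkl).1
    rw [om_false', om_false']
    have e1 : |-((k : ℝ) ^ 2 - (-a) * k) - -((l : ℝ) ^ 2 - (-a) * l)| =
        |((k : ℝ) ^ 2 - (-a) * k) - ((l : ℝ) ^ 2 - (-a) * l)| := by
      rw [← abs_neg]
      congr 1
      ring
    rw [e1]
    refine le_trans ?_ h1
    rw [abs_neg]
    have h2 : |g| / δ' ≤ |(k : ℝ)| - |a| / 2 := by linarith
    rw [div_le_iff₀ hδ'] at h2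
    linarith
  · -- false, true
    have h1 := opp l k hl hk
    rw [abs_sub_comm]
    exact h1.trans (le_abs_self _)
  · exact (opp k l hk hl).trans (le_abs_self _)
  · have hkl : k ≠ l := by
      rintro rfl
      exact hxy rfl
    have h1 := (same_sign hδ hδ1 hd k l hkl).1
    rw [om_true, om_true]
    refine le_trans ?_ h1
    have h2 : |g| / δ ≤ |(k : ℝ)| - |a| / 2 := by linarith
    rw [div_le_iff₀ hδ] at h2
    linarith

/-- uniform discreteness -/
lemma om_ud {a : ℝ} (ha : NI a) : Ing.UD (Om a) := by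
  classical
  obtain ⟨δ, hδ, hδ1, hd⟩ := exists_delta ha
  obtain ⟨δ', hδ', hδ1', hd'⟩ := exists_delta (NI_neg ha)
  obtain ⟨B, hB⟩ := exists_nat_gt (2 * |a| + 1 + a ^ 2)
  have ha0 := abs_nonneg a
  have ha2 : 0 ≤ a ^ 2 := by positivity
  set Fs : Finset (ℤ × ℤ) := (Finset.Icc (-(B : ℤ)) B ×ˢ Finset.Icc (-(B : ℤ)) B).filter
    (fun p => om a (true, p.1) ≠ om a (false, p.2)) with hFs
  obtain ⟨ε, hε, hmin⟩ := exists_pos_lower Fs
    (fun p => |om a (true, p.1) - om a (false, p.2)|) (by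
      intro p hp
      rw [hFs, Finset.mem_filter] at hp
      exact abs_pos.mpr (sub_ne_zero.mpr hp.2))
  have hquad : ∀ k : ℤ, |(k : ℝ)| * (|(k : ℝ)| - |a|) ≥ -(a ^ 2) / 4 := by
    intro k
    rw [← sq_abs a]
    nlinarith [sq_nonneg (2 * |(k : ℝ)| - |a|)]
  have hbig : ∀ k : ℤ, (B : ℝ) < |(k : ℝ)| → |(k : ℝ)| * (|(k : ℝ)| - |a|) ≥ 1 + a ^ 2 / 4 := by
    intro k hk
    have h1 : |(k : ℝ)| - |a| ≥ 1 := by linarith
    have h2 : |(k : ℝ)| ≥ 1 + a ^ 2 := by linarith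
    nlinarith
  have opp : ∀ k l : ℤ, om a (true, k) ≠ om a (false, l) →
      min ε 1 ≤ |om a (true, k) - om a (false, l)| := by
    intro k l hne
    by_cases hk : (B : ℝ) < |(k : ℝ)|
    · have h1 := opp_lower a k l
      have h2 := hquad l
      have h3 := hbig k hk
      refine (min_le_right _ _).trans (le_trans ?_ (le_abs_self _))
      linarith
    · by_cases hl : (B : ℝ) < |(l : ℝ)|
      · have h1 := opp_lower a k l
        have h2 := hquad k
        have h3 := hbig l hl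
        refine (min_le_right _ _).trans (le_trans ?_ (le_abs_self _))
        linarith
      · push Not at hk hl
        rw [abs_le] at hk hl
        refine (min_le_left _ _).trans (hmin (k, l) ?_)
        rw [hFs, Finset.mem_filter, Finset.mem_product, Finset.mem_Icc, Finset.mem_Icc]
        refine ⟨⟨⟨?_, ?_⟩, ⟨?_, ?_⟩⟩, hne⟩
        · exact_mod_cast hk.1
        · exact_mod_cast hk.2
        · exact_mod_cast hl.1
        · exact_mod_cast hl.2
  refine ⟨min (min ε 1) (min δ δ'), lt_min (lt_min hε one_pos) (lt_min hδ hδ'), ?_⟩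
  rintro x ⟨⟨σ, k⟩, rfl⟩ y ⟨⟨τ, l⟩, rfl⟩ hxy
  cases σ <;> cases τ
  · have hkl : k ≠ l := by
      rintro rfl
      exact hxy rfl
    have h1 := (same_sign hδ' hδ1' hd' k l hkl).2
    rw [om_false', om_false']
    have e1 : |-((k : ℝ) ^ 2 - (-a) * k) - -((l : ℝ) ^ 2 - (-a) * l)| =
        |((k : ℝ) ^ 2 - (-a) * k) - ((l : ℝ) ^ 2 - (-a) * l)| := by
      rw [← abs_neg]
      congr 1
      ring
    rw [e1]
    exact ((min_le_right _ _).trans (min_le_right _ _)).trans h1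
  · rw [abs_sub_comm]
    exact (min_le_left _ _).trans (opp l k (Ne.symm hxy))
  · exact (min_le_left _ _).trans (opp k l hxy)
  · have hkl : k ≠ l := by
      rintro rfl
      exact hxy rfl
    have h1 := (same_sign hδ hδ1 hd k l hkl).2
    rw [om_true, om_true]
    exact ((min_le_right _ _).trans (min_le_left _ _)).trans h1

/-- the frequencies of the modes with `k ≠ 0` -/
def Om' (a : ℝ) : Set ℝ := om a '' {μ | μ.2 ≠ 0}

lemma insert_Om' (a : ℝ) : insert 0 (Om' a) = Om a := by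
  ext w
  constructor
  · rintro (rfl | ⟨μ, _, rfl⟩)
    · exact ⟨(true, 0), by simp [om_true]⟩
    · exact ⟨μ, rfl⟩
  · rintro ⟨⟨σ, k⟩, rfl⟩
    by_cases hk : k = 0
    · left
      subst hk
      cases σ <;> simp [om_true, om_false]
    · right
      exact ⟨(σ, k), hk, rfl⟩

lemma zero_notMem {a : ℝ} (ha : NI a) : (0 : ℝ) ∉ Om' a := by
  rintro ⟨⟨σ, k⟩, hk, h⟩
  have hk' : (k : ℝ) ≠ 0 := by exact_mod_cast (show k ≠ 0 from hk)
  cases σ
  · rw [om_false] at h
    have h1 : (k : ℝ) * (k + a) = 0 := by linear_combination -h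
    rcases mul_eq_zero.mp h1 with h2 | h2
    · exact hk' h2
    · apply ha (-k)
      push_cast
      linarith
  · rw [om_true] at h
    have h1 : (k : ℝ) * (k - a) = 0 := by linear_combination h
    rcases mul_eq_zero.mp h1 with h2 | h2
    · exact hk' h2
    · apply ha k
      linarith

/-- **One line**: the grouped coefficients are controlled. -/
lemma one_line {a : ℝ} (ha : NI a) (T : ℝ) (hT : 0 < T) (γ : Bool × ℤ → ℂ) :
    ∃ C : ℝ, 0 ≤ C ∧ ∀ (A : Finset (Bool × ℤ)) (c : Bool × ℤ → ℂ) (b d : ℂ), (∀ μ ∈ A, μ.2 ≠ 0) →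
      ‖b‖ ^ 2 + ‖d‖ ^ 2 + ∑ w ∈ A.image (om a), ‖gs a A γ c w‖ ^ 2 ≤
        C * ∫ t in (0 : ℝ)..T, ‖b * t + d + ∑ μ ∈ A, γ μ * c μ * cexp (I * (om a μ * t : ℝ))‖ ^ 2 := by
  classical
  obtain ⟨C, hC, H⟩ := Ing.obs_linear (Ω := Om' a) (by rw [insert_Om']; exact om_ud ha)
    (by
      intro g
      obtain ⟨A, hA⟩ := om_sparse ha g
      refine ⟨A, fun x hx y hy => hA x ?_ y ?_⟩
      · rw [← insert_Om']
        exact Set.mem_insert_of_mem _ hx
      · rw [← insert_Om']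
        exact Set.mem_insert_of_mem _ hy) (zero_notMem ha) T hT
  refine ⟨C, hC, fun A c b d hA => ?_⟩
  have h1 := H (A.image (om a)) (gs a A γ c) b d (by
    intro w hw
    rw [Finset.mem_image] at hw
    obtain ⟨μ, hμ, rfl⟩ := hw
    exact ⟨μ, hA μ hμ, rfl⟩)
  have h2 : ∀ t : ℝ, Ing.F (A.image (om a)) (gs a A γ c) t =
      ∑ μ ∈ A, γ μ * c μ * cexp (I * (om a μ * t : ℝ)) := by
    intro t
    unfold Ing.F gs
    rw [← Finset.sum_fiberwise_of_maps_to (s := A) (t := A.image (om a)) (g := om a)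
      (fun μ hμ => Finset.mem_image_of_mem _ hμ)]
    apply Finset.sum_congr rfl
    intro w _
    rw [Finset.sum_mul]
    apply Finset.sum_congr rfl
    intro μ hμ
    rw [(Finset.mem_filter.mp hμ).2]
  simp only [h2] at h1
  exact h1

end Pool.Agent.R244.Beam
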