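import Mathlib

/-!
Polynomials squeezed between the square root and one, and spectra of trigonometric polynomials.
-/

set_option autoImplicit false

namespace Pool.Agent.R244.Lac

open MeasureTheory AddCircle Polynomial

/-- the iteration `q ↦ q - (q² - X)/2` -/
noncomputable def qit : ℕ → ℝ[X]
  | 0 => 1
  | m + 1 => qit m - C (1 / 2) * ((qit m) ^ 2 - X)

lemma qit_eval (m : ℕ) (t : ℝ) : (qit (m + 1)).eval t =
    (qit m).eval t - 1 / 2 * (((qit m).eval t) ^ 2 - t) := by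
  simp [qit]

lemma qit_bounds (m : ℕ) (t : ℝ) (h0 : 0 ≤ t) (h1 : t ≤ 1) :
    Real.sqrt t ≤ (qit m).eval t ∧ (qit m).eval t ≤ 1 := by
  have hs0 := Real.sqrt_nonneg t
  have hs2 := Real.sq_sqrt h0
  have hs1 : Real.sqrt t ≤ 1 := Real.sqrt_le_one.mpr h1
  induction m with
  | zero => simpa [qit] using hs1
  | succ m ih =>
    rw [qit_eval]
    obtain ⟨ha, hb⟩ := ih
    set a := (qit m).eval t
    constructor
    · nlinarith [mul_nonneg (sub_nonneg.mpr ha) (by linarith : 0 ≤ 2 - (a + Real.sqrt t))]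
    · nlinarith

lemma qit_zero (m : ℕ) : (qit m).eval 0 ≤ 2 / (m + 2) := by
  induction m with
  | zero => simp [qit]
  | succ m ih =>
    rw [qit_eval]
    have hb := qit_bounds m 0 le_rfl zero_le_one
    rw [Real.sqrt_zero] at hb
    set x := (qit m).eval 0
    have hm : (0 : ℝ) ≤ m := Nat.cast_nonneg m
    have h1 : x - 1 / 2 * x ^ 2 ≤ 2 / ((m : ℝ) + 2) - 1 / 2 * (2 / ((m : ℝ) + 2)) ^ 2 := by
      have h2 : 2 / ((m : ℝ) + 2) ≤ 1 := by
        rw [div_le_one (by positivity)]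
        linarith
      nlinarith [mul_nonneg (sub_nonneg.mpr ih) (by linarith : 0 ≤ 2 - (2 / ((m : ℝ) + 2) + x))]
    have h3 : 2 / ((m : ℝ) + 2) - 1 / 2 * (2 / ((m : ℝ) + 2)) ^ 2 ≤ 2 / (((m + 1 : ℕ) : ℝ) + 2) := by
      push_cast
      have : 2 / ((m : ℝ) + 2) - 1 / 2 * (2 / ((m : ℝ) + 2)) ^ 2 =
          2 * (m + 1) / ((m : ℝ) + 2) ^ 2 := by
        field_simp
        ring
      rw [this, div_le_div_iff₀ (by positivity) (by positivity)]
      nlinarith
    rw [sub_zero]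
    exact h1.trans h3

/-- a polynomial is Lipschitz at `0` on `[0,1]` -/
lemma poly_lip (q : ℝ[X]) : ∃ C : ℝ, 0 ≤ C ∧ ∀ t : ℝ, 0 ≤ t → t ≤ 1 → q.eval t ≤ q.eval 0 + C * t := by
  -- `q = q(0) + X * p`
  set p := q.divX with hp
  have hq : q = p * X + C (q.coeff 0) := (divX_mul_X_add q).symm
  obtain ⟨C, hC⟩ := isCompact_Icc.exists_bound_of_continuousOn (f := fun t => p.eval t)
    (s := Set.Icc (0 : ℝ) 1) p.continuous.continuousOn
  have hC0 : 0 ≤ C := (norm_nonneg _).trans (hC 0 ⟨le_rfl, zero_le_one⟩)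
  refine ⟨C, hC0, fun t h0 h1 => ?_⟩
  have e : q.eval t = q.eval 0 + p.eval t * t := by
    conv_lhs => rw [hq]
    conv_rhs => rw [hq]
    simp
    ring
  rw [e]
  have := (Real.norm_eq_abs _ ▸ hC t ⟨h0, h1⟩ : |p.eval t| ≤ C)
  have h2 := (le_abs_self (p.eval t)).trans this
  gcongr

/-- the choice of the polynomial and of the number of frequencies in a block -/
lemma exists_qn (ε : ℝ) (hε : 0 < ε) : ∃ (q : ℝ[X]) (n : ℕ) (K : ℝ), 0 < n ∧ 0 ≤ K ∧
    (∀ t : ℝ, 0 ≤ t → t ≤ 1 → Real.sqrt t ≤ q.eval t ∧ q.eval t ≤ 1 ∧ q.eval t ≤ ε + K * t) ∧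
    K / n ≤ ε := by
  obtain ⟨m, hm⟩ := exists_nat_gt (2 / ε)
  obtain ⟨K, hK0, hK⟩ := poly_lip (qit m)
  obtain ⟨n, hn⟩ := exists_nat_gt (K / ε)
  refine ⟨qit m, n + 1, K, Nat.succ_pos n, hK0, fun t h0 h1 => ?_, ?_⟩
  · obtain ⟨ha, hb⟩ := qit_bounds m t h0 h1
    refine ⟨ha, hb, (hK t h0 h1).trans ?_⟩
    have h2 := qit_zero m
    have h3 : 2 / ((m : ℝ) + 2) ≤ ε := by
      rw [div_le_iff₀ (by positivity)]
      rw [div_lt_iff₀ hε] at hm
      nlinarith
    linarith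
  · rw [div_le_iff₀ (by positivity)]
    rw [div_lt_iff₀ hε] at hn
    push_cast
    nlinarith

/-- the circle -/
abbrev TT := AddCircle (1 : ℝ)

instance fact1 : Fact ((0 : ℝ) < 1) := ⟨one_pos⟩

lemma int_fourier (n : ℤ) : ∫ t : TT, (fourier n t : ℂ) ∂haarAddCircle = if n = 0 then 1 else 0 := by
  split_ifs with h
  · subst h
    simp
  · exact integral_eq_zero_of_add_right_eq_neg (μ := haarAddCircle)
      (fourier_add_half_inv_index h one_pos)

lemma cm_integrable (f : C(TT, ℂ)) : Integrable f (haarAddCircle : Measure TT) :=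
  f.continuous.integrable_of_hasCompactSupport (HasCompactSupport.of_compactSpace f)

/-- the Fourier coefficient as a linear map -/
noncomputable def cf (n : ℤ) : C(TT, ℂ) →ₗ[ℂ] ℂ where
  toFun f := fourierCoeff f n
  map_add' := by
    intro f g
    exact congrFun (fourierCoeff.add (cm_integrable f) (cm_integrable g)) n
  map_smul' := by
    intro c f
    exact fourierCoeff.const_smul f c n

lemma cf_apply (n : ℤ) (f : C(TT, ℂ)) : cf n f = fourierCoeff f n := rfl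

lemma cf_eq (n : ℤ) (f : C(TT, ℂ)) : cf n f = ∫ t : TT, (fourier (-n) t : ℂ) * f t ∂haarAddCircle := rfl

lemma cf_fourier_mul (m n : ℤ) (w : C(TT, ℂ)) : cf n (fourier m * w) = cf (n - m) w := by
  rw [cf_eq, cf_eq]
  congr 1
  ext t
  rw [ContinuousMap.mul_apply, show -(n - m) = -n + m by ring, fourier_add]
  ring

lemma cf_fourier (m n : ℤ) : cf n (fourier m : C(TT, ℂ)) = if m = n then 1 else 0 := by
  rw [cf_eq]
  have : ∀ t : TT, (fourier (-n) t : ℂ) * fourier m t = fourier (-n + m) t := by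
    intro t
    rw [fourier_add]
  simp only [this]
  rw [int_fourier]
  congr 1
  rw [eq_iff_iff]
  constructor <;> intro h <;> linarith

/-- trigonometric polynomials with spectrum in `S` -/
noncomputable def Sp (S : Set ℤ) : Submodule ℂ C(TT, ℂ) := Submodule.span ℂ (fourier '' S)

lemma fourier_mem_Sp {S : Set ℤ} {n : ℤ} (h : n ∈ S) : (fourier n : C(TT, ℂ)) ∈ Sp S :=
  Submodule.subset_span ⟨n, h, rfl⟩

lemma Sp_mono {S T : Set ℤ} (h : S ⊆ T) : Sp S ≤ Sp T := Submodule.span_mono (Set.image_mono h)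

lemma cf_Sp {S : Set ℤ} {w : C(TT, ℂ)} (hw : w ∈ Sp S) {n : ℤ} (hn : n ∉ S) : cf n w = 0 := by
  have h : Sp S ≤ LinearMap.ker (cf n) := by
    unfold Sp
    rw [Submodule.span_le]
    rintro _ ⟨m, hm, rfl⟩
    rw [SetLike.mem_coe, LinearMap.mem_ker, cf_fourier, if_neg]
    rintro rfl
    exact hn hm
  exact h hw

open Pointwise in
lemma Sp_mul {S T : Set ℤ} {f g : C(TT, ℂ)} (hf : f ∈ Sp S) (hg : g ∈ Sp T) : f * g ∈ Sp (S + T) := by
  have h := Submodule.mul_mem_mul hf hg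
  unfold Sp at h
  rw [Submodule.span_mul_span] at h
  refine Submodule.span_mono ?_ h
  rintro _ ⟨_, ⟨m, hm, rfl⟩, _, ⟨n, hn, rfl⟩, rfl⟩
  refine ⟨m + n, Set.add_mem_add hm hn, ?_⟩
  ext t
  rw [fourier_add, ContinuousMap.mul_apply]

lemma Sp_mul_Icc {a b c d : ℤ} {f g : C(TT, ℂ)} (hf : f ∈ Sp (Set.Icc a b)) (hg : g ∈ Sp (Set.Icc c d)) :
    f * g ∈ Sp (Set.Icc (a + c) (b + d)) := by
  refine Sp_mono ?_ (Sp_mul hf hg)
  rintro _ ⟨x, hx, y, hy, rfl⟩
  exact ⟨add_le_add hx.1 hy.1, add_le_add hx.2 hy.2⟩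

lemma one_mem_Sp {S : Set ℤ} (h : (0 : ℤ) ∈ S) : (1 : C(TT, ℂ)) ∈ Sp S := by
  have : (1 : C(TT, ℂ)) = fourier 0 := by
    ext t
    simp
  rw [this]
  exact fourier_mem_Sp h

lemma pow_mem_Sp {M : ℤ} {f : C(TT, ℂ)} (hf : f ∈ Sp (Set.Icc (-M) M)) (i : ℕ) :
    f ^ i ∈ Sp (Set.Icc (-(i * M)) (i * M)) := by
  induction i with
  | zero =>
    rw [pow_zero]
    apply one_mem_Sp
    simp
  | succ i ih =>
    rw [pow_succ]
    have := Sp_mul_Icc ih hf
    refine Sp_mono ?_ this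
    intro x hx
    push_cast
    rw [Set.mem_Icc] at hx ⊢
    constructor <;> nlinarith [hx.1, hx.2]

lemma aeval_mem_Sp {M : ℤ} (hM : 0 ≤ M) {f : C(TT, ℂ)} (hf : f ∈ Sp (Set.Icc (-M) M)) (p : ℂ[X]) :
    Polynomial.aeval f p ∈ Sp (Set.Icc (-(p.natDegree * M)) (p.natDegree * M)) := by
  rw [Polynomial.aeval_eq_sum_range]
  apply Submodule.sum_mem
  intro i hi
  apply Submodule.smul_mem
  refine Sp_mono ?_ (pow_mem_Sp hf i)
  have h : (i : ℤ) * M ≤ p.natDegree * M := by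
    apply mul_le_mul_of_nonneg_right _ hM
    exact_mod_cast Nat.lt_succ_iff.mp (Finset.mem_range.mp hi)
  apply Set.Icc_subset_Icc <;> linarith

lemma star_mem_Sp {a b : ℤ} {f : C(TT, ℂ)} (hf : f ∈ Sp (Set.Icc a b)) :
    star f ∈ Sp (Set.Icc (-b) (-a)) := by
  unfold Sp at hf
  induction hf using Submodule.span_induction with
  | mem x hx =>
    obtain ⟨n, hn, rfl⟩ := hx
    have : star (fourier n : C(TT, ℂ)) = fourier (-n) := by
      ext t
      rw [fourier_neg]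
      rfl
    rw [this]
    apply fourier_mem_Sp
    rw [Set.mem_Icc] at hn ⊢
    constructor <;> linarith [hn.1, hn.2]
  | zero => simp
  | add x y _ _ hx hy =>
    rw [star_add]
    exact Submodule.add_mem _ hx hy
  | smul c x _ hx =>
    rw [star_smul]
    exact Submodule.smul_mem _ _ hx

end Pool.Agent.R244.Lac
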