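import Mathlib
import Pool.Agent.R244.LacQ

/-!
The counterexample.
-/

set_option autoImplicit false

namespace Pool.Agent.R244.Lac

open MeasureTheory AddCircle Polynomial

/-- the parameters of the construction -/
structure Par where
  /-- polynomials -/
  q : ℕ → ℝ[X]
  /-- number of frequencies -/
  n : ℕ → ℕ
  /-- constants -/
  K : ℕ → ℝ
  hn : ∀ s, 0 < n s
  hK : ∀ s, 0 ≤ K s
  hq : ∀ s, ∀ t : ℝ, 0 ≤ t → t ≤ 1 → Real.sqrt t ≤ (q s).eval t ∧ (q s).eval t ≤ 1 ∧
    (q s).eval t ≤ (1 / 2) ^ (s + 3) + K s * t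
  hKn : ∀ s, K s / n s ≤ (1 / 2) ^ (s + 3)

lemma exists_par : Nonempty Par := by
  choose q n K h1 h2 h3 h4 using fun s : ℕ => exists_qn ((1 / 2) ^ (s + 3)) (by positivity)
  exact ⟨⟨q, n, K, h1, h2, h3, h4⟩⟩

namespace Par

variable (P : Par)

/-- the block boundaries -/
noncomputable def L : ℕ → ℕ
  | 0 => 0
  | s + 1 => L s + P.n s + (P.q s).natDegree + 12

lemma L_succ (s : ℕ) : P.L (s + 1) = P.L s + P.n s + (P.q s).natDegree + 12 := rfl

lemma L_strictMono : StrictMono P.L := by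
  apply strictMono_nat_of_lt_succ
  intro s
  rw [L_succ]
  omega

/-- the degree bounds -/
noncomputable def D : ℕ → ℕ
  | 0 => 0
  | s + 1 => D s + (P.q s).natDegree * 2 ^ (P.L s + P.n s)

lemma D_bound (s : ℕ) : P.D s * 2 ^ 11 ≤ 2 ^ P.L s := by
  induction s with
  | zero => simp [D]
  | succ s ih =>
    rw [L_succ]
    set d := (P.q s).natDegree
    have h1 : P.D (s + 1) = P.D s + d * 2 ^ (P.L s + P.n s) := rfl
    have h2 : d ≤ 2 ^ d := Nat.lt_two_pow_self.le
    have h3 : (2 : ℕ) ^ P.L s ≤ 2 ^ (P.L s + P.n s + d + 11) :=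
      Nat.pow_le_pow_right (by norm_num) (by omega)
    have h4 : d * 2 ^ (P.L s + P.n s) * 2 ^ 11 ≤ 2 ^ (P.L s + P.n s + d + 11) := by
      calc d * 2 ^ (P.L s + P.n s) * 2 ^ 11 ≤ 2 ^ d * 2 ^ (P.L s + P.n s) * 2 ^ 11 := by gcongr
        _ = 2 ^ (P.L s + P.n s + d + 11) := by ring
    have h5 : (2 : ℕ) ^ (P.L s + P.n s + d + 12) = 2 * 2 ^ (P.L s + P.n s + d + 11) := by ring
    rw [h1, h5, add_mul]
    linarith

/-- the lacunary averages -/
noncomputable def u (s : ℕ) : C(TT, ℂ) :=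
  (1 / (P.n s : ℂ)) • ∑ i ∈ Finset.range (P.n s), fourier ((2 : ℤ) ^ (P.L s + i))

lemma u_norm_le (s : ℕ) (x : TT) : ‖P.u s x‖ ≤ 1 := by
  have hn : (0 : ℝ) < P.n s := by exact_mod_cast P.hn s
  have h1 : P.u s x = (1 / (P.n s : ℂ)) * ∑ i ∈ Finset.range (P.n s),
      fourier ((2 : ℤ) ^ (P.L s + i)) x := by
    unfold u
    rw [ContinuousMap.smul_apply, ContinuousMap.sum_apply, smul_eq_mul]
  rw [h1, norm_mul]
  have h2 : ‖∑ i ∈ Finset.range (P.n s), (fourier ((2 : ℤ) ^ (P.L s + i)) x : ℂ)‖ ≤ P.n s := by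
    refine (norm_sum_le _ _).trans ?_
    have : ∀ i ∈ Finset.range (P.n s), ‖(fourier ((2 : ℤ) ^ (P.L s + i)) x : ℂ)‖ ≤ 1 := by
      intro i _
      have := ContinuousMap.norm_coe_le_norm (fourier ((2 : ℤ) ^ (P.L s + i)) : C(TT, ℂ)) x
      rwa [fourier_norm] at this
    refine (Finset.sum_le_sum this).trans ?_
    simp
  have h3 : ‖(1 / (P.n s : ℂ))‖ = 1 / P.n s := by simp
  rw [h3]
  calc (1 / (P.n s : ℝ)) * ‖∑ i ∈ Finset.range (P.n s), (fourier ((2 : ℤ) ^ (P.L s + i)) x : ℂ)‖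
      ≤ (1 / (P.n s : ℝ)) * P.n s := by gcongr
    _ = 1 := by field_simp

lemma u_mem (s : ℕ) : P.u s ∈ Sp (Set.Icc 0 (2 ^ (P.L s + P.n s))) := by
  unfold u
  apply Submodule.smul_mem
  apply Submodule.sum_mem
  intro i hi
  apply fourier_mem_Sp
  rw [Set.mem_Icc]
  constructor
  · positivity
  · apply pow_le_pow_right₀ (by norm_num)
    have := Finset.mem_range.mp hi
    omega

/-- the squeezing functions -/
noncomputable def v (s : ℕ) : C(TT, ℂ) :=
  Polynomial.aeval (P.u s * star (P.u s)) ((P.q s).map (algebraMap ℝ ℂ))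

/-- their real values -/
noncomputable def vR (s : ℕ) (x : TT) : ℝ := (P.q s).eval (‖P.u s x‖ ^ 2)

lemma v_apply (s : ℕ) (x : TT) : P.v s x = (P.vR s x : ℂ) := by
  unfold v vR
  rw [Polynomial.aeval_continuousMap_apply]
  have h : (P.u s * star (P.u s)) x = ((‖P.u s x‖ ^ 2 : ℝ) : ℂ) := by
    rw [ContinuousMap.mul_apply, ContinuousMap.star_apply, ← Complex.normSq_eq_norm_sq,
      Complex.normSq_eq_conj_mul_self, mul_comm]
    rfl
  rw [h, Polynomial.eval_map_algebraMap]
  have h2 := Polynomial.aeval_algebraMap_apply ℂ (‖P.u s x‖ ^ 2) (P.q s)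
  rw [Polynomial.coe_aeval_eq_eval] at h2
  exact h2

lemma v_mem (s : ℕ) : P.v s ∈ Sp (Set.Icc (-((P.q s).natDegree * 2 ^ (P.L s + P.n s)))
    ((P.q s).natDegree * 2 ^ (P.L s + P.n s))) := by
  have h1 := P.u_mem s
  have h2 := star_mem_Sp h1
  have h3 := Sp_mul_Icc h1 h2
  rw [zero_add, neg_zero, add_zero] at h3
  have h4 := aeval_mem_Sp (by positivity) h3 ((P.q s).map (algebraMap ℝ ℂ))
  rw [Polynomial.natDegree_map] at h4
  exact h4

lemma vR_bounds (s : ℕ) (x : TT) : ‖P.u s x‖ ≤ P.vR s x ∧ P.vR s x ≤ 1 ∧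
    P.vR s x ≤ (1 / 2) ^ (s + 3) + P.K s * ‖P.u s x‖ ^ 2 := by
  have h0 := norm_nonneg (P.u s x)
  have h1 := P.u_norm_le s x
  have h := P.hq s (‖P.u s x‖ ^ 2) (by positivity) (by nlinarith)
  rw [Real.sqrt_sq h0] at h
  exact h

/-- the products -/
noncomputable def w (s : ℕ) : C(TT, ℂ) := ∏ j ∈ Finset.range s, (1 - P.v j)

/-- their real values -/
noncomputable def wR (s : ℕ) (x : TT) : ℝ := ∏ j ∈ Finset.range s, (1 - P.vR j x)

lemma w_apply (s : ℕ) (x : TT) : P.w s x = (P.wR s x : ℂ) := by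
  unfold w wR
  rw [ContinuousMap.prod_apply]
  push_cast
  apply Finset.prod_congr rfl
  intro j _
  rw [Pi.sub_apply, Pi.one_apply, v_apply]

lemma w_mem (s : ℕ) : P.w s ∈ Sp (Set.Icc (-(P.D s : ℤ)) (P.D s)) := by
  induction s with
  | zero =>
    unfold w
    rw [Finset.range_zero, Finset.prod_empty]
    apply one_mem_Sp
    simp
  | succ s ih =>
    unfold w at ih ⊢
    rw [Finset.prod_range_succ]
    have h1 : (1 - P.v s) ∈ Sp (Set.Icc (-((P.q s).natDegree * 2 ^ (P.L s + P.n s)))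
        ((P.q s).natDegree * 2 ^ (P.L s + P.n s))) := by
      apply Submodule.sub_mem _ _ (P.v_mem s)
      apply one_mem_Sp
      rw [Set.mem_Icc]
      constructor
      · have : (0 : ℤ) ≤ (P.q s).natDegree * 2 ^ (P.L s + P.n s) := by positivity
        linarith
      · positivity
    have h2 := Sp_mul_Icc ih h1
    refine Sp_mono ?_ h2
    have h3 : ((P.D (s + 1) : ℕ) : ℤ) = P.D s + (P.q s).natDegree * 2 ^ (P.L s + P.n s) := by
      have : P.D (s + 1) = P.D s + (P.q s).natDegree * 2 ^ (P.L s + P.n s) := rfl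
      rw [this]
      push_cast
      ring
    rw [h3]
    apply Set.Icc_subset_Icc
    · linarith
    · exact le_rfl

lemma wR_bounds (s : ℕ) (x : TT) : 0 ≤ P.wR s x ∧ P.wR s x ≤ 1 := by
  unfold wR
  have h : ∀ j ∈ Finset.range s, 0 ≤ 1 - P.vR j x ∧ 1 - P.vR j x ≤ 1 := by
    intro j _
    have h1 := P.vR_bounds j x
    have h0 := norm_nonneg (P.u j x)
    constructor <;> linarith [h1.1, h1.2.1]
  exact ⟨Finset.prod_nonneg fun j hj => (h j hj).1,
    Finset.prod_le_one (fun j hj => (h j hj).1) fun j hj => (h j hj).2⟩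

lemma telescope (S : ℕ) (x : TT) :
    ∑ s ∈ Finset.range S, P.vR s x * P.wR s x = 1 - P.wR S x := by
  induction S with
  | zero => simp [wR]
  | succ S ih =>
    rw [Finset.sum_range_succ, ih]
    have : P.wR (S + 1) x = P.wR S x * (1 - P.vR S x) := by
      unfold wR
      rw [Finset.prod_range_succ]
    rw [this]
    ring

lemma wR_ge (s : ℕ) (x : TT) : 1 - ∑ j ∈ Finset.range s, P.vR j x ≤ P.wR s x := by
  induction s with
  | zero => simp [wR]
  | succ s ih =>
    rw [Finset.sum_range_succ]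
    have h1 : P.wR (s + 1) x = P.wR s x * (1 - P.vR s x) := by
      unfold wR
      rw [Finset.prod_range_succ]
    have h2 := P.wR_bounds s x
    have h3 := P.vR_bounds s x
    have h0 := norm_nonneg (P.u s x)
    rw [h1]
    nlinarith [h2.1, h2.2, h3.1, h3.2.1]

/-- the function -/
noncomputable def f (S : ℕ) : C(TT, ℂ) := ∑ s ∈ Finset.range S, P.u s * P.w s

lemma f_norm (S : ℕ) : ‖P.f S‖ ≤ 1 := by
  rw [ContinuousMap.norm_le _ zero_le_one]
  intro x
  unfold f
  rw [ContinuousMap.sum_apply]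
  calc ‖∑ s ∈ Finset.range S, (P.u s * P.w s) x‖
      ≤ ∑ s ∈ Finset.range S, ‖(P.u s * P.w s) x‖ := norm_sum_le _ _
    _ ≤ ∑ s ∈ Finset.range S, P.vR s x * P.wR s x := by
        apply Finset.sum_le_sum
        intro s _
        have h1 := P.wR_bounds s x
        rw [ContinuousMap.mul_apply, norm_mul, w_apply, Complex.norm_real, Real.norm_eq_abs,
          abs_of_nonneg h1.1]
        exact mul_le_mul_of_nonneg_right (P.vR_bounds s x).1 h1.1
    _ = 1 - P.wR S x := P.telescope S x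
    _ ≤ 1 := by linarith [(P.wR_bounds S x).1]

/-- the mean square of `u` -/
lemma int_u_sq (s : ℕ) : ∫ x : TT, ‖P.u s x‖ ^ 2 ∂haarAddCircle = 1 / P.n s := by
  have hn : (P.n s : ℂ) ≠ 0 := by
    have := P.hn s
    exact_mod_cast this.ne'
  have h1 : ∀ x : TT, ((‖P.u s x‖ ^ 2 : ℝ) : ℂ) =
      (1 / (P.n s : ℂ)) ^ 2 * ∑ i ∈ Finset.range (P.n s), ∑ j ∈ Finset.range (P.n s),
        (fourier ((2 : ℤ) ^ (P.L s + i) - (2 : ℤ) ^ (P.L s + j)) x : ℂ) := by
    intro x
    have h2 : P.u s x = (1 / (P.n s : ℂ)) * ∑ i ∈ Finset.range (P.n s),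
        fourier ((2 : ℤ) ^ (P.L s + i)) x := by
      unfold u
      rw [ContinuousMap.smul_apply, ContinuousMap.sum_apply, smul_eq_mul]
    rw [← Complex.normSq_eq_norm_sq, ← Complex.mul_conj, h2, map_mul, map_sum, map_div₀, map_one,
      Complex.conj_natCast]
    have h3 : (∑ i ∈ Finset.range (P.n s), (fourier ((2 : ℤ) ^ (P.L s + i)) x : ℂ)) *
        ∑ j ∈ Finset.range (P.n s), (starRingEnd ℂ) (fourier ((2 : ℤ) ^ (P.L s + j)) x) =
        ∑ i ∈ Finset.range (P.n s), ∑ j ∈ Finset.range (P.n s),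
        (fourier ((2 : ℤ) ^ (P.L s + i) - (2 : ℤ) ^ (P.L s + j)) x : ℂ) := by
      rw [Finset.sum_mul_sum]
      apply Finset.sum_congr rfl
      intro i _
      apply Finset.sum_congr rfl
      intro j _
      rw [← fourier_neg, ← fourier_add, sub_eq_add_neg]
    rw [← h3]
    ring
  have h4 : ((∫ x : TT, ‖P.u s x‖ ^ 2 ∂haarAddCircle : ℝ) : ℂ) = 1 / (P.n s : ℂ) := by
    rw [← integral_complex_ofReal]
    simp only [h1]
    rw [integral_const_mul, integral_finsetSum]
    · have h5 : ∀ i ∈ Finset.range (P.n s), ∫ x : TT, ∑ j ∈ Finset.range (P.n s),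
          (fourier ((2 : ℤ) ^ (P.L s + i) - (2 : ℤ) ^ (P.L s + j)) x : ℂ) ∂haarAddCircle = 1 := by
        intro i hi
        rw [integral_finsetSum]
        · simp only [int_fourier]
          rw [Finset.sum_eq_single i]
          · rw [if_pos (sub_self _)]
          · intro j _ hj
            rw [if_neg]
            intro h
            apply hj
            have h6 : (2 : ℤ) ^ (P.L s + i) = 2 ^ (P.L s + j) := by linarith
            have h7 := Int.pow_right_injective (by norm_num : 1 < (2 : ℤ).natAbs) h6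
            omega
          · intro h
            exact absurd hi h
        · intro j _
          exact cm_integrable _
      rw [Finset.sum_congr rfl h5]
      simp only [Finset.sum_const, Finset.card_range, nsmul_eq_mul, mul_one]
      field_simp
    · intro i _
      apply integrable_finsetSum
      intro j _
      exact cm_integrable _
  have h8 : ((∫ x : TT, ‖P.u s x‖ ^ 2 ∂haarAddCircle : ℝ) : ℂ) = ((1 / P.n s : ℝ) : ℂ) := by
    rw [h4]
    push_cast
    ring
  exact_mod_cast h8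

lemma vR_cont (s : ℕ) : Continuous (P.vR s) := by
  unfold vR
  have := (P.u s).continuous
  fun_prop

lemma int_vR (s : ℕ) : ∫ x : TT, P.vR s x ∂haarAddCircle ≤ (1 / 2) ^ (s + 2) := by
  have hi1 : Integrable (P.vR s) (haarAddCircle : Measure TT) :=
    (P.vR_cont s).integrable_of_hasCompactSupport (HasCompactSupport.of_compactSpace _)
  have hc2 : Continuous fun x : TT => ‖P.u s x‖ ^ 2 := by
    have := (P.u s).continuous
    fun_prop
  have hi2 : Integrable (fun x : TT => ‖P.u s x‖ ^ 2) (haarAddCircle : Measure TT) :=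
    hc2.integrable_of_hasCompactSupport (HasCompactSupport.of_compactSpace _)
  have h1 : ∫ x : TT, P.vR s x ∂haarAddCircle ≤
      ∫ x : TT, ((1 / 2) ^ (s + 3) + P.K s * ‖P.u s x‖ ^ 2) ∂haarAddCircle := by
    apply integral_mono hi1
    · exact (integrable_const _).add (hi2.const_mul _)
    · intro x
      exact (P.vR_bounds s x).2.2
  rw [integral_add (integrable_const _) (hi2.const_mul _), integral_const_mul, int_u_sq,
    integral_const] at h1
  have h2 := P.hKn s
  have h3 : P.K s * (1 / P.n s) = P.K s / P.n s := by ring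
  rw [h3] at h1
  simp only [probReal_univ, one_smul] at h1
  calc _ ≤ _ := h1
    _ ≤ (1 / 2 : ℝ) ^ (s + 3) + (1 / 2) ^ (s + 3) := by gcongr
    _ = (1 / 2) ^ (s + 2) := by ring

lemma cf_w (s : ℕ) : 1 / 2 ≤ ‖cf 0 (P.w s)‖ := by
  have h0 : cf 0 (P.w s) = ((∫ x : TT, P.wR s x ∂haarAddCircle : ℝ) : ℂ) := by
    rw [cf_eq, ← integral_complex_ofReal]
    congr 1
    ext x
    rw [w_apply]
    simp
  have hc : Continuous (P.wR s) := by
    unfold wR
    have := fun j => P.vR_cont j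
    fun_prop
  have hi : Integrable (P.wR s) (haarAddCircle : Measure TT) :=
    hc.integrable_of_hasCompactSupport (HasCompactSupport.of_compactSpace _)
  have hiv : ∀ j, Integrable (P.vR j) (haarAddCircle : Measure TT) := fun j =>
    (P.vR_cont j).integrable_of_hasCompactSupport (HasCompactSupport.of_compactSpace _)
  have h1 : ∫ x : TT, (1 - ∑ j ∈ Finset.range s, P.vR j x) ∂haarAddCircle ≤
      ∫ x : TT, P.wR s x ∂haarAddCircle := by
    apply integral_mono _ hi (P.wR_ge s)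
    exact (integrable_const _).sub (integrable_finsetSum _ fun j _ => hiv j)
  rw [integral_sub (integrable_const _) (integrable_finsetSum _ fun j _ => hiv j),
    integral_finsetSum _ (fun j _ => hiv j), integral_const] at h1
  simp only [probReal_univ, one_smul] at h1
  have h2 : ∑ j ∈ Finset.range s, ∫ x : TT, P.vR j x ∂haarAddCircle ≤
      ∑ j ∈ Finset.range s, (1 / 2 : ℝ) ^ (j + 2) := Finset.sum_le_sum fun j _ => P.int_vR j
  have h3 : ∑ j ∈ Finset.range s, (1 / 2 : ℝ) ^ (j + 2) = 1 / 2 - (1 / 2) ^ (s + 1) := by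
    clear h0 hc hi h1 h2
    induction s with
    | zero => norm_num
    | succ s ih =>
      rw [Finset.sum_range_succ, ih]
      ring
  have h4 : (0 : ℝ) < (1 / 2) ^ (s + 1) := by positivity
  have h5 : 1 / 2 ≤ ∫ x : TT, P.wR s x ∂haarAddCircle := by linarith
  rw [h0, Complex.norm_real, Real.norm_eq_abs, abs_of_nonneg (by linarith)]
  exact h5

/-- two different powers of two are far apart -/
lemma pow_far (a b : ℕ) (h : a ≠ b) (D m : ℕ) (hD : D * 2 ^ 11 ≤ 2 ^ m) (hm : m ≤ b) :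
    ((2 : ℤ) ^ a - 2 ^ b) ∉ Set.Icc (-(D : ℤ)) D := by
  intro hmem
  rw [Set.mem_Icc] at hmem
  have hDz : (D : ℤ) * 2 ^ 11 ≤ 2 ^ m := by exact_mod_cast hD
  have hmb : (2 : ℤ) ^ m ≤ 2 ^ b := pow_le_pow_right₀ (by norm_num) hm
  have hb : (0 : ℤ) < 2 ^ b := by positivity
  have ha : (0 : ℤ) < 2 ^ a := by positivity
  rcases lt_or_gt_of_ne h with h1 | h1
  · have h2 : (2 : ℤ) ^ (a + 1) ≤ 2 ^ b := pow_le_pow_right₀ (by norm_num) h1
    rw [pow_succ] at h2
    linarith [hmem.1]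
  · have h2 : (2 : ℤ) ^ (b + 1) ≤ 2 ^ a := pow_le_pow_right₀ (by norm_num) h1
    rw [pow_succ] at h2
    linarith [hmem.2]

/-- the coefficient of `f` at a frequency of the construction -/
lemma cf_f (S s i : ℕ) (hs : s < S) (hi : i < P.n s) :
    cf (2 ^ (P.L s + i)) (P.f S) = (1 / (P.n s : ℂ)) * cf 0 (P.w s) := by
  unfold f
  rw [map_sum]
  have hterm : ∀ s', cf (2 ^ (P.L s + i)) (P.u s' * P.w s') = (1 / (P.n s' : ℂ)) *
      ∑ i' ∈ Finset.range (P.n s'), cf ((2 : ℤ) ^ (P.L s + i) - 2 ^ (P.L s' + i')) (P.w s') := by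
    intro s'
    have e : P.u s' * P.w s' = (1 / (P.n s' : ℂ)) •
        ∑ i' ∈ Finset.range (P.n s'), (fourier ((2 : ℤ) ^ (P.L s' + i')) * P.w s') := by
      unfold u
      rw [smul_mul_assoc, Finset.sum_mul]
    rw [e, map_smul, map_sum, smul_eq_mul]
    congr 1
    apply Finset.sum_congr rfl
    intro i' _
    rw [cf_fourier_mul]
  rw [Finset.sum_eq_single s]
  · rw [hterm, Finset.sum_eq_single i]
    · rw [sub_self]
    · intro i' _ hi'
      apply cf_Sp (P.w_mem s)
      exact pow_far _ _ (by omega) _ _ (P.D_bound s) (by omega)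
    · intro h
      exact absurd (Finset.mem_range.mpr hi) h
  · intro s' _ hs'
    rw [hterm]
    have : ∀ i' ∈ Finset.range (P.n s'), cf ((2 : ℤ) ^ (P.L s + i) - 2 ^ (P.L s' + i')) (P.w s') = 0 := by
      intro i' hi'
      have hi'' := Finset.mem_range.mp hi'
      apply cf_Sp (P.w_mem s')
      apply pow_far _ _ _ _ _ (P.D_bound s') (by omega)
      rcases lt_or_gt_of_ne hs' with h1 | h1
      · have h2 := P.L_strictMono.monotone (show s' + 1 ≤ s by omega)
        rw [L_succ] at h2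
        omega
      · have h2 := P.L_strictMono.monotone (show s + 1 ≤ s' by omega)
        rw [L_succ] at h2
        omega
    rw [Finset.sum_eq_zero this, mul_zero]
  · intro h
    exact absurd (Finset.mem_range.mpr hs) h

/-- the spectrum of `f` -/
lemma f_mem (S : ℕ) : P.f S ∈ Sp {m : ℤ | ∃ s i : ℕ, i < P.n s ∧ |m - 2 ^ (P.L s + i)| ≤ P.D s} := by
  unfold f
  apply Submodule.sum_mem
  intro s _
  have e : P.u s * P.w s = (1 / (P.n s : ℂ)) •
      ∑ i ∈ Finset.range (P.n s), (fourier ((2 : ℤ) ^ (P.L s + i)) * P.w s) := by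
    unfold u
    rw [smul_mul_assoc, Finset.sum_mul]
  rw [e]
  apply Submodule.smul_mem
  apply Submodule.sum_mem
  intro i hi
  have h := Sp_mul (fourier_mem_Sp (Set.mem_singleton ((2 : ℤ) ^ (P.L s + i)))) (P.w_mem s)
  refine Sp_mono ?_ h
  rintro _ ⟨a, ha, b, hb, rfl⟩
  rw [Set.mem_singleton_iff] at ha
  subst ha
  refine ⟨s, i, Finset.mem_range.mp hi, ?_⟩
  rw [Set.mem_Icc] at hb
  simp only [add_sub_cancel_left]
  rw [abs_le]
  exact hb

end Par

end Pool.Agent.R244.Lac
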