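import Mathlib

/-!
Exponential Riesz bases of `L²(μ)` for a measure `μ` on the plane.
-/

set_option autoImplicit false

namespace Pool.Agent.R244.RB

open MeasureTheory Complex

/-- The exponential `e_l(x) = exp(2πi⟨l,x⟩)` on the plane. -/
noncomputable def ex (l x : EuclideanSpace ℝ (Fin 2)) : ℂ :=
  cexp (2 * Real.pi * I * (inner ℝ l x : ℝ))

/-- `E(L) = {e_l : l ∈ L}` is an exponential Riesz basis of `L²(μ)`: `L` is countable, the linear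
combinations of the `e_l`, `l ∈ L`, are dense in `L²(μ)`, and there are constants `0 < A ≤ B` with
`A ∑ |c_l|² ≤ ‖∑ c_l e_l‖² ≤ B ∑ |c_l|²` for every finite sum over `L`. -/
def IsExpRieszBasis (μ : Measure (EuclideanSpace ℝ (Fin 2))) (L : Set (EuclideanSpace ℝ (Fin 2))) :
    Prop :=
  L.Countable ∧
  (∀ f : EuclideanSpace ℝ (Fin 2) → ℂ, MemLp f 2 μ → ∀ ε : ℝ, 0 < ε →
    ∃ (s : Finset (EuclideanSpace ℝ (Fin 2))) (c : EuclideanSpace ℝ (Fin 2) → ℂ),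
      (∀ l ∈ s, l ∈ L) ∧ ∫ x, ‖f x - ∑ l ∈ s, c l * ex l x‖ ^ 2 ∂μ < ε) ∧
  ∃ A B : ℝ, 0 < A ∧ A ≤ B ∧
    ∀ (s : Finset (EuclideanSpace ℝ (Fin 2))) (c : EuclideanSpace ℝ (Fin 2) → ℂ), (∀ l ∈ s, l ∈ L) →
      A * ∑ l ∈ s, ‖c l‖ ^ 2 ≤ ∫ x, ‖∑ l ∈ s, c l * ex l x‖ ^ 2 ∂μ ∧
      ∫ x, ‖∑ l ∈ s, c l * ex l x‖ ^ 2 ∂μ ≤ B * ∑ l ∈ s, ‖c l‖ ^ 2

end Pool.Agent.R244.RB
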