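import Mathlib
import Pool.Agent.R244.RBDef

/-!
Square integrable functions on `[0,1]`, trigonometric polynomials, and a criterion for exponential
Riesz bases of sums of length measures.
-/

set_option autoImplicit false

namespace Pool.Agent.R244.RB

open MeasureTheory Complex Set

/-- square integral on `[0,1]` -/
noncomputable def N (f : ℝ → ℂ) : ℝ := ∫ s in (0 : ℝ)..1, ‖f s‖ ^ 2

/-- measurable functions on the line which are square integrable on `[0,1]` -/
def L2 (f : ℝ → ℂ) : Prop := Measurable f ∧ IntervalIntegrable (fun s => ‖f s‖ ^ 2) volume 0 1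

/-- `e(ns)` -/
noncomputable def en (n : ℤ) (s : ℝ) : ℂ := cexp (2 * Real.pi * I * (n * s : ℝ))

lemma N_nonneg (f : ℝ → ℂ) : 0 ≤ N f :=
  intervalIntegral.integral_nonneg zero_le_one fun s _ => by positivity

lemma norm_cexp (r : ℝ) : ‖cexp (2 * Real.pi * I * (r : ℂ))‖ = 1 := by
  have : (2 * Real.pi * I * (r : ℂ)) = ((2 * Real.pi * r : ℝ) : ℂ) * I := by
    push_cast
    ring
  rw [this, Complex.norm_exp_ofReal_mul_I]

lemma en_norm (n : ℤ) (s : ℝ) : ‖en n s‖ = 1 := norm_cexp _

lemma en_cont (n : ℤ) : Continuous (en n) := by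
  unfold en
  fun_prop

lemma en_L2 (n : ℤ) : L2 (en n) := by
  refine ⟨(en_cont n).measurable, ?_⟩
  simp only [en_norm]
  exact intervalIntegrable_const

lemma sq_add_le (a b : ℂ) : ‖a + b‖ ^ 2 ≤ 2 * ‖a‖ ^ 2 + 2 * ‖b‖ ^ 2 := by
  have h := norm_add_le a b
  have h0 := norm_nonneg (a + b)
  nlinarith [sq_nonneg (‖a‖ - ‖b‖), norm_nonneg a, norm_nonneg b]

lemma ii_of_le {f g : ℝ → ℝ} (hf : Measurable f) (h0 : ∀ s, 0 ≤ f s) (h : ∀ s, f s ≤ g s)
    (hg : IntervalIntegrable g volume 0 1) : IntervalIntegrable f volume 0 1 := by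
  apply hg.mono_fun hf.aestronglyMeasurable
  filter_upwards with s
  rw [Real.norm_eq_abs, Real.norm_eq_abs, abs_of_nonneg (h0 s)]
  exact (h s).trans (le_abs_self _)

lemma L2.add {f g : ℝ → ℂ} (hf : L2 f) (hg : L2 g) : L2 (f + g) := by
  refine ⟨hf.1.add hg.1, ?_⟩
  apply ii_of_le (g := fun s => 2 * ‖f s‖ ^ 2 + 2 * ‖g s‖ ^ 2)
  · exact ((hf.1.add hg.1).norm).pow_const 2
  · intro s; positivity
  · intro s; exact sq_add_le _ _
  · exact (hf.2.const_mul 2).add (hg.2.const_mul 2)

lemma L2.const_mul {f : ℝ → ℂ} (hf : L2 f) (c : ℂ) : L2 (fun s => c * f s) := by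
  refine ⟨hf.1.const_mul c, ?_⟩
  have : (fun s => ‖c * f s‖ ^ 2) = fun s => ‖c‖ ^ 2 * ‖f s‖ ^ 2 := by
    ext s
    rw [norm_mul, mul_pow]
  rw [this]
  exact hf.2.const_mul _

lemma L2.smul {f : ℝ → ℂ} (hf : L2 f) (c : ℂ) : L2 (c • f) := hf.const_mul c

lemma L2.neg {f : ℝ → ℂ} (hf : L2 f) : L2 (-f) := by
  have := hf.smul (-1)
  simpa using this

lemma L2.sub {f g : ℝ → ℂ} (hf : L2 f) (hg : L2 g) : L2 (f - g) := by
  rw [sub_eq_add_neg]
  exact hf.add hg.neg

lemma L2.zero : L2 (0 : ℝ → ℂ) := by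
  refine ⟨measurable_zero, ?_⟩
  simp

lemma L2.sum {ι : Type*} (s : Finset ι) (f : ι → ℝ → ℂ) (h : ∀ i ∈ s, L2 (f i)) :
    L2 (∑ i ∈ s, f i) := by
  classical
  induction s using Finset.induction_on with
  | empty => simpa using L2.zero
  | insert a s ha ih =>
    rw [Finset.sum_insert ha]
    exact (h a (Finset.mem_insert_self _ _)).add (ih fun i hi => h i (Finset.mem_insert_of_mem hi))

/-- multiplication by a measurable unimodular function -/
lemma L2.mul {f u : ℝ → ℂ} (hf : L2 f) (hu : Measurable u) (h1 : ∀ s, ‖u s‖ = 1) :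
    L2 (fun s => u s * f s) := by
  refine ⟨hu.mul hf.1, ?_⟩
  simp only [norm_mul, h1, one_mul]
  exact hf.2

lemma L2.memLp {f : ℝ → ℂ} (hf : L2 f) : MemLp f 2 (volume.restrict (Ioc (0 : ℝ) 1)) := by
  rw [memLp_two_iff_integrable_sq_norm hf.1.aestronglyMeasurable]
  have := hf.2
  rwa [intervalIntegrable_iff_integrableOn_Ioc_of_le zero_le_one] at this

lemma N_congr {f g : ℝ → ℂ} (h : ∀ s, ‖f s‖ = ‖g s‖) : N f = N g := by
  unfold N
  simp only [h]

lemma N_add_le {f g : ℝ → ℂ} (hf : L2 f) (hg : L2 g) : N (f + g) ≤ 2 * N f + 2 * N g := by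
  unfold N
  rw [← intervalIntegral.integral_const_mul, ← intervalIntegral.integral_const_mul,
    ← intervalIntegral.integral_add (hf.2.const_mul 2) (hg.2.const_mul 2)]
  exact intervalIntegral.integral_mono_on zero_le_one (hf.add hg).2
    ((hf.2.const_mul 2).add (hg.2.const_mul 2)) fun s _ => sq_add_le _ _

/-- orthogonality -/
lemma en_orth (m n : ℤ) : ∫ s in (0 : ℝ)..1, (starRingEnd ℂ) (en m s) * en n s =
    if m = n then 1 else 0 := by
  have h : ∀ s : ℝ, (starRingEnd ℂ) (en m s) * en n s = cexp (2 * Real.pi * I * (n - m : ℤ) * s) := by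
    intro s
    unfold en
    rw [← Complex.exp_conj, ← Complex.exp_add]
    congr 1
    simp only [map_mul, Complex.conj_I, Complex.conj_ofReal, map_ofNat]
    push_cast
    ring
  simp only [h]
  split_ifs with hmn
  · subst hmn
    simp
  · have hc : (2 * Real.pi * I * (n - m : ℤ) : ℂ) ≠ 0 := by
      have h1 : ((n - m : ℤ) : ℂ) ≠ 0 := by
        exact_mod_cast sub_ne_zero.mpr (Ne.symm hmn)
      have h2 : (2 * Real.pi * I : ℂ) ≠ 0 := Complex.two_pi_I_ne_zero
      exact mul_ne_zero h2 h1
    rw [integral_exp_mul_complex hc]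
    have : cexp (2 * Real.pi * I * (n - m : ℤ) * (1 : ℝ)) = 1 := by
      have := Complex.exp_int_mul_two_pi_mul_I (n - m)
      rw [← this]
      congr 1
      push_cast
      ring
    rw [this]
    simp

/-- Parseval for trigonometric polynomials -/
lemma parseval (t : Finset ℤ) (c : ℤ → ℂ) :
    N (fun s => ∑ n ∈ t, c n * en n s) = ∑ n ∈ t, ‖c n‖ ^ 2 := by
  have h : ∀ s : ℝ, ((‖∑ n ∈ t, c n * en n s‖ ^ 2 : ℝ) : ℂ) =
      ∑ m ∈ t, ∑ n ∈ t, (starRingEnd ℂ) (c m) * c n * ((starRingEnd ℂ) (en m s) * en n s) := by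
    intro s
    rw [← Complex.normSq_eq_norm_sq, Complex.normSq_eq_conj_mul_self, map_sum, Finset.sum_mul]
    apply Finset.sum_congr rfl
    intro m _
    rw [Finset.mul_sum]
    apply Finset.sum_congr rfl
    intro n _
    rw [map_mul]
    ring
  have hc : ((N (fun s => ∑ n ∈ t, c n * en n s) : ℝ) : ℂ) = ∑ n ∈ t, ((‖c n‖ ^ 2 : ℝ) : ℂ) := by
    unfold N
    rw [← intervalIntegral.integral_ofReal]
    simp only [h]
    rw [intervalIntegral.integral_finsetSum]
    · apply Finset.sum_congr rfl
      intro m hm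
      rw [intervalIntegral.integral_finsetSum]
      · simp only [intervalIntegral.integral_const_mul, en_orth]
        rw [Finset.sum_eq_single m]
        · rw [if_pos rfl, mul_one, ← Complex.normSq_eq_norm_sq, Complex.normSq_eq_conj_mul_self]
        · intro n _ hn
          rw [if_neg (Ne.symm hn), mul_zero]
        · intro h
          exact absurd hm h
      · intro n _
        apply Continuous.intervalIntegrable
        have := en_cont m
        have := en_cont n
        fun_prop
    · intro m _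
      apply Continuous.intervalIntegrable
      have := en_cont m
      have := fun n => en_cont n
      fun_prop
  exact_mod_cast hc

/-- trigonometric polynomials are dense -/
lemma trig_dense {f : ℝ → ℂ} (hf : L2 f) (ε : ℝ) (hε : 0 < ε) :
    ∃ (t : Finset ℤ) (c : ℤ → ℂ), N (fun s => f s - ∑ n ∈ t, c n * en n s) < ε := by
  have : Fact ((0 : ℝ) < 1) := ⟨one_pos⟩
  have hL : MemLp f 2 (volume.restrict (Ioc (0 : ℝ) (0 + 1))) := by
    rw [zero_add]
    exact hf.memLp
  have h := hL.memLp_liftIoc.haarAddCircle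
  set g := h.toLp with hg
  have hs := hasSum_fourier_series_L2 g
  have hs2 : ∀ᶠ t : Finset ℤ in Filter.atTop,
      dist (∑ i ∈ t, fourierCoeff g i • fourierLp 2 i) g < Real.sqrt ε :=
    hs.eventually (Metric.ball_mem_nhds _ (Real.sqrt_pos.mpr hε))
  obtain ⟨t, ht⟩ := hs2.exists
  refine ⟨t, fun n => fourierCoeff g n, ?_⟩
  rw [dist_comm, dist_eq_norm] at ht
  have h1 : ‖g - ∑ i ∈ t, fourierCoeff g i • fourierLp 2 i‖ ^ 2 < ε := by
    have h0 := norm_nonneg (g - ∑ i ∈ t, fourierCoeff g i • fourierLp 2 i)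
    calc _ < (Real.sqrt ε) ^ 2 := by gcongr
      _ = ε := Real.sq_sqrt hε.le
  refine lt_of_eq_of_lt ?_ h1
  set G := g - ∑ i ∈ t, fourierCoeff g i • fourierLp 2 i with hG
  have h2 : ‖G‖ ^ 2 = ∫ x : AddCircle (1 : ℝ), ‖G x‖ ^ 2 ∂AddCircle.haarAddCircle := by
    have H₃ := congr_arg RCLike.re (@L2.inner_def (AddCircle (1 : ℝ)) ℂ ℂ _ _ _ _ _ G G)
    rw [← integral_re] at H₃
    · simp only [← norm_sq_eq_re_inner] at H₃
      exact H₃
    · exact L2.integrable_inner G G
  have hae : ∀ᵐ x ∂(AddCircle.haarAddCircle : Measure (AddCircle (1 : ℝ))),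
      G x = AddCircle.liftIoc 1 0 f x - ∑ n ∈ t, fourierCoeff g n * fourier n x := by
    have e1 := Lp.coeFn_sub g (∑ i ∈ t, fourierCoeff g i • fourierLp 2 i)
    have e2 := Lp.coeFn_finsetSum t (fun i => fourierCoeff g i • (fourierLp 2 i :
      Lp ℂ 2 (@AddCircle.haarAddCircle (1 : ℝ) _)))
    have e3 := h.coeFn_toLp
    have e4 : ∀ᵐ x ∂(AddCircle.haarAddCircle : Measure (AddCircle (1 : ℝ))), ∀ i ∈ t,
        (fourierCoeff g i • (fourierLp 2 i : Lp ℂ 2 (@AddCircle.haarAddCircle (1 : ℝ) _)) :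
          Lp ℂ 2 (@AddCircle.haarAddCircle (1 : ℝ) _)) x = fourierCoeff g i * fourier i x := by
      rw [Finset.eventually_all]
      intro i _
      filter_upwards [Lp.coeFn_smul (fourierCoeff g i)
        (fourierLp 2 i : Lp ℂ 2 (@AddCircle.haarAddCircle (1 : ℝ) _)), coeFn_fourierLp 2 i]
        with x hx1 hx2
      rw [hx1, Pi.smul_apply, hx2, smul_eq_mul]
    filter_upwards [e1, e2, e3, e4] with x h1 h2 h3 h4
    rw [hG, h1, Pi.sub_apply, h2, Finset.sum_apply, hg, h3]
    congr 1
    exact Finset.sum_congr rfl h4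
  have hvol : (volume : Measure (AddCircle (1 : ℝ))) = AddCircle.haarAddCircle := by
    rw [AddCircle.volume_eq_smul_haarAddCircle]
    simp
  have hvae : ∀ p : AddCircle (1 : ℝ) → Prop,
      (∀ᵐ x ∂(AddCircle.haarAddCircle : Measure (AddCircle (1 : ℝ))), p x) →
      ∀ᵐ x ∂(volume : Measure (AddCircle (1 : ℝ))), p x := by
    intro p hp
    rw [hvol]
    exact hp
  have hae2 := (AddCircle.measurePreserving_mk 1 0).quasiMeasurePreserving.ae (hvae _ hae)
  rw [zero_add] at hae2
  rw [h2, AddCircle.integral_haarAddCircle, inv_one, one_smul, ← AddCircle.integral_preimage 1 0,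
    N, intervalIntegral.integral_of_le zero_le_one, zero_add]
  apply integral_congr_ae
  filter_upwards [hae2, ae_restrict_mem measurableSet_Ioc] with s h5 h6
  rw [h5, AddCircle.liftIoc_coe_apply (by rwa [zero_add])]
  congr 3
  apply Finset.sum_congr rfl
  intro n _
  rw [fourier_coe_apply]
  unfold en
  congr 2
  push_cast
  ring

lemma ex_cont (l : EuclideanSpace ℝ (Fin 2)) : Continuous (ex l) := by
  unfold ex
  fun_prop

lemma ex_norm (l x : EuclideanSpace ℝ (Fin 2)) : ‖ex l x‖ = 1 := norm_cexp _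

/-- integrals over a sum of length measures -/
lemma integral_sum_map {r : ℕ} (γ : Fin r → ℝ → EuclideanSpace ℝ (Fin 2))
    (hγ : ∀ j, Continuous (γ j)) (w : Fin r → ℝ) (hw : ∀ j, 0 < w j)
    (μ : Measure (EuclideanSpace ℝ (Fin 2)))
    (hμ : μ = ∑ j, ENNReal.ofReal (w j) • Measure.map (γ j) (volume.restrict (Ioc (0 : ℝ) 1)))
    (g : EuclideanSpace ℝ (Fin 2) → ℝ) (hg : Measurable g)
    (hi : ∀ j, IntervalIntegrable (fun s => g (γ j s)) volume 0 1) :
    ∫ x, g x ∂μ = ∑ j, w j * ∫ s in (0 : ℝ)..1, g (γ j s) := by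
  rw [hμ, integral_finsetSum_measure]
  · apply Finset.sum_congr rfl
    intro j _
    rw [integral_smul_measure, integral_map (hγ j).aemeasurable hg.aestronglyMeasurable,
      ENNReal.toReal_ofReal (hw j).le, smul_eq_mul, intervalIntegral.integral_of_le zero_le_one]
  · intro j _
    apply Integrable.smul_measure _ ENNReal.ofReal_ne_top
    rw [integrable_map_measure hg.aestronglyMeasurable (hγ j).aemeasurable]
    have := hi j
    rw [intervalIntegrable_iff_integrableOn_Ioc_of_le zero_le_one] at this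
    exact this

/-- **Criterion for exponential Riesz bases.** -/
theorem riesz_of_synth {m r : ℕ} (γ : Fin r → ℝ → EuclideanSpace ℝ (Fin 2))
    (hγ : ∀ j, Continuous (γ j)) (w : Fin r → ℝ) (hw : ∀ j, 0 < w j)
    (μ : Measure (EuclideanSpace ℝ (Fin 2)))
    (hμ : μ = ∑ j, ENNReal.ofReal (w j) • Measure.map (γ j) (volume.restrict (Ioc (0 : ℝ) 1)))
    (S : (Fin m → ℝ → ℂ) →ₗ[ℂ] (Fin r → ℝ → ℂ))
    (hS2 : ∀ F, (∀ k, L2 (F k)) → ∀ j, L2 (S F j))
    (A B : ℝ) (hA : 0 < A)
    (hlow : ∀ F, (∀ k, L2 (F k)) → A * ∑ k, N (F k) ≤ ∑ j, N (S F j))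
    (hup : ∀ F, (∀ k, L2 (F k)) → ∑ j, N (S F j) ≤ B * ∑ k, N (F k))
    (hsurj : ∀ f : Fin r → ℝ → ℂ, (∀ j, L2 (f j)) → ∀ ε : ℝ, 0 < ε →
      ∃ F, (∀ k, L2 (F k)) ∧ ∑ j, N (f j - S F j) < ε)
    (l : Fin m × ℤ → EuclideanSpace ℝ (Fin 2)) (hl : Function.Injective l)
    (η : Fin m × ℤ → ℂ) (hη : ∀ i, ‖η i‖ = 1)
    (htrig : ∀ (i : Fin m × ℤ) (j : Fin r), ∀ s ∈ Ioc (0 : ℝ) 1,
      ex (l i) (γ j s) = η i * S (Pi.single i.1 (en i.2)) j s) :
    IsExpRieszBasis μ (Set.range l) := by
  classical
  -- trigonometric sums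
  set tr : Finset ℤ → (Fin m × ℤ → ℂ) → Fin m → ℝ → ℂ := fun t c k s =>
    ∑ n ∈ t, (c (k, n) * η (k, n)) * en n s with htr
  have tr2 : ∀ t c k, L2 (tr t c k) := by
    intro t c k
    have : tr t c k = ∑ n ∈ t, (c (k, n) * η (k, n)) • en n := by
      ext s
      simp [htr]
    rw [this]
    exact L2.sum _ _ fun n _ => (en_L2 n).smul _
  have trN : ∀ t c, ∑ k, N (tr t c k) = ∑ i ∈ (Finset.univ : Finset (Fin m)) ×ˢ t, ‖c i‖ ^ 2 := by
    intro t c
    rw [Finset.sum_product]
    apply Finset.sum_congr rfl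
    intro k _
    rw [htr]
    simp only
    rw [parseval t (fun n => c (k, n) * η (k, n))]
    apply Finset.sum_congr rfl
    intro n _
    rw [norm_mul, hη, mul_one]
  have trS : ∀ t c j, ∀ s ∈ Ioc (0 : ℝ) 1, S (tr t c) j s =
      ∑ i ∈ (Finset.univ : Finset (Fin m)) ×ˢ t, c i * ex (l i) (γ j s) := by
    intro t c j s hs
    have e1 : tr t c = ∑ i ∈ (Finset.univ : Finset (Fin m)) ×ˢ t,
        (c i * η i) • (Pi.single i.1 (en i.2) : Fin m → ℝ → ℂ) := by
      ext k u
      rw [Finset.sum_product, Finset.sum_apply, Finset.sum_apply]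
      rw [Finset.sum_eq_single k]
      · rw [Finset.sum_apply, Finset.sum_apply]
        simp [htr]
      · intro k' _ hk'
        rw [Finset.sum_apply, Finset.sum_apply]
        apply Finset.sum_eq_zero
        intro n _
        simp [Pi.single_eq_of_ne (Ne.symm hk')]
      · intro h
        exact absurd (Finset.mem_univ _) h
    rw [e1, map_sum, Finset.sum_apply, Finset.sum_apply]
    apply Finset.sum_congr rfl
    intro i _
    rw [map_smul, Pi.smul_apply, Pi.smul_apply, smul_eq_mul, htrig i j s hs]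
    ring
  -- a finite set of exponents
  have hW : ∃ W1 W2 : ℝ, 0 < W1 ∧ 0 < W2 ∧ W1 ≤ W2 ∧ ∀ j, W1 ≤ w j ∧ w j ≤ W2 := by
    rcases isEmpty_or_nonempty (Fin r) with he | he
    · exact ⟨1, 1, one_pos, one_pos, le_rfl, fun j => (he.false j).elim⟩
    · obtain ⟨j0, _, h0⟩ := Finset.exists_min_image Finset.univ w Finset.univ_nonempty
      obtain ⟨j1, _, h1⟩ := Finset.exists_max_image Finset.univ w Finset.univ_nonempty
      exact ⟨w j0, w j1, hw j0, hw j1, h0 j1 (Finset.mem_univ _), fun j =>
        ⟨h0 j (Finset.mem_univ _), h1 j (Finset.mem_univ _)⟩⟩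
  obtain ⟨W1, W2, hW1, hW2, hW12, hWj⟩ := hW
  have hint : ∀ t c, ∫ x, ‖∑ i ∈ (Finset.univ : Finset (Fin m)) ×ˢ t, c i * ex (l i) x‖ ^ 2 ∂μ =
      ∑ j, w j * N (S (tr t c) j) := by
    intro t c
    have hc : Continuous fun x => ‖∑ i ∈ (Finset.univ : Finset (Fin m)) ×ˢ t, c i * ex (l i) x‖ ^ 2 := by
      have := fun i => ex_cont (l i)
      fun_prop
    rw [integral_sum_map γ hγ w hw μ hμ _ hc.measurable (fun j =>
      (hc.comp (hγ j)).intervalIntegrable _ _)]
    apply Finset.sum_congr rfl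
    intro j _
    congr 1
    unfold N
    apply intervalIntegral.integral_congr_ae
    filter_upwards with s hs
    rw [uIoc_of_le zero_le_one] at hs
    rw [trS t c j s hs]
  refine ⟨Set.countable_range l, ?_, ?_⟩
  · -- density
    intro f hf ε hε
    set f' := hf.1.mk f with hf'
    have hff' : f =ᵐ[μ] f' := hf.1.ae_eq_mk
    have hf'm : Measurable f' := hf.1.stronglyMeasurable_mk.measurable
    have hf'2 : MemLp f' 2 μ := hf.ae_eq hff'
    have hfi : Integrable (fun x => ‖f' x‖ ^ 2) μ :=
      (memLp_two_iff_integrable_sq_norm hf'2.1).mp hf'2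
    have hfj : ∀ j, L2 (fun s => f' (γ j s)) := by
      intro j
      refine ⟨hf'm.comp (hγ j).measurable, ?_⟩
      rw [intervalIntegrable_iff_integrableOn_Ioc_of_le zero_le_one]
      have h1 : Integrable (fun x => ‖f' x‖ ^ 2)
          (ENNReal.ofReal (w j) • Measure.map (γ j) (volume.restrict (Ioc (0 : ℝ) 1))) := by
        apply hfi.mono_measure
        rw [hμ]
        exact Finset.single_le_sum (f := fun j => ENNReal.ofReal (w j) •
          Measure.map (γ j) (volume.restrict (Ioc (0 : ℝ) 1))) (fun _ _ => Measure.zero_le _)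
          (Finset.mem_univ j)
      rw [integrable_smul_measure (by simpa using hw j) ENNReal.ofReal_ne_top,
        integrable_map_measure ((hf'm.norm.pow_const 2).aestronglyMeasurable)
          (hγ j).aemeasurable] at h1
      exact h1
    obtain ⟨F, hF2, hF⟩ := hsurj (fun j s => f' (γ j s)) hfj (ε / (4 * W2)) (by positivity)
    have htd : ∀ k, ∃ (t : Finset ℤ) (c : ℤ → ℂ), N (fun s => F k s - ∑ n ∈ t, c n * en n s) <
        ε / (4 * W2 * (|B| + 1) * (m + 1)) := fun k => trig_dense (hF2 k) _ (by positivity)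
    choose tk ck hck using htd
    set t : Finset ℤ := Finset.univ.biUnion tk with ht
    set c : Fin m × ℤ → ℂ := fun i => if i.2 ∈ tk i.1 then ck i.1 i.2 / η i else 0 with hc
    have htrk : ∀ k s, tr t c k s = ∑ n ∈ tk k, ck k n * en n s := by
      intro k s
      rw [htr]
      simp only
      symm
      have hsub : tk k ⊆ t := Finset.subset_biUnion_of_mem tk (Finset.mem_univ k)
      rw [← Finset.sum_subset hsub (f := fun n => (c (k, n) * η (k, n)) * en n s)]
      · apply Finset.sum_congr rfl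
        intro n hn
        have h0 : η (k, n) ≠ 0 := by
          intro h0
          have := hη (k, n)
          rw [h0, norm_zero] at this
          exact zero_ne_one this
        simp only [hc, if_pos hn]
        rw [div_mul_cancel₀ _ h0]
      · intro n _ hn
        simp only [hc, if_neg hn]
        ring
    have hlinv : ∀ i, Function.extend l c 0 (l i) = c i := fun i => hl.extend_apply c 0 i
    refine ⟨((Finset.univ : Finset (Fin m)) ×ˢ t).image l, Function.extend l c 0, ?_, ?_⟩
    · intro x hx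
      rw [Finset.mem_image] at hx
      obtain ⟨i, _, rfl⟩ := hx
      exact Set.mem_range_self i
    · have e1 : ∀ x, ∑ y ∈ ((Finset.univ : Finset (Fin m)) ×ˢ t).image l,
          Function.extend l c 0 y * ex y x =
          ∑ i ∈ (Finset.univ : Finset (Fin m)) ×ˢ t, c i * ex (l i) x := by
        intro x
        rw [Finset.sum_image (fun i _ j _ h => hl h)]
        simp only [hlinv]
      simp only [e1]
      have e2 : ∫ x, ‖f x - ∑ i ∈ (Finset.univ : Finset (Fin m)) ×ˢ t, c i * ex (l i) x‖ ^ 2 ∂μ =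
          ∫ x, ‖f' x - ∑ i ∈ (Finset.univ : Finset (Fin m)) ×ˢ t, c i * ex (l i) x‖ ^ 2 ∂μ := by
        apply integral_congr_ae
        filter_upwards [hff'] with x hx
        rw [hx]
      have hDm : Measurable fun x =>
          ‖f' x - ∑ i ∈ (Finset.univ : Finset (Fin m)) ×ˢ t, c i * ex (l i) x‖ ^ 2 := by
        have hcc : Continuous fun x => ∑ i ∈ (Finset.univ : Finset (Fin m)) ×ˢ t,
            c i * ex (l i) x := by
          have := fun i => ex_cont (l i)
          fun_prop
        exact (hf'm.sub hcc.measurable).norm.pow_const 2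
      have hD2 : ∀ j, L2 ((fun s => f' (γ j s)) - S (tr t c) j) := fun j =>
        (hfj j).sub (hS2 _ (tr2 t c) j)
      have hDi : ∀ j, IntervalIntegrable (fun s => ‖f' (γ j s) -
          ∑ i ∈ (Finset.univ : Finset (Fin m)) ×ˢ t, c i * ex (l i) (γ j s)‖ ^ 2) volume 0 1 := by
        intro j
        apply (hD2 j).2.congr
        rw [uIoc_of_le zero_le_one]
        intro s hs
        simp only [Pi.sub_apply]
        rw [trS t c j s hs]
      rw [e2, integral_sum_map γ hγ w hw μ hμ _ hDm hDi]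
      have e3 : ∀ j, ∫ s in (0 : ℝ)..1, ‖f' (γ j s) -
          ∑ i ∈ (Finset.univ : Finset (Fin m)) ×ˢ t, c i * ex (l i) (γ j s)‖ ^ 2 =
          N ((fun s => f' (γ j s)) - S (tr t c) j) := by
        intro j
        unfold N
        apply intervalIntegral.integral_congr_ae
        filter_upwards with s hs
        rw [uIoc_of_le zero_le_one] at hs
        simp only [Pi.sub_apply]
        rw [trS t c j s hs]
      simp only [e3]
      have e4 : ∀ j, N ((fun s => f' (γ j s)) - S (tr t c) j) ≤
          2 * N ((fun s => f' (γ j s)) - S F j) + 2 * N (S (F - tr t c) j) := by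
        intro j
        have h5 : (fun s => f' (γ j s)) - S (tr t c) j =
            ((fun s => f' (γ j s)) - S F j) + S (F - tr t c) j := by
          rw [map_sub, Pi.sub_apply]
          abel
        rw [h5]
        exact N_add_le ((hfj j).sub (hS2 F hF2 j))
          (hS2 _ (fun k => (hF2 k).sub (tr2 t c k)) j)
      have e5 : ∑ j, N (S (F - tr t c) j) ≤ |B| * ∑ k, N ((F - tr t c) k) :=
        (hup (F - tr t c) (fun k => (hF2 k).sub (tr2 t c k))).trans
          (mul_le_mul_of_nonneg_right (le_abs_self B) (Finset.sum_nonneg fun k _ => N_nonneg _))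
      have e6 : ∑ k, N ((F - tr t c) k) ≤ (m : ℝ) * (ε / (4 * W2 * (|B| + 1) * (m + 1))) := by
        have : ∀ k ∈ (Finset.univ : Finset (Fin m)), N ((F - tr t c) k) ≤
            ε / (4 * W2 * (|B| + 1) * (m + 1)) := by
          intro k _
          refine le_trans (le_of_eq ?_) (hck k).le
          congr 1
          ext s
          rw [Pi.sub_apply, Pi.sub_apply, htrk]
        refine (Finset.sum_le_sum this).trans (le_of_eq ?_)
        rw [Finset.sum_const, Finset.card_univ, Fintype.card_fin, nsmul_eq_mul]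
      have e7 : ∑ j, w j * N ((fun s => f' (γ j s)) - S (tr t c) j) ≤
          W2 * ∑ j, (2 * N ((fun s => f' (γ j s)) - S F j) + 2 * N (S (F - tr t c) j)) := by
        rw [Finset.mul_sum]
        apply Finset.sum_le_sum
        intro j _
        have h6 := N_nonneg ((fun s => f' (γ j s)) - S (tr t c) j)
        calc _ ≤ W2 * N ((fun s => f' (γ j s)) - S (tr t c) j) := by
              gcongr
              exact (hWj j).2
          _ ≤ _ := by
              gcongr
              exact e4 j
      refine lt_of_le_of_lt e7 ?_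
      rw [Finset.sum_add_distrib, ← Finset.mul_sum, ← Finset.mul_sum]
      have e8 : |B| * ((m : ℝ) * (ε / (4 * W2 * (|B| + 1) * (m + 1)))) ≤ ε / (4 * W2) := by
        have hb := abs_nonneg B
        have h7 : |B| * ((m : ℝ) * (ε / (4 * W2 * (|B| + 1) * (m + 1)))) =
            (ε / (4 * W2)) * ((|B| / (|B| + 1)) * (m / (m + 1))) := by
          field_simp
        rw [h7]
        have h8 : |B| / (|B| + 1) ≤ 1 := by
          rw [div_le_one (by positivity)]
          linarith
        have h9 : (m : ℝ) / (m + 1) ≤ 1 := by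
          rw [div_le_one (by positivity)]
          linarith
        have h10 : (|B| / (|B| + 1)) * ((m : ℝ) / (m + 1)) ≤ 1 := by
          calc _ ≤ (1 : ℝ) * 1 := by gcongr
            _ = 1 := one_mul 1
        calc _ ≤ (ε / (4 * W2)) * 1 := by gcongr
          _ = _ := mul_one _
      have e9 : ∑ j, N (S (F - tr t c) j) ≤ ε / (4 * W2) := by
        refine e5.trans (le_trans ?_ e8)
        gcongr
      have e10 : W2 * (2 * (ε / (4 * W2)) + 2 * (ε / (4 * W2))) = ε := by
        field_simp
        ring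
      calc _ < W2 * (2 * (ε / (4 * W2)) + 2 * (ε / (4 * W2))) := by
            apply mul_lt_mul_of_pos_left _ hW2
            linarith
        _ = ε := e10
  · -- the two bounds
    refine ⟨W1 * A, max (W2 * |B|) (W1 * A), by positivity, le_max_right _ _, fun s c hs => ?_⟩
    set t : Finset (Fin m × ℤ) := s.preimage l hl.injOn with ht
    have hst : s = t.image l := by
      ext x
      rw [Finset.mem_image]
      constructor
      · intro hx
        obtain ⟨i, rfl⟩ := hs x hx
        exact ⟨i, Finset.mem_preimage.mpr hx, rfl⟩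
      · rintro ⟨i, hi, rfl⟩
        exact Finset.mem_preimage.mp hi
    set t' : Finset ℤ := t.image Prod.snd with ht'
    set c' : Fin m × ℤ → ℂ := fun i => if i ∈ t then c (l i) else 0 with hc'
    have hsub : t ⊆ (Finset.univ : Finset (Fin m)) ×ˢ t' := by
      intro i hi
      rw [Finset.mem_product]
      exact ⟨Finset.mem_univ _, Finset.mem_image_of_mem _ hi⟩
    have e1 : ∀ x, ∑ y ∈ s, c y * ex y x =
        ∑ i ∈ (Finset.univ : Finset (Fin m)) ×ˢ t', c' i * ex (l i) x := by
      intro x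
      rw [hst, Finset.sum_image (fun i _ j _ h => hl h), ← Finset.sum_subset hsub
        (f := fun i => c' i * ex (l i) x)]
      · apply Finset.sum_congr rfl
        intro i hi
        simp only [hc', if_pos hi]
      · intro i _ hi
        simp only [hc', if_neg hi, zero_mul]
    have e2 : ∑ y ∈ s, ‖c y‖ ^ 2 = ∑ i ∈ (Finset.univ : Finset (Fin m)) ×ˢ t', ‖c' i‖ ^ 2 := by
      rw [hst, Finset.sum_image (fun i _ j _ h => hl h), ← Finset.sum_subset hsub
        (f := fun i => ‖c' i‖ ^ 2)]
      · apply Finset.sum_congr rfl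
        intro i hi
        simp only [hc', if_pos hi]
      · intro i _ hi
        simp [hc', if_neg hi]
    simp only [e1]
    rw [e2, hint, ← trN]
    have h1 := hlow (tr t' c') (tr2 t' c')
    have h2 := hup (tr t' c') (tr2 t' c')
    have h3 : 0 ≤ ∑ k, N (tr t' c' k) := Finset.sum_nonneg fun k _ => N_nonneg _
    constructor
    · calc W1 * A * ∑ k, N (tr t' c' k) = W1 * (A * ∑ k, N (tr t' c' k)) := by ring
        _ ≤ W1 * ∑ j, N (S (tr t' c') j) := by gcongr
        _ = ∑ j, W1 * N (S (tr t' c') j) := Finset.mul_sum _ _ _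
        _ ≤ ∑ j, w j * N (S (tr t' c') j) := by
            apply Finset.sum_le_sum
            intro j _
            have := N_nonneg (S (tr t' c') j)
            gcongr
            exact (hWj j).1
    · calc ∑ j, w j * N (S (tr t' c') j) ≤ ∑ j, W2 * N (S (tr t' c') j) := by
            apply Finset.sum_le_sum
            intro j _
            have := N_nonneg (S (tr t' c') j)
            gcongr
            exact (hWj j).2
        _ = W2 * ∑ j, N (S (tr t' c') j) := (Finset.mul_sum _ _ _).symm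
        _ ≤ W2 * (B * ∑ k, N (tr t' c' k)) := by gcongr
        _ ≤ W2 * (|B| * ∑ k, N (tr t' c' k)) := by
            gcongr
            exact le_abs_self B
        _ = (W2 * |B|) * ∑ k, N (tr t' c' k) := by ring
        _ ≤ _ := by
            gcongr
            exact le_max_left _ _

end Pool.Agent.R244.RB
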