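import Mathlib

/-!
The length measure on the boundary of a triangle and of a parallelogram.
-/

set_option autoImplicit false

namespace Pool.Agent.R244.RB

open MeasureTheory Set
open scoped MeasureTheory

/-- the length measure on a segment -/
lemma haus_seg (P Q : EuclideanSpace ℝ (Fin 2)) :
    (μH[1] : Measure (EuclideanSpace ℝ (Fin 2))).restrict (segment ℝ P Q) =
      ENNReal.ofReal (dist P Q) •
        Measure.map (fun s : ℝ => P + s • (Q - P)) (volume.restrict (Ioc (0 : ℝ) 1)) := by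
  have hγ : Continuous fun s : ℝ => P + s • (Q - P) := by fun_prop
  have hlm : (fun s : ℝ => P + s • (Q - P)) = AffineMap.lineMap P Q := by
    ext s : 1
    rw [AffineMap.lineMap_apply_module']
    abel
  ext A hA
  rw [Measure.restrict_apply hA, Measure.smul_apply, Measure.map_apply hγ.measurable hA,
    Measure.restrict_apply (hγ.measurable hA)]
  have h1 : A ∩ segment ℝ P Q =
      AffineMap.lineMap P Q '' ((fun s : ℝ => P + s • (Q - P)) ⁻¹' A ∩ Icc (0 : ℝ) 1) := by
    rw [segment_eq_image_lineMap, hlm]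
    ext x
    constructor
    · rintro ⟨hx, s, hs, rfl⟩
      exact ⟨s, ⟨hx, hs⟩, rfl⟩
    · rintro ⟨s, ⟨hs1, hs2⟩, rfl⟩
      exact ⟨hs1, s, hs2, rfl⟩
  rw [h1, hausdorffMeasure_lineMap_image, hausdorffMeasure_real, smul_eq_mul]
  have h2 : volume ((fun s : ℝ => P + s • (Q - P)) ⁻¹' A ∩ Icc (0 : ℝ) 1) =
      volume ((fun s : ℝ => P + s • (Q - P)) ⁻¹' A ∩ Ioc (0 : ℝ) 1) := by
    apply measure_congr
    exact (ae_eq_refl _).inter Ioc_ae_eq_Icc.symm
  rw [h2, ENNReal.smul_def, smul_eq_mul, ← edist_dist, edist_nndist]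

/-- the affine coordinates -/
noncomputable def Lmap (u v : EuclideanSpace ℝ (Fin 2)) : ℝ × ℝ →ₗ[ℝ] EuclideanSpace ℝ (Fin 2) where
  toFun p := p.1 • u + p.2 • v
  map_add' := by
    intro p q
    simp only [Prod.fst_add, Prod.snd_add]
    module
  map_smul' := by
    intro c p
    simp only [Prod.smul_fst, Prod.smul_snd, smul_eq_mul, RingHom.id_apply]
    module

lemma Lmap_apply (u v : EuclideanSpace ℝ (Fin 2)) (p : ℝ × ℝ) : Lmap u v p = p.1 • u + p.2 • v := rfl

lemma Lmap_inj {u v : EuclideanSpace ℝ (Fin 2)} (h : LinearIndependent ℝ ![u, v]) :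
    Function.Injective (Lmap u v) := by
  rw [← LinearMap.ker_eq_bot, LinearMap.ker_eq_bot']
  intro p hp
  rw [LinearIndependent.pair_iff] at h
  have := h p.1 p.2 hp
  exact Prod.ext this.1 this.2

/-- the affine coordinates as a homeomorphism -/
noncomputable def Phi {u v : EuclideanSpace ℝ (Fin 2)} (h : LinearIndependent ℝ ![u, v])
    (P : EuclideanSpace ℝ (Fin 2)) : ℝ × ℝ ≃ₜ EuclideanSpace ℝ (Fin 2) :=
  ((LinearMap.linearEquivOfInjective (Lmap u v) (Lmap_inj h)
    (by simp)).toContinuousLinearEquiv.toHomeomorph).trans (Homeomorph.addLeft P)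

lemma Phi_apply {u v : EuclideanSpace ℝ (Fin 2)} (h : LinearIndependent ℝ ![u, v])
    (P : EuclideanSpace ℝ (Fin 2)) (p : ℝ × ℝ) : Phi h P p = P + (p.1 • u + p.2 • v) := rfl

/-- dual coordinates -/
lemma exists_dual {u v : EuclideanSpace ℝ (Fin 2)} (h : LinearIndependent ℝ ![u, v]) :
    ∃ d : ℝ × ℝ → EuclideanSpace ℝ (Fin 2), ∀ p, inner ℝ (d p) u = p.1 ∧ inner ℝ (d p) v = p.2 := by
  set Ψ : EuclideanSpace ℝ (Fin 2) →ₗ[ℝ] ℝ × ℝ :=
    LinearMap.prod (innerₗ (EuclideanSpace ℝ (Fin 2)) u) (innerₗ (EuclideanSpace ℝ (Fin 2)) v) with hΨ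
  have hinj : Function.Injective Ψ := by
    rw [← LinearMap.ker_eq_bot, LinearMap.ker_eq_bot']
    intro l hl
    have h1 : inner ℝ u l = 0 := congrArg Prod.fst hl
    have h2 : inner ℝ v l = 0 := congrArg Prod.snd hl
    obtain ⟨p, hp⟩ := (Phi h 0).surjective l
    rw [Phi_apply, zero_add] at hp
    have h3 : inner ℝ l l = 0 := by
      nth_rewrite 1 [← hp]
      rw [inner_add_left, inner_smul_left, inner_smul_left, h1, h2]
      simp
    exact inner_self_eq_zero.mp h3
  have hsurj : Function.Surjective Ψ :=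
    (LinearMap.injective_iff_surjective_of_finrank_eq_finrank (by simp)).mp hinj
  choose d hd using hsurj
  refine ⟨d, fun p => ⟨?_, ?_⟩⟩
  · rw [real_inner_comm]
    exact congrArg Prod.fst (hd p)
  · rw [real_inner_comm]
    exact congrArg Prod.snd (hd p)

/-- the standard triangle -/
def T0 : Set (ℝ × ℝ) := {p | 0 ≤ p.1 ∧ 0 ≤ p.2 ∧ p.1 + p.2 ≤ 1}

lemma T0_hull : T0 = convexHull ℝ {((0 : ℝ), (0 : ℝ)), (1, 0), (0, 1)} := by
  apply Set.Subset.antisymm
  · rintro ⟨x, y⟩ ⟨h1, h2, h3⟩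
    simp only at h1 h2 h3
    have c := convex_convexHull ℝ ({((0 : ℝ), (0 : ℝ)), (1, 0), (0, 1)} : Set (ℝ × ℝ))
    have m0 : ((0 : ℝ), (0 : ℝ)) ∈ convexHull ℝ ({((0 : ℝ), (0 : ℝ)), (1, 0), (0, 1)} : Set (ℝ × ℝ)) :=
      subset_convexHull _ _ (by simp)
    have m1 : ((1 : ℝ), (0 : ℝ)) ∈ convexHull ℝ ({((0 : ℝ), (0 : ℝ)), (1, 0), (0, 1)} : Set (ℝ × ℝ)) :=
      subset_convexHull _ _ (by simp)
    have m2 : ((0 : ℝ), (1 : ℝ)) ∈ convexHull ℝ ({((0 : ℝ), (0 : ℝ)), (1, 0), (0, 1)} : Set (ℝ × ℝ)) :=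
      subset_convexHull _ _ (by simp)
    have := c.sum_mem (t := (Finset.univ : Finset (Fin 3))) (w := ![1 - x - y, x, y])
      (z := ![((0 : ℝ), (0 : ℝ)), (1, 0), (0, 1)]) (by
        intro i _
        fin_cases i <;> simp <;> linarith) (by
        simp [Fin.sum_univ_three]
        ring) (by
        intro i _
        fin_cases i
        · exact m0
        · exact m1
        · exact m2)
    simpa [Fin.sum_univ_three] using this
  · apply convexHull_min
    · intro p hp
      simp only [Set.mem_insert_iff, Set.mem_singleton_iff] at hp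
      rcases hp with rfl | rfl | rfl <;> simp [T0]
    · intro p hp q hq a b ha hb hab
      obtain ⟨p1, p2, p3⟩ := hp
      obtain ⟨q1, q2, q3⟩ := hq
      refine ⟨?_, ?_, ?_⟩
      · simp only [Prod.fst_add, Prod.smul_fst, smul_eq_mul]
        positivity
      · simp only [Prod.snd_add, Prod.smul_snd, smul_eq_mul]
        positivity
      · simp only [Prod.fst_add, Prod.smul_fst, smul_eq_mul, Prod.snd_add, Prod.smul_snd]
        nlinarith

lemma T0_frontier : frontier T0 = segment ℝ ((0 : ℝ), (0 : ℝ)) (1, 0) ∪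
    (segment ℝ ((1 : ℝ), (0 : ℝ)) (0, 1) ∪ segment ℝ ((0 : ℝ), (1 : ℝ)) (0, 0)) := by
  have hT : T0 = (Prod.fst ⁻¹' Ici (0 : ℝ)) ∩ ((Prod.snd ⁻¹' Ici (0 : ℝ)) ∩
      ((fun p : ℝ × ℝ => p.1 + p.2) ⁻¹' Iic 1)) := by
    ext p
    simp [T0]
  have hcl : IsClosed T0 := by
    rw [hT]
    exact (isClosed_Ici.preimage continuous_fst).inter ((isClosed_Ici.preimage continuous_snd).inter
      (isClosed_Iic.preimage (continuous_fst.add continuous_snd)))
  have hopen : IsOpenMap (fun p : ℝ × ℝ => p.1 + p.2) := by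
    have h1 := (ContinuousLinearMap.fst ℝ ℝ ℝ + ContinuousLinearMap.snd ℝ ℝ ℝ).isOpenMap (by
      intro x
      exact ⟨(x, 0), by simp⟩)
    exact h1
  have hint : interior T0 = {p | 0 < p.1 ∧ 0 < p.2 ∧ p.1 + p.2 < 1} := by
    rw [hT, interior_inter, interior_inter,
      ← isOpenMap_fst.preimage_interior_eq_interior_preimage continuous_fst,
      ← isOpenMap_snd.preimage_interior_eq_interior_preimage continuous_snd,
      ← hopen.preimage_interior_eq_interior_preimage (continuous_fst.add continuous_snd),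
      interior_Ici, interior_Iic]
    ext p
    simp
  rw [hcl.frontier_eq, hint]
  ext ⟨x, y⟩
  simp only [segment_eq_image, Set.mem_sdiff, Set.mem_union, Set.mem_image, T0, Set.mem_ofPred_eq,
    Prod.smul_mk, Prod.mk_add_mk, smul_eq_mul, Prod.mk.injEq, mul_zero, mul_one, add_zero, zero_add]
  constructor
  · rintro ⟨⟨h1, h2, h3⟩, h4⟩
    by_cases hy : y = 0
    · left
      exact ⟨x, ⟨h1, by linarith⟩, rfl, hy.symm⟩
    · by_cases hx : x = 0
      · right; right
        refine ⟨1 - y, ⟨by linarith, by linarith⟩, hx.symm, by ring⟩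
      · right; left
        have h5 : x + y = 1 := by
          by_contra h5
          apply h4
          exact ⟨lt_of_le_of_ne h1 (Ne.symm hx), lt_of_le_of_ne h2 (Ne.symm hy),
            lt_of_le_of_ne h3 h5⟩
        exact ⟨y, ⟨h2, by linarith⟩, by linarith, rfl⟩
  · rintro (⟨s, ⟨hs1, hs2⟩, h1, h2⟩ | ⟨s, ⟨hs1, hs2⟩, h1, h2⟩ | ⟨s, ⟨hs1, hs2⟩, h1, h2⟩)
    · refine ⟨⟨by linarith, by linarith, by linarith⟩, fun h => by linarith [h.2.1]⟩
    · refine ⟨⟨by linarith, by linarith, by linarith⟩, fun h => by linarith [h.2.2]⟩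
    · refine ⟨⟨by linarith, by linarith, by linarith⟩, fun h => by linarith [h.1]⟩

/-- the affine coordinates as an affine map -/
noncomputable def PhiA (u v P : EuclideanSpace ℝ (Fin 2)) : ℝ × ℝ →ᵃ[ℝ] EuclideanSpace ℝ (Fin 2) :=
  AffineMap.const ℝ (ℝ × ℝ) P + (Lmap u v).toAffineMap

lemma PhiA_apply (u v P : EuclideanSpace ℝ (Fin 2)) (p : ℝ × ℝ) :
    PhiA u v P p = P + (p.1 • u + p.2 • v) := rfl

lemma PhiA_segment (u v P : EuclideanSpace ℝ (Fin 2)) (p q : ℝ × ℝ) :
    PhiA u v P '' segment ℝ p q = segment ℝ (PhiA u v P p) (PhiA u v P q) := by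
  rw [← convexHull_pair, AffineMap.image_convexHull, Set.image_pair, convexHull_pair]

lemma Phi_eq_PhiA {u v : EuclideanSpace ℝ (Fin 2)} (h : LinearIndependent ℝ ![u, v])
    (P : EuclideanSpace ℝ (Fin 2)) : (Phi h P : ℝ × ℝ → EuclideanSpace ℝ (Fin 2)) = PhiA u v P := rfl

lemma null_of_finite {s : Set (EuclideanSpace ℝ (Fin 2))} (hs : s.Finite) :
    (μH[1] : Measure (EuclideanSpace ℝ (Fin 2))) s = 0 := by
  have := Measure.nullSingletonClass_hausdorff (EuclideanSpace ℝ (Fin 2)) (d := 1) one_pos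
  exact hs.measure_zero _

lemma seg_closed (P Q : EuclideanSpace ℝ (Fin 2)) : IsClosed (segment ℝ P Q) := by
  rw [← convexHull_pair]
  exact ((Set.toFinite {P, Q}).isCompact_convexHull ℝ).isClosed

/-- **The length measure of a triangle.** -/
lemma tri_measure (A B C : EuclideanSpace ℝ (Fin 2)) (h : LinearIndependent ℝ ![B - A, C - A]) :
    (μH[1] : Measure (EuclideanSpace ℝ (Fin 2))).restrict (frontier (convexHull ℝ {A, B, C})) =
      ∑ j : Fin 3, ENNReal.ofReal ((![dist A B, dist B C, dist C A] : Fin 3 → ℝ) j) •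
        Measure.map ((![fun s => A + s • (B - A), fun s => B + s • (C - B),
          fun s => C + s • (A - C)] : Fin 3 → ℝ → EuclideanSpace ℝ (Fin 2)) j)
          (volume.restrict (Ioc (0 : ℝ) 1)) := by
  have hA : PhiA (B - A) (C - A) A (0, 0) = A := by simp [PhiA_apply]
  have hB : PhiA (B - A) (C - A) A (1, 0) = B := by simp [PhiA_apply]
  have hC : PhiA (B - A) (C - A) A (0, 1) = C := by simp [PhiA_apply]
  have hhull : convexHull ℝ {A, B, C} = PhiA (B - A) (C - A) A '' T0 := by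
    rw [T0_hull, AffineMap.image_convexHull]
    congr 1
    rw [Set.image_insert_eq, Set.image_pair, hA, hB, hC]
  have hfr : frontier (convexHull ℝ {A, B, C}) = segment ℝ A B ∪ (segment ℝ B C ∪ segment ℝ C A) := by
    rw [hhull, ← Phi_eq_PhiA h, ← Homeomorph.image_frontier, T0_frontier, Phi_eq_PhiA,
      Set.image_union, Set.image_union, PhiA_segment, PhiA_segment, PhiA_segment, hA, hB, hC]
  have hinj : Function.Injective (PhiA (B - A) (C - A) A) := by
    rw [← Phi_eq_PhiA h]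
    exact (Phi h A).injective
  have d1 : (segment ℝ A B ∩ (segment ℝ B C ∪ segment ℝ C A)).Finite := by
    have e : segment ℝ A B ∩ (segment ℝ B C ∪ segment ℝ C A) =
        PhiA (B - A) (C - A) A '' (segment ℝ ((0 : ℝ), (0 : ℝ)) (1, 0) ∩
          (segment ℝ ((1 : ℝ), (0 : ℝ)) (0, 1) ∪ segment ℝ ((0 : ℝ), (1 : ℝ)) (0, 0))) := by
      rw [Set.image_inter hinj, Set.image_union, PhiA_segment, PhiA_segment, PhiA_segment, hA, hB, hC]
    rw [e]
    apply Set.Finite.image
    apply (Set.toFinite {((0 : ℝ), (0 : ℝ)), (1, 0)}).subset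
    rintro ⟨x, y⟩ ⟨h1, h2⟩
    simp only [segment_eq_image, Set.mem_union, Set.mem_image,
      Prod.smul_mk, Prod.mk_add_mk, smul_eq_mul, Prod.mk.injEq, mul_zero, mul_one, add_zero,
      zero_add] at h1 h2
    simp only [Set.mem_insert_iff, Set.mem_singleton_iff, Prod.mk.injEq]
    obtain ⟨s, ⟨hs1, hs2⟩, h3, h4⟩ := h1
    rcases h2 with ⟨t, ⟨ht1, ht2⟩, h5, h6⟩ | ⟨t, ⟨ht1, ht2⟩, h5, h6⟩
    · right
      constructor <;> linarith
    · left
      constructor <;> linarith
  have d2 : (segment ℝ B C ∩ segment ℝ C A).Finite := by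
    have e : segment ℝ B C ∩ segment ℝ C A =
        PhiA (B - A) (C - A) A '' (segment ℝ ((1 : ℝ), (0 : ℝ)) (0, 1) ∩
          segment ℝ ((0 : ℝ), (1 : ℝ)) (0, 0)) := by
      rw [Set.image_inter hinj, PhiA_segment, PhiA_segment, hA, hB, hC]
    rw [e]
    apply Set.Finite.image
    apply (Set.toFinite {((0 : ℝ), (1 : ℝ))}).subset
    rintro ⟨x, y⟩ ⟨h1, h2⟩
    simp only [segment_eq_image, Set.mem_image,
      Prod.smul_mk, Prod.mk_add_mk, smul_eq_mul, Prod.mk.injEq, mul_zero, mul_one, add_zero,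
      zero_add] at h1 h2
    simp only [Set.mem_singleton_iff, Prod.mk.injEq]
    obtain ⟨s, ⟨hs1, hs2⟩, h3, h4⟩ := h1
    obtain ⟨t, ⟨ht1, ht2⟩, h5, h6⟩ := h2
    constructor <;> linarith
  have m2 : MeasurableSet (segment ℝ B C) := (seg_closed B C).measurableSet
  have m3 : MeasurableSet (segment ℝ C A) := (seg_closed C A).measurableSet
  rw [hfr, Measure.restrict_union₀ (null_of_finite d1) (m2.union m3).nullMeasurableSet,
    Measure.restrict_union₀ (null_of_finite d2) m3.nullMeasurableSet, haus_seg, haus_seg, haus_seg,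
    Fin.sum_univ_three, ← add_assoc]
  rfl

end Pool.Agent.R244.RB
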