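import Mathlib
import Pool.Agent.R244.RBGeom

/-!
The length measure on the boundary of a parallelogram.
-/

set_option autoImplicit false

namespace Pool.Agent.R244.RB

open MeasureTheory Set
open scoped MeasureTheory

lemma sq_hull : (Icc (0 : ℝ) 1 ×ˢ Icc (0 : ℝ) 1) =
    convexHull ℝ {((0 : ℝ), (0 : ℝ)), (1, 0), (0, 1), (1, 1)} := by
  have h : (({((0 : ℝ), (0 : ℝ)), (1, 0), (0, 1), (1, 1)} : Set (ℝ × ℝ))) =
      ({0, 1} : Set ℝ) ×ˢ ({0, 1} : Set ℝ) := by
    ext ⟨x, y⟩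
    simp only [Set.mem_insert_iff, Set.mem_singleton_iff, Prod.mk.injEq, Set.mem_prod]
    tauto
  rw [h, convexHull_prod, convexHull_pair, segment_eq_Icc zero_le_one]

lemma sq_frontier : frontier (Icc (0 : ℝ) 1 ×ˢ Icc (0 : ℝ) 1) =
    segment ℝ ((0 : ℝ), (0 : ℝ)) (1, 0) ∪ (segment ℝ ((0 : ℝ), (1 : ℝ)) (1, 1) ∪
      (segment ℝ ((0 : ℝ), (0 : ℝ)) (0, 1) ∪ segment ℝ ((1 : ℝ), (0 : ℝ)) (1, 1))) := by
  rw [frontier_prod_eq, closure_Icc, frontier_Icc zero_le_one]
  ext ⟨x, y⟩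
  simp only [segment_eq_image, Set.mem_union, Set.mem_image, Set.mem_prod, Set.mem_insert_iff,
    Set.mem_singleton_iff, Set.mem_Icc,
    Prod.smul_mk, Prod.mk_add_mk, smul_eq_mul, Prod.mk.injEq, mul_zero, mul_one, add_zero, zero_add]
  constructor
  · rintro (⟨⟨h1, h2⟩, h3 | h3⟩ | ⟨h3 | h3, h1, h2⟩)
    · left
      exact ⟨x, ⟨h1, h2⟩, rfl, h3.symm⟩
    · right; left
      exact ⟨x, ⟨h1, h2⟩, rfl, by rw [h3]; ring⟩
    · right; right; left
      exact ⟨y, ⟨h1, h2⟩, h3.symm, rfl⟩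
    · right; right; right
      exact ⟨y, ⟨h1, h2⟩, by rw [h3]; ring, rfl⟩
  · rintro (⟨s, ⟨hs1, hs2⟩, h1, h2⟩ | ⟨s, ⟨hs1, hs2⟩, h1, h2⟩ | ⟨s, ⟨hs1, hs2⟩, h1, h2⟩ |
      ⟨s, ⟨hs1, hs2⟩, h1, h2⟩)
    · left
      exact ⟨⟨by linarith, by linarith⟩, Or.inl h2.symm⟩
    · left
      exact ⟨⟨by linarith, by linarith⟩, Or.inr (by linarith)⟩
    · right
      exact ⟨Or.inl h1.symm, by linarith, by linarith⟩
    · right
      exact ⟨Or.inr (by linarith), by linarith, by linarith⟩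

/-- **The length measure of a parallelogram.** -/
lemma sq_measure (P u v : EuclideanSpace ℝ (Fin 2)) (h : LinearIndependent ℝ ![u, v]) :
    (μH[1] : Measure (EuclideanSpace ℝ (Fin 2))).restrict
      (frontier (convexHull ℝ {P, P + u, P + v, P + (u + v)})) =
      ∑ j : Fin 4, ENNReal.ofReal ((![‖u‖, ‖u‖, ‖v‖, ‖v‖] : Fin 4 → ℝ) j) •
        Measure.map ((![fun s => P + s • u, fun s => P + (v + s • u),
          fun s => P + s • v, fun s => P + (u + s • v)] :
            Fin 4 → ℝ → EuclideanSpace ℝ (Fin 2)) j)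
          (volume.restrict (Ioc (0 : ℝ) 1)) := by
  have h00 : PhiA u v P (0, 0) = P := by simp [PhiA_apply]
  have h10 : PhiA u v P (1, 0) = P + u := by simp [PhiA_apply]
  have h01 : PhiA u v P (0, 1) = P + v := by simp [PhiA_apply]
  have h11 : PhiA u v P (1, 1) = P + (u + v) := by simp [PhiA_apply]
  have hhull : convexHull ℝ {P, P + u, P + v, P + (u + v)} =
      PhiA u v P '' (Icc (0 : ℝ) 1 ×ˢ Icc (0 : ℝ) 1) := by
    rw [sq_hull, AffineMap.image_convexHull]
    congr 1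
    rw [Set.image_insert_eq, Set.image_insert_eq, Set.image_pair, h00, h10, h01, h11]
  have hfr : frontier (convexHull ℝ {P, P + u, P + v, P + (u + v)}) =
      segment ℝ P (P + u) ∪ (segment ℝ (P + v) (P + (u + v)) ∪
        (segment ℝ P (P + v) ∪ segment ℝ (P + u) (P + (u + v)))) := by
    rw [hhull, ← Phi_eq_PhiA h, ← Homeomorph.image_frontier, sq_frontier, Phi_eq_PhiA,
      Set.image_union, Set.image_union, Set.image_union, PhiA_segment, PhiA_segment, PhiA_segment,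
      PhiA_segment, h00, h10, h01, h11]
  have hinj : Function.Injective (PhiA u v P) := by
    rw [← Phi_eq_PhiA h]
    exact (Phi h P).injective
  have d1 : (segment ℝ P (P + u) ∩ (segment ℝ (P + v) (P + (u + v)) ∪
        (segment ℝ P (P + v) ∪ segment ℝ (P + u) (P + (u + v))))).Finite := by
    have e : segment ℝ P (P + u) ∩ (segment ℝ (P + v) (P + (u + v)) ∪
        (segment ℝ P (P + v) ∪ segment ℝ (P + u) (P + (u + v)))) =
        PhiA u v P '' (segment ℝ ((0 : ℝ), (0 : ℝ)) (1, 0) ∩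
          (segment ℝ ((0 : ℝ), (1 : ℝ)) (1, 1) ∪
      (segment ℝ ((0 : ℝ), (0 : ℝ)) (0, 1) ∪ segment ℝ ((1 : ℝ), (0 : ℝ)) (1, 1)))) := by
      rw [Set.image_inter hinj, Set.image_union, Set.image_union, PhiA_segment, PhiA_segment,
        PhiA_segment, PhiA_segment, h00, h10, h01, h11]
    rw [e]
    apply Set.Finite.image
    apply (Set.toFinite {((0 : ℝ), (0 : ℝ)), (1, 0)}).subset
    rintro ⟨x, y⟩ ⟨h1, h2⟩
    simp only [segment_eq_image, Set.mem_union, Set.mem_image,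
      Prod.smul_mk, Prod.mk_add_mk, smul_eq_mul, Prod.mk.injEq, mul_zero, mul_one, add_zero,
      zero_add] at h1 h2
    simp only [Set.mem_insert_iff, Set.mem_singleton_iff, Prod.mk.injEq]
    obtain ⟨s, ⟨hs1, hs2⟩, h3, h4⟩ := h1
    rcases h2 with ⟨t, ⟨ht1, ht2⟩, h5, h6⟩ | ⟨t, ⟨ht1, ht2⟩, h5, h6⟩ | ⟨t, ⟨ht1, ht2⟩, h5, h6⟩
    · exfalso
      linarith
    · left
      constructor <;> linarith
    · right
      constructor <;> linarith
  have d2 : (segment ℝ (P + v) (P + (u + v)) ∩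
        (segment ℝ P (P + v) ∪ segment ℝ (P + u) (P + (u + v)))).Finite := by
    have e : segment ℝ (P + v) (P + (u + v)) ∩
        (segment ℝ P (P + v) ∪ segment ℝ (P + u) (P + (u + v))) =
        PhiA u v P '' (segment ℝ ((0 : ℝ), (1 : ℝ)) (1, 1) ∩
      (segment ℝ ((0 : ℝ), (0 : ℝ)) (0, 1) ∪ segment ℝ ((1 : ℝ), (0 : ℝ)) (1, 1))) := by
      rw [Set.image_inter hinj, Set.image_union, PhiA_segment, PhiA_segment,
        PhiA_segment, h00, h10, h01, h11]
    rw [e]
    apply Set.Finite.image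
    apply (Set.toFinite {((0 : ℝ), (1 : ℝ)), (1, 1)}).subset
    rintro ⟨x, y⟩ ⟨h1, h2⟩
    simp only [segment_eq_image, Set.mem_union, Set.mem_image,
      Prod.smul_mk, Prod.mk_add_mk, smul_eq_mul, Prod.mk.injEq, mul_zero, mul_one, add_zero,
      zero_add] at h1 h2
    simp only [Set.mem_insert_iff, Set.mem_singleton_iff, Prod.mk.injEq]
    obtain ⟨s, ⟨hs1, hs2⟩, h3, h4⟩ := h1
    rcases h2 with ⟨t, ⟨ht1, ht2⟩, h5, h6⟩ | ⟨t, ⟨ht1, ht2⟩, h5, h6⟩
    · left
      constructor <;> linarith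
    · right
      constructor <;> linarith
  have d3 : (segment ℝ P (P + v) ∩ segment ℝ (P + u) (P + (u + v))).Finite := by
    have e : segment ℝ P (P + v) ∩ segment ℝ (P + u) (P + (u + v)) =
        PhiA u v P '' (segment ℝ ((0 : ℝ), (0 : ℝ)) (0, 1) ∩ segment ℝ ((1 : ℝ), (0 : ℝ)) (1, 1)) := by
      rw [Set.image_inter hinj, PhiA_segment, PhiA_segment, h00, h10, h01, h11]
    rw [e]
    apply Set.Finite.image
    apply Set.finite_empty.subset
    rintro ⟨x, y⟩ ⟨h1, h2⟩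
    simp only [segment_eq_image, Set.mem_image,
      Prod.smul_mk, Prod.mk_add_mk, smul_eq_mul, Prod.mk.injEq, mul_zero, mul_one, add_zero,
      zero_add] at h1 h2
    obtain ⟨s, ⟨hs1, hs2⟩, h3, h4⟩ := h1
    obtain ⟨t, ⟨ht1, ht2⟩, h5, h6⟩ := h2
    exfalso
    linarith
  have m2 : MeasurableSet (segment ℝ (P + v) (P + (u + v))) := (seg_closed _ _).measurableSet
  have m3 : MeasurableSet (segment ℝ P (P + v)) := (seg_closed _ _).measurableSet
  have m4 : MeasurableSet (segment ℝ (P + u) (P + (u + v))) := (seg_closed _ _).measurableSet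
  rw [hfr, Measure.restrict_union₀ (null_of_finite d1) (m2.union (m3.union m4)).nullMeasurableSet,
    Measure.restrict_union₀ (null_of_finite d2) (m3.union m4).nullMeasurableSet,
    Measure.restrict_union₀ (null_of_finite d3) m4.nullMeasurableSet,
    haus_seg, haus_seg, haus_seg, haus_seg, Fin.sum_univ_four, ← add_assoc, ← add_assoc]
  have e1 : dist P (P + u) = ‖u‖ := by simp [dist_eq_norm]
  have e2 : dist (P + v) (P + (u + v)) = ‖u‖ := by
    rw [dist_eq_norm, show P + v - (P + (u + v)) = -u by abel, norm_neg]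
  have e3 : dist P (P + v) = ‖v‖ := by simp [dist_eq_norm]
  have e4 : dist (P + u) (P + (u + v)) = ‖v‖ := by
    rw [dist_eq_norm, show P + u - (P + (u + v)) = -v by abel, norm_neg]
  have f1 : (fun s : ℝ => P + s • (P + u - P)) = fun s => P + s • u := by
    ext s : 1
    module
  have f2 : (fun s : ℝ => P + v + s • (P + (u + v) - (P + v))) = fun s => P + (v + s • u) := by
    ext s : 1
    module
  have f3 : (fun s : ℝ => P + s • (P + v - P)) = fun s => P + s • v := by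
    ext s : 1
    module
  have f4 : (fun s : ℝ => P + u + s • (P + (u + v) - (P + u))) = fun s => P + (u + s • v) := by
    ext s : 1
    module
  rw [e1, e2, e3, e4, f1, f2, f3, f4]
  rfl

end Pool.Agent.R244.RB
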