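import Mathlib
import Pool.Agent.R244.RBBase
import Pool.Agent.R244.RBGeom

/-!
The synthesis operator for the parallelogram and the length measure on its boundary.
-/

set_option autoImplicit false

namespace Pool.Agent.R244.RB

open MeasureTheory Set Complex
open scoped MeasureTheory

/-- `e(r)` -/
noncomputable def Ee (r : ℝ) : ℂ := cexp (2 * Real.pi * I * (r : ℝ))

lemma Ee_add (a b : ℝ) : Ee (a + b) = Ee a * Ee b := by
  unfold Ee
  rw [← Complex.exp_add]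
  congr 1
  push_cast
  ring

lemma Ee_int (n : ℤ) : Ee n = 1 := by
  unfold Ee
  have := Complex.exp_int_mul_two_pi_mul_I n
  rw [← this]
  congr 1
  push_cast
  ring

lemma Ee_half : Ee (1 / 2) = -1 := by
  unfold Ee
  have : (2 * Real.pi * I * ((1 / 2 : ℝ) : ℂ)) = Real.pi * I := by
    push_cast
    ring
  rw [this, Complex.exp_pi_mul_I]

lemma Ee_zero : Ee 0 = 1 := by
  have := Ee_int 0
  rwa [Int.cast_zero] at this

lemma Ee_add_int (a : ℝ) (n : ℤ) : Ee (a + n) = Ee a := by rw [Ee_add, Ee_int, mul_one]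

lemma Ee_norm (r : ℝ) : ‖Ee r‖ = 1 := norm_cexp r

lemma Ee_meas {f : ℝ → ℝ} (hf : Measurable f) : Measurable fun s => Ee (f s) := by
  unfold Ee
  fun_prop

lemma en_eq_Ee (n : ℤ) (s : ℝ) : en n s = Ee (n * s) := rfl

lemma L2.refl {f : ℝ → ℂ} (hf : L2 f) : L2 (fun s => f (1 - s)) := by
  refine ⟨hf.1.comp (by fun_prop), ?_⟩
  have h := hf.2.comp_sub_left 1
  rw [sub_zero, sub_self] at h
  exact h.symm

lemma N_refl (f : ℝ → ℂ) : N (fun s => f (1 - s)) = N f := by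
  unfold N
  rw [intervalIntegral.integral_comp_sub_left (fun s => ‖f s‖ ^ 2) 1]
  simp

lemma N_mul {u f : ℝ → ℂ} (h1 : ∀ s, ‖u s‖ = 1) : N (fun s => u s * f s) = N f :=
  N_congr fun s => by rw [norm_mul, h1, one_mul]

lemma N_half {f : ℝ → ℂ} : N (fun s => f s / 2) = N f / 4 := by
  unfold N
  rw [← intervalIntegral.integral_div]
  congr 1
  ext s
  rw [norm_div]
  norm_num
  ring

lemma N_neg (f : ℝ → ℂ) : N (-f) = N f := N_congr fun s => by simp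

/-- the four combinations -/
lemma N_comb {a b c d : ℝ → ℂ} (ha : L2 a) (hb : L2 b) (hc : L2 c) (hd : L2 d) :
    N (fun s => a s + b s + c s + d s) ≤ 4 * (N a + N b + N c + N d) := by
  have h1 := N_add_le (ha.add hb) (hc.add hd)
  have h2 := N_add_le ha hb
  have h3 := N_add_le hc hd
  have e : (fun s => a s + b s + c s + d s) = (a + b) + (c + d) := by
    ext s
    simp only [Pi.add_apply]
    ring
  rw [e]
  linarith

/-- the synthesis operator of the square -/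
noncomputable def Sq : (Fin 4 → ℝ → ℂ) →ₗ[ℂ] (Fin 4 → ℝ → ℂ) where
  toFun F := ![fun s => F 0 s + F 1 s + Ee (s / 2) * F 2 s + Ee (s / 2) * F 3 s,
    fun s => F 0 s + -F 1 s + Ee (s / 2) * F 2 s + -Ee (s / 2) * F 3 s,
    fun s => F 0 s + Ee (s / 2) * F 1 s + F 2 (1 - s) + Ee (-s / 2) * F 3 (1 - s),
    fun s => F 0 s + Ee (s / 2) * F 1 s + -F 2 (1 - s) + -Ee (-s / 2) * F 3 (1 - s)]
  map_add' := by
    intro G H
    ext j s
    fin_cases j <;> simp <;> ring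
  map_smul' := by
    intro c G
    ext j s
    fin_cases j <;> simp <;> ring

/-- auxiliary functions -/
noncomputable def aux (f : Fin 4 → ℝ → ℂ) : Fin 4 → ℝ → ℂ :=
  ![fun s => (f 0 s + f 1 s) / 2, fun s => Ee (s / 2) * ((f 0 s - f 1 s) / 2),
    fun s => (f 2 s + f 3 s) / 2, fun s => Ee (s / 2) * ((f 2 (1 - s) - f 3 (1 - s)) / 2)]

/-- the inverse of the synthesis operator of the square -/
noncomputable def SqInv (f : Fin 4 → ℝ → ℂ) : Fin 4 → ℝ → ℂ :=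
  ![fun s => (aux f 0 s - aux f 1 s + aux f 2 s - aux f 3 s) / 2,
    fun s => Ee (-s / 2) * ((-aux f 0 s + aux f 1 s + aux f 2 s + aux f 3 s) / 2),
    fun s => Ee (-s / 2) * ((aux f 0 s + aux f 1 s - aux f 2 s + aux f 3 s) / 2),
    fun s => Ee (-s) * ((aux f 0 s + aux f 1 s - aux f 2 s - aux f 3 s) / 2)]

lemma Ee_c1 (s : ℝ) : Ee (s / 2) * Ee (-s / 2) = 1 := by
  rw [← Ee_add, show s / 2 + -s / 2 = 0 by ring, Ee_zero]

lemma Ee_c2 (s : ℝ) : Ee (s / 2) * Ee (-s) = Ee (-s / 2) := by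
  rw [← Ee_add]
  congr 1
  ring

lemma Ee_c3 (s : ℝ) : Ee (-(1 - s) / 2) = -Ee (s / 2) := by
  rw [show -(1 - s) / 2 = (s / 2 + 1 / 2) + ((-1 : ℤ) : ℝ) by push_cast; ring, Ee_add_int, Ee_add,
    Ee_half]
  ring

lemma Ee_c4 (s : ℝ) : Ee (-(1 - s)) = Ee s := by
  rw [show -(1 - s) = s + ((-1 : ℤ) : ℝ) by push_cast; ring, Ee_add_int]

lemma Ee_c5 (s : ℝ) : Ee ((1 - s) / 2) = -Ee (-s / 2) := by
  rw [show (1 - s) / 2 = -s / 2 + 1 / 2 by ring, Ee_add, Ee_half]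
  ring

lemma Ee_c6 (s : ℝ) : Ee (-s / 2) * Ee s = Ee (s / 2) := by
  rw [← Ee_add]
  congr 1
  ring

lemma Sq_SqInv (f : Fin 4 → ℝ → ℂ) : Sq (SqInv f) = f := by
  have hs : ∀ s : ℝ, (1 - (1 - s)) = s := fun s => by ring
  ext j s
  have c1 := Ee_c1 s
  have c2 := Ee_c2 s
  have c6 := Ee_c6 s
  have hj4 : j = 0 ∨ j = 1 ∨ j = 2 ∨ j = 3 := by fin_cases j <;> simp
  rcases hj4 with rfl | rfl | rfl | rfl
  · change SqInv f 0 s + SqInv f 1 s + Ee (s / 2) * SqInv f 2 s + Ee (s / 2) * SqInv f 3 s = f 0 s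
    change (aux f 0 s - aux f 1 s + aux f 2 s - aux f 3 s) / 2 +
      Ee (-s / 2) * ((-aux f 0 s + aux f 1 s + aux f 2 s + aux f 3 s) / 2) +
      Ee (s / 2) * (Ee (-s / 2) * ((aux f 0 s + aux f 1 s - aux f 2 s + aux f 3 s) / 2)) +
      Ee (s / 2) * (Ee (-s) * ((aux f 0 s + aux f 1 s - aux f 2 s - aux f 3 s) / 2)) = f 0 s
    have e0 : aux f 0 s = (f 0 s + f 1 s) / 2 := rfl
    have e1 : aux f 1 s = Ee (s / 2) * ((f 0 s - f 1 s) / 2) := rfl
    linear_combination ((aux f 0 s + aux f 1 s - aux f 2 s + aux f 3 s) / 2) * c1 +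
      ((aux f 0 s + aux f 1 s - aux f 2 s - aux f 3 s) / 2) * c2 + e0 + Ee (-s / 2) * e1 +
      ((f 0 s - f 1 s) / 2) * c1
  · change SqInv f 0 s + -SqInv f 1 s + Ee (s / 2) * SqInv f 2 s + -Ee (s / 2) * SqInv f 3 s = f 1 s
    change (aux f 0 s - aux f 1 s + aux f 2 s - aux f 3 s) / 2 +
      -(Ee (-s / 2) * ((-aux f 0 s + aux f 1 s + aux f 2 s + aux f 3 s) / 2)) +
      Ee (s / 2) * (Ee (-s / 2) * ((aux f 0 s + aux f 1 s - aux f 2 s + aux f 3 s) / 2)) +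
      -Ee (s / 2) * (Ee (-s) * ((aux f 0 s + aux f 1 s - aux f 2 s - aux f 3 s) / 2)) = f 1 s
    have e0 : aux f 0 s = (f 0 s + f 1 s) / 2 := rfl
    have e1 : aux f 1 s = Ee (s / 2) * ((f 0 s - f 1 s) / 2) := rfl
    linear_combination ((aux f 0 s + aux f 1 s - aux f 2 s + aux f 3 s) / 2) * c1 -
      ((aux f 0 s + aux f 1 s - aux f 2 s - aux f 3 s) / 2) * c2 + e0 - Ee (-s / 2) * e1 -
      ((f 0 s - f 1 s) / 2) * c1
  · change SqInv f 0 s + Ee (s / 2) * SqInv f 1 s + SqInv f 2 (1 - s) +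
      Ee (-s / 2) * SqInv f 3 (1 - s) = f 2 s
    change (aux f 0 s - aux f 1 s + aux f 2 s - aux f 3 s) / 2 +
      Ee (s / 2) * (Ee (-s / 2) * ((-aux f 0 s + aux f 1 s + aux f 2 s + aux f 3 s) / 2)) +
      Ee (-(1 - s) / 2) * ((aux f 0 (1 - s) + aux f 1 (1 - s) - aux f 2 (1 - s) +
        aux f 3 (1 - s)) / 2) +
      Ee (-s / 2) * (Ee (-(1 - s)) * ((aux f 0 (1 - s) + aux f 1 (1 - s) - aux f 2 (1 - s) -
        aux f 3 (1 - s)) / 2)) = f 2 s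
    rw [Ee_c3, Ee_c4]
    have e2 : aux f 2 s = (f 2 s + f 3 s) / 2 := rfl
    have e3 : aux f 3 (1 - s) = -Ee (-s / 2) * ((f 2 s - f 3 s) / 2) := by
      change Ee ((1 - s) / 2) * ((f 2 (1 - (1 - s)) - f 3 (1 - (1 - s))) / 2) = _
      rw [hs, Ee_c5]
    linear_combination ((-aux f 0 s + aux f 1 s + aux f 2 s + aux f 3 s) / 2) * c1 + e2 +
      ((aux f 0 (1 - s) + aux f 1 (1 - s) - aux f 2 (1 - s) - aux f 3 (1 - s)) / 2) * c6 -
      Ee (s / 2) * e3 + ((f 2 s - f 3 s) / 2) * c1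
  · change SqInv f 0 s + Ee (s / 2) * SqInv f 1 s + -SqInv f 2 (1 - s) +
      -Ee (-s / 2) * SqInv f 3 (1 - s) = f 3 s
    change (aux f 0 s - aux f 1 s + aux f 2 s - aux f 3 s) / 2 +
      Ee (s / 2) * (Ee (-s / 2) * ((-aux f 0 s + aux f 1 s + aux f 2 s + aux f 3 s) / 2)) +
      -(Ee (-(1 - s) / 2) * ((aux f 0 (1 - s) + aux f 1 (1 - s) - aux f 2 (1 - s) +
        aux f 3 (1 - s)) / 2)) +
      -Ee (-s / 2) * (Ee (-(1 - s)) * ((aux f 0 (1 - s) + aux f 1 (1 - s) - aux f 2 (1 - s) -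
        aux f 3 (1 - s)) / 2)) = f 3 s
    rw [Ee_c3, Ee_c4]
    have e2 : aux f 2 s = (f 2 s + f 3 s) / 2 := rfl
    have e3 : aux f 3 (1 - s) = -Ee (-s / 2) * ((f 2 s - f 3 s) / 2) := by
      change Ee ((1 - s) / 2) * ((f 2 (1 - (1 - s)) - f 3 (1 - (1 - s))) / 2) = _
      rw [hs, Ee_c5]
    linear_combination ((-aux f 0 s + aux f 1 s + aux f 2 s + aux f 3 s) / 2) * c1 + e2 -
      ((aux f 0 (1 - s) + aux f 1 (1 - s) - aux f 2 (1 - s) - aux f 3 (1 - s)) / 2) * c6 +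
      Ee (s / 2) * e3 - ((f 2 s - f 3 s) / 2) * c1

/-- the auxiliary functions of `Sq F` -/
lemma aux_Sq (F : Fin 4 → ℝ → ℂ) (s : ℝ) : aux (Sq F) 0 s = F 0 s + Ee (s / 2) * F 2 s ∧
    aux (Sq F) 1 s = Ee (s / 2) * F 1 s + Ee s * F 3 s ∧
    aux (Sq F) 2 s = F 0 s + Ee (s / 2) * F 1 s ∧
    aux (Sq F) 3 s = Ee (s / 2) * F 2 s - Ee s * F 3 s := by
  have hs : (1 - (1 - s)) = s := by ring
  have c : Ee (s / 2) * Ee (s / 2) = Ee s := by
    rw [← Ee_add]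
    congr 1
    ring
  refine ⟨?_, ?_, ?_, ?_⟩
  · change ((F 0 s + F 1 s + Ee (s / 2) * F 2 s + Ee (s / 2) * F 3 s) +
      (F 0 s + -F 1 s + Ee (s / 2) * F 2 s + -Ee (s / 2) * F 3 s)) / 2 = _
    ring
  · change Ee (s / 2) * (((F 0 s + F 1 s + Ee (s / 2) * F 2 s + Ee (s / 2) * F 3 s) -
      (F 0 s + -F 1 s + Ee (s / 2) * F 2 s + -Ee (s / 2) * F 3 s)) / 2) = _
    linear_combination (F 3 s) * c
  · change ((F 0 s + Ee (s / 2) * F 1 s + F 2 (1 - s) + Ee (-s / 2) * F 3 (1 - s)) +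
      (F 0 s + Ee (s / 2) * F 1 s + -F 2 (1 - s) + -Ee (-s / 2) * F 3 (1 - s))) / 2 = _
    ring
  · change Ee (s / 2) * (((F 0 (1 - s) + Ee ((1 - s) / 2) * F 1 (1 - s) + F 2 (1 - (1 - s)) +
        Ee (-(1 - s) / 2) * F 3 (1 - (1 - s))) -
      (F 0 (1 - s) + Ee ((1 - s) / 2) * F 1 (1 - s) + -F 2 (1 - (1 - s)) +
        -Ee (-(1 - s) / 2) * F 3 (1 - (1 - s)))) / 2) = _
    rw [hs, Ee_c3]
    linear_combination (-F 3 s) * c

lemma SqInv_Sq (F : Fin 4 → ℝ → ℂ) : SqInv (Sq F) = F := by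
  ext j s
  obtain ⟨a0, a1, a2, a3⟩ := aux_Sq F s
  have c1 := Ee_c1 s
  have c3 : Ee s * Ee (-s) = 1 := by
    rw [← Ee_add, add_neg_cancel, Ee_zero]
  have hj4 : j = 0 ∨ j = 1 ∨ j = 2 ∨ j = 3 := by fin_cases j <;> simp
  rcases hj4 with rfl | rfl | rfl | rfl
  · change (aux (Sq F) 0 s - aux (Sq F) 1 s + aux (Sq F) 2 s - aux (Sq F) 3 s) / 2 = F 0 s
    rw [a0, a1, a2, a3]
    ring
  · change Ee (-s / 2) * ((-aux (Sq F) 0 s + aux (Sq F) 1 s + aux (Sq F) 2 s + aux (Sq F) 3 s) / 2) =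
      F 1 s
    rw [a0, a1, a2, a3]
    linear_combination (F 1 s) * c1
  · change Ee (-s / 2) * ((aux (Sq F) 0 s + aux (Sq F) 1 s - aux (Sq F) 2 s + aux (Sq F) 3 s) / 2) =
      F 2 s
    rw [a0, a1, a2, a3]
    linear_combination (F 2 s) * c1
  · change Ee (-s) * ((aux (Sq F) 0 s + aux (Sq F) 1 s - aux (Sq F) 2 s - aux (Sq F) 3 s) / 2) =
      F 3 s
    rw [a0, a1, a2, a3]
    linear_combination (F 3 s) * c3

lemma mulE_L2 {f : ℝ → ℂ} (hf : L2 f) (g : ℝ → ℝ) (hg : Measurable g) :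
    L2 (fun s => Ee (g s) * f s) := hf.mul (Ee_meas hg) (fun s => Ee_norm _)

lemma half_L2 {f : ℝ → ℂ} (hf : L2 f) : L2 (fun s => f s / 2) := by
  have := hf.const_mul (1 / 2)
  refine (congrArg L2 ?_).mpr this
  ext s
  ring

lemma Sq_L2 {F : Fin 4 → ℝ → ℂ} (hF : ∀ k, L2 (F k)) (j : Fin 4) : L2 (Sq F j) := by
  have h0 := hF 0
  have h1 := hF 1
  have h2 := mulE_L2 (hF 2) (fun s => s / 2) (by fun_prop)
  have h3 := mulE_L2 (hF 3) (fun s => s / 2) (by fun_prop)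
  have h1' := mulE_L2 (hF 1) (fun s => s / 2) (by fun_prop)
  have h2' := (hF 2).refl
  have h3' := mulE_L2 (hF 3).refl (fun s => -s / 2) (by fun_prop)
  have hj4 : j = 0 ∨ j = 1 ∨ j = 2 ∨ j = 3 := by fin_cases j <;> simp
  rcases hj4 with rfl | rfl | rfl | rfl
  · exact ((h0.add h1).add h2).add h3
  · refine (congrArg L2 ?_).mpr (((h0.add h1.neg).add h2).add h3.neg)
    ext s
    change F 0 s + -F 1 s + Ee (s / 2) * F 2 s + -Ee (s / 2) * F 3 s =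
      F 0 s + -F 1 s + Ee (s / 2) * F 2 s + -(Ee (s / 2) * F 3 s)
    ring
  · exact ((h0.add h1').add h2').add h3'
  · refine (congrArg L2 ?_).mpr (((h0.add h1').add h2'.neg).add h3'.neg)
    ext s
    change F 0 s + Ee (s / 2) * F 1 s + -F 2 (1 - s) + -Ee (-s / 2) * F 3 (1 - s) =
      F 0 s + Ee (s / 2) * F 1 s + -F 2 (1 - s) + -(Ee (-s / 2) * F 3 (1 - s))
    ring

lemma Sq_upper {F : Fin 4 → ℝ → ℂ} (hF : ∀ k, L2 (F k)) :
    ∑ j, N (Sq F j) ≤ 16 * ∑ k, N (F k) := by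
  have h0 := hF 0
  have h1 := hF 1
  have h2 := mulE_L2 (hF 2) (fun s => s / 2) (by fun_prop)
  have h3 := mulE_L2 (hF 3) (fun s => s / 2) (by fun_prop)
  have h1' := mulE_L2 (hF 1) (fun s => s / 2) (by fun_prop)
  have h2' := (hF 2).refl
  have h3' := mulE_L2 (hF 3).refl (fun s => -s / 2) (by fun_prop)
  have n2 : N (fun s => Ee (s / 2) * F 2 s) = N (F 2) := N_mul (fun s => Ee_norm _)
  have n3 : N (fun s => Ee (s / 2) * F 3 s) = N (F 3) := N_mul (fun s => Ee_norm _)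
  have n1' : N (fun s => Ee (s / 2) * F 1 s) = N (F 1) := N_mul (fun s => Ee_norm _)
  have n2' : N (fun s => F 2 (1 - s)) = N (F 2) := N_refl _
  have n3' : N (fun s => Ee (-s / 2) * F 3 (1 - s)) = N (F 3) := by
    rw [N_mul (u := fun s => Ee (-s / 2)) (f := fun s => F 3 (1 - s)) (fun s => Ee_norm _), N_refl]
  have b0 := N_comb h0 h1 h2 h3
  have b1 := N_comb h0 h1.neg h2 h3.neg
  have b2 := N_comb h0 h1' h2' h3'
  have b3 := N_comb h0 h1' h2'.neg h3'.neg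
  rw [N_neg, N_neg] at b1 b3
  rw [n2, n3] at b0 b1
  rw [n1', n2', n3'] at b2 b3
  rw [Fin.sum_univ_four, Fin.sum_univ_four]
  have e0 : N (Sq F 0) ≤ 4 * (N (F 0) + N (F 1) + N (F 2) + N (F 3)) := b0
  have e1 : N (Sq F 1) ≤ 4 * (N (F 0) + N (F 1) + N (F 2) + N (F 3)) := by
    refine le_trans (le_of_eq (congrArg N ?_)) b1
    ext s
    change F 0 s + -F 1 s + Ee (s / 2) * F 2 s + -Ee (s / 2) * F 3 s =
      F 0 s + -F 1 s + Ee (s / 2) * F 2 s + -(Ee (s / 2) * F 3 s)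
    ring
  have e2 : N (Sq F 2) ≤ 4 * (N (F 0) + N (F 1) + N (F 2) + N (F 3)) := b2
  have e3 : N (Sq F 3) ≤ 4 * (N (F 0) + N (F 1) + N (F 2) + N (F 3)) := by
    refine le_trans (le_of_eq (congrArg N ?_)) b3
    ext s
    change F 0 s + Ee (s / 2) * F 1 s + -F 2 (1 - s) + -Ee (-s / 2) * F 3 (1 - s) =
      F 0 s + Ee (s / 2) * F 1 s + -F 2 (1 - s) + -(Ee (-s / 2) * F 3 (1 - s))
    ring
  linarith

lemma aux_L2 {f : Fin 4 → ℝ → ℂ} (hf : ∀ k, L2 (f k)) (j : Fin 4) : L2 (aux f j) := by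
  have hj4 : j = 0 ∨ j = 1 ∨ j = 2 ∨ j = 3 := by fin_cases j <;> simp
  rcases hj4 with rfl | rfl | rfl | rfl
  · exact half_L2 ((hf 0).add (hf 1))
  · exact mulE_L2 (half_L2 ((hf 0).sub (hf 1))) (fun s => s / 2) (by fun_prop)
  · exact half_L2 ((hf 2).add (hf 3))
  · exact mulE_L2 (half_L2 ((hf 2).refl.sub (hf 3).refl)) (fun s => s / 2) (by fun_prop)

lemma aux_N {f : Fin 4 → ℝ → ℂ} (hf : ∀ k, L2 (f k)) :
    N (aux f 0) + N (aux f 1) + N (aux f 2) + N (aux f 3) ≤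
      N (f 0) + N (f 1) + N (f 2) + N (f 3) := by
  have a0 : N (aux f 0) = N (f 0 + f 1) / 4 := N_half (f := f 0 + f 1)
  have a1 : N (aux f 1) = N (f 0 - f 1) / 4 := by
    have := N_mul (u := fun s => Ee (s / 2)) (f := fun s => (f 0 - f 1) s / 2) (fun s => Ee_norm _)
    rw [N_half (f := f 0 - f 1)] at this
    exact this
  have a2 : N (aux f 2) = N (f 2 + f 3) / 4 := N_half (f := f 2 + f 3)
  have a3 : N (aux f 3) = N (f 2 - f 3) / 4 := by
    have := N_mul (u := fun s => Ee (s / 2)) (f := fun s => (f 2 - f 3) (1 - s) / 2)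
      (fun s => Ee_norm _)
    rw [N_half (f := fun s => (f 2 - f 3) (1 - s)), N_refl] at this
    exact this
  have b0 := N_add_le (hf 0) (hf 1)
  have b1 := N_add_le (hf 0) (hf 1).neg
  have b2 := N_add_le (hf 2) (hf 3)
  have b3 := N_add_le (hf 2) (hf 3).neg
  rw [N_neg, ← sub_eq_add_neg] at b1 b3
  rw [a0, a1, a2, a3]
  linarith

lemma SqInv_L2 {f : Fin 4 → ℝ → ℂ} (hf : ∀ k, L2 (f k)) (j : Fin 4) : L2 (SqInv f j) := by
  have h := aux_L2 hf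
  have hj4 : j = 0 ∨ j = 1 ∨ j = 2 ∨ j = 3 := by fin_cases j <;> simp
  rcases hj4 with rfl | rfl | rfl | rfl
  · exact half_L2 ((((h 0).sub (h 1)).add (h 2)).sub (h 3))
  · exact mulE_L2 (half_L2 ((((h 0).neg.add (h 1)).add (h 2)).add (h 3))) (fun s => -s / 2)
      (by fun_prop)
  · exact mulE_L2 (half_L2 ((((h 0).add (h 1)).sub (h 2)).add (h 3))) (fun s => -s / 2)
      (by fun_prop)
  · exact mulE_L2 (half_L2 ((((h 0).add (h 1)).sub (h 2)).sub (h 3))) (fun s => -s)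
      (by fun_prop)

lemma SqInv_N {f : Fin 4 → ℝ → ℂ} (hf : ∀ k, L2 (f k)) :
    ∑ k, N (SqInv f k) ≤ 4 * ∑ j, N (f j) := by
  have h := aux_L2 hf
  have ha := aux_N hf
  have b0 := N_comb (h 0) (h 1).neg (h 2) (h 3).neg
  have b1 := N_comb (h 0).neg (h 1) (h 2) (h 3)
  have b2 := N_comb (h 0) (h 1) (h 2).neg (h 3)
  have b3 := N_comb (h 0) (h 1) (h 2).neg (h 3).neg
  rw [N_neg, N_neg] at b0 b3
  rw [N_neg] at b1 b2
  have e0 : N (SqInv f 0) = N (fun s => aux f 0 s + (-aux f 1) s + aux f 2 s + (-aux f 3) s) / 4 := by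
    rw [← N_half]
    congr 1
  have e1 : N (SqInv f 1) = N (fun s => (-aux f 0) s + aux f 1 s + aux f 2 s + aux f 3 s) / 4 := by
    have := N_mul (u := fun s => Ee (-s / 2))
      (f := fun s => ((-aux f 0) s + aux f 1 s + aux f 2 s + aux f 3 s) / 2) (fun s => Ee_norm _)
    rw [← N_half, ← this]
    rfl
  have e2 : N (SqInv f 2) = N (fun s => aux f 0 s + aux f 1 s + (-aux f 2) s + aux f 3 s) / 4 := by
    have := N_mul (u := fun s => Ee (-s / 2))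
      (f := fun s => (aux f 0 s + aux f 1 s + (-aux f 2) s + aux f 3 s) / 2) (fun s => Ee_norm _)
    rw [← N_half, ← this]
    congr 1
  have e3 : N (SqInv f 3) = N (fun s => aux f 0 s + aux f 1 s + (-aux f 2) s + (-aux f 3) s) / 4 := by
    have := N_mul (u := fun s => Ee (-s))
      (f := fun s => (aux f 0 s + aux f 1 s + (-aux f 2) s + (-aux f 3) s) / 2) (fun s => Ee_norm _)
    rw [← N_half, ← this]
    congr 1
  rw [Fin.sum_univ_four, Fin.sum_univ_four, e0, e1, e2, e3]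
  linarith

end Pool.Agent.R244.RB
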