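import Mathlib
import Pool.Agent.R244.RBBase

/-!
The synthesis operator for the triangle.
-/

set_option autoImplicit false

namespace Pool.Agent.R244.RB

open MeasureTheory Complex Set

/-- `f (1 - 2s)` for `s ≤ 1/2` and `g (2 - 2s)` for `s > 1/2` -/
noncomputable def pw {α : Type*} (f g : ℝ → α) (s : ℝ) : α :=
  if s ≤ 1 / 2 then f (1 - 2 * s) else g (2 - 2 * s)

lemma pw_ii {f g : ℝ → ℝ} (hf : IntervalIntegrable f volume 0 1)
    (hg : IntervalIntegrable g volume 0 1) : IntervalIntegrable (pw f g) volume 0 1 ∧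
      ∫ s in (0 : ℝ)..1, pw f g s = ((∫ s in (0 : ℝ)..1, f s) + ∫ s in (0 : ℝ)..1, g s) / 2 := by
  have i1 : IntervalIntegrable (fun s => f (1 - 2 * s)) volume 0 (1 / 2) := by
    have h1 := (hf.comp_sub_left 1).comp_mul_left (c := 2)
    have e1 : (1 - 0 : ℝ) / 2 = 1 / 2 := by norm_num
    have e2 : (1 - 1 : ℝ) / 2 = 0 := by norm_num
    rw [e1, e2] at h1
    exact h1.symm
  have i2 : IntervalIntegrable (fun s => g (2 - 2 * s)) volume (1 / 2) 1 := by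
    have h1 := (hg.comp_sub_left 2).comp_mul_left (c := 2)
    have e1 : (2 - 0 : ℝ) / 2 = 1 := by norm_num
    have e2 : (2 - 1 : ℝ) / 2 = 1 / 2 := by norm_num
    rw [e1, e2] at h1
    exact h1.symm
  have c1 : EqOn (fun s => f (1 - 2 * s)) (pw f g) (uIoc 0 (1 / 2)) := by
    intro s hs
    rw [uIoc_of_le (by norm_num)] at hs
    simp only [pw, if_pos hs.2]
  have c2 : EqOn (fun s => g (2 - 2 * s)) (pw f g) (uIoc (1 / 2) 1) := by
    intro s hs
    rw [uIoc_of_le (by norm_num)] at hs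
    simp only [pw, if_neg (not_le.mpr hs.1)]
  have j1 : IntervalIntegrable (pw f g) volume 0 (1 / 2) := i1.congr c1
  have j2 : IntervalIntegrable (pw f g) volume (1 / 2) 1 := i2.congr c2
  refine ⟨j1.trans j2, ?_⟩
  rw [← intervalIntegral.integral_add_adjacent_intervals j1 j2]
  have k1 : ∫ s in (0 : ℝ)..(1 / 2), pw f g s = (∫ s in (0 : ℝ)..1, f s) / 2 := by
    have : ∫ s in (0 : ℝ)..(1 / 2), pw f g s = ∫ s in (0 : ℝ)..(1 / 2), f (1 - 2 * s) := by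
      apply intervalIntegral.integral_congr_ae
      filter_upwards with s hs
      exact (c1 hs).symm
    rw [this, intervalIntegral.integral_comp_sub_mul f (by norm_num : (2 : ℝ) ≠ 0)]
    norm_num
    ring
  have k2 : ∫ s in (1 / 2 : ℝ)..1, pw f g s = (∫ s in (0 : ℝ)..1, g s) / 2 := by
    have : ∫ s in (1 / 2 : ℝ)..1, pw f g s = ∫ s in (1 / 2 : ℝ)..1, g (2 - 2 * s) := by
      apply intervalIntegral.integral_congr_ae
      filter_upwards with s hs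
      exact (c2 hs).symm
    rw [this, intervalIntegral.integral_comp_sub_mul g (by norm_num : (2 : ℝ) ≠ 0)]
    norm_num
    ring
  rw [k1, k2]
  ring

/-- the matrices `B U₀` and `B U₁` -/
noncomputable def k0 (g : Fin 3 → ℂ) : Fin 3 → ℂ :=
  ![(g 0 - g 1 + g 2) / 2, (-g 0 + g 1 + g 2) / 2, (-g 0 - g 1 - g 2) / 2]

/-- the matrices `B U₀` and `B U₁` -/
noncomputable def k1 (g : Fin 3 → ℂ) : Fin 3 → ℂ :=
  ![(g 0 + g 1 - g 2) / 2, (-g 0 - g 1 - g 2) / 2, (-g 0 + g 1 + g 2) / 2]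

/-- the quadratic form -/
noncomputable def q (g : Fin 3 → ℂ) : ℝ :=
  8 * ‖g 0‖ ^ 2 + 4 * ‖g 1 + g 2‖ ^ 2 + 3 * ‖g 1 - g 2‖ ^ 2

lemma q_avg (g : Fin 3 → ℂ) : (q (k0 g) + q (k1 g)) / 2 ≤ 3 / 4 * q g := by
  have h : (q (k0 g) + q (k1 g)) / 2 =
      6 * ‖g 0‖ ^ 2 + 3 * ‖g 1 + g 2‖ ^ 2 + 2 * ‖g 1 - g 2‖ ^ 2 := by
    simp only [q, k0, k1, Matrix.cons_val_zero, Matrix.cons_val_one, Matrix.cons_val,
      ← Complex.normSq_eq_norm_sq, Complex.normSq_apply, Complex.add_re, Complex.add_im,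
      Complex.sub_re, Complex.sub_im, Complex.neg_re, Complex.neg_im, Complex.div_ofNat_re,
      Complex.div_ofNat_im]
    ring
  rw [h]
  unfold q
  have := sq_nonneg ‖g 1 - g 2‖
  linarith

lemma q_lower (g : Fin 3 → ℂ) : 6 * ∑ i, ‖g i‖ ^ 2 ≤ q g := by
  rw [Fin.sum_univ_three]
  have h : q g = 6 * (‖g 0‖ ^ 2 + ‖g 1‖ ^ 2 + ‖g 2‖ ^ 2) + 2 * ‖g 0‖ ^ 2 + ‖g 1 + g 2‖ ^ 2 := by
    simp only [q, ← Complex.normSq_eq_norm_sq, Complex.normSq_apply, Complex.add_re,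
      Complex.add_im, Complex.sub_re, Complex.sub_im]
    ring
  rw [h]
  have := sq_nonneg ‖g 0‖
  have := sq_nonneg ‖g 1 + g 2‖
  linarith

lemma q_upper (g : Fin 3 → ℂ) : q g ≤ 8 * ∑ i, ‖g i‖ ^ 2 := by
  rw [Fin.sum_univ_three]
  have h : q g = 8 * (‖g 0‖ ^ 2 + ‖g 1‖ ^ 2 + ‖g 2‖ ^ 2) - ‖g 1 - g 2‖ ^ 2 := by
    simp only [q, ← Complex.normSq_eq_norm_sq, Complex.normSq_apply, Complex.add_re,
      Complex.add_im, Complex.sub_re, Complex.sub_im]
    ring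
  rw [h]
  have := sq_nonneg ‖g 1 - g 2‖
  linarith

lemma q_nonneg (g : Fin 3 → ℂ) : 0 ≤ q g := by
  unfold q
  positivity

lemma young (x y : ℂ) : ‖x - y‖ ^ 2 ≤ 7 * ‖x‖ ^ 2 + 7 / 6 * ‖y‖ ^ 2 := by
  have h := norm_sub_le x y
  have h0 := norm_nonneg (x - y)
  nlinarith [sq_nonneg (6 * ‖x‖ - ‖y‖), norm_nonneg x, norm_nonneg y]

lemma q_young (h k : Fin 3 → ℂ) : q (h - k) ≤ 7 * q h + 7 / 6 * q k := by
  have h1 := young (h 0) (k 0)
  have h2 := young (h 1 + h 2) (k 1 + k 2)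
  have h3 := young (h 1 - h 2) (k 1 - k 2)
  have e2 : h 1 + h 2 - (k 1 + k 2) = (h - k) 1 + (h - k) 2 := by
    simp only [Pi.sub_apply]
    ring
  have e3 : h 1 - h 2 - (k 1 - k 2) = (h - k) 1 - (h - k) 2 := by
    simp only [Pi.sub_apply]
    ring
  rw [e2] at h2
  rw [e3] at h3
  have e1 : h 0 - k 0 = (h - k) 0 := rfl
  rw [e1] at h1
  unfold q
  linarith

lemma q_smul (u : ℂ) (hu : ‖u‖ = 1) (g : Fin 3 → ℂ) : q (fun j => u * g j) = q g := by
  unfold q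
  rw [← mul_add, ← mul_sub, norm_mul, norm_mul, norm_mul, hu]
  simp

/-- the operator `K` -/
noncomputable def Kop : (Fin 3 → ℝ → ℂ) →ₗ[ℂ] (Fin 3 → ℝ → ℂ) where
  toFun G := fun j s => cexp (2 * Real.pi * I * (-s : ℝ)) *
    (if s ≤ 1 / 2 then k0 (fun i => G i (1 - 2 * s)) j else k1 (fun i => G i (2 - 2 * s)) j)
  map_add' := by
    intro G H
    ext j s
    simp only [Pi.add_apply]
    split_ifs <;> fin_cases j <;> simp [k0, k1] <;> ring
  map_smul' := by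
    intro c G
    ext j s
    simp only [Pi.smul_apply, smul_eq_mul, RingHom.id_apply]
    split_ifs <;> fin_cases j <;> simp [k0, k1] <;> ring

lemma q_Kop (G : Fin 3 → ℝ → ℂ) (s : ℝ) : q (fun j => Kop G j s) =
    pw (fun y => q (k0 (fun i => G i y))) (fun y => q (k1 (fun i => G i y))) s := by
  have h : (fun j => Kop G j s) = fun j => cexp (2 * Real.pi * I * (-s : ℝ)) *
    (if s ≤ 1 / 2 then k0 (fun i => G i (1 - 2 * s)) j else k1 (fun i => G i (2 - 2 * s)) j) := rfl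
  rw [h, q_smul _ (norm_cexp _)]
  unfold pw
  split_ifs <;> rfl

lemma q_meas {G : Fin 3 → ℝ → ℂ} (hG : ∀ k, Measurable (G k)) : Measurable fun s => q (fun i => G i s) := by
  have h0 := hG 0
  have h1 := hG 1
  have h2 := hG 2
  unfold q
  fun_prop

lemma q_ii {G : Fin 3 → ℝ → ℂ} (hG : ∀ k, L2 (G k)) :
    IntervalIntegrable (fun s => q (fun i => G i s)) volume 0 1 := by
  apply ii_of_le (g := fun s => 8 * ∑ i, ‖G i s‖ ^ 2) (q_meas fun k => (hG k).1)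
    (fun s => q_nonneg _) (fun s => q_upper _)
  apply IntervalIntegrable.const_mul
  have : (fun s => ∑ i, ‖G i s‖ ^ 2) = ∑ i, fun s => ‖G i s‖ ^ 2 := by
    ext s
    simp
  rw [this]
  exact IntervalIntegrable.sum _ fun i _ => (hG i).2

lemma k0_L2 {G : Fin 3 → ℝ → ℂ} (hG : ∀ k, L2 (G k)) (j : Fin 3) :
    L2 (fun y => k0 (fun i => G i y) j) := by
  have a := hG 0
  have b := hG 1
  have c := hG 2
  fin_cases j
  · have := ((a.sub b).add c).const_mul (1 / 2)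
    refine (congrArg L2 ?_).mpr this
    ext y
    simp [k0]
    ring
  · have := ((a.neg.add b).add c).const_mul (1 / 2)
    refine (congrArg L2 ?_).mpr this
    ext y
    simp [k0]
    ring
  · have := ((a.neg.sub b).sub c).const_mul (1 / 2)
    refine (congrArg L2 ?_).mpr this
    ext y
    simp [k0]
    ring

lemma k1_L2 {G : Fin 3 → ℝ → ℂ} (hG : ∀ k, L2 (G k)) (j : Fin 3) :
    L2 (fun y => k1 (fun i => G i y) j) := by
  have a := hG 0
  have b := hG 1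
  have c := hG 2
  fin_cases j
  · have := ((a.add b).sub c).const_mul (1 / 2)
    refine (congrArg L2 ?_).mpr this
    ext y
    simp [k1]
    ring
  · have := ((a.neg.sub b).sub c).const_mul (1 / 2)
    refine (congrArg L2 ?_).mpr this
    ext y
    simp [k1]
    ring
  · have := ((a.neg.add b).add c).const_mul (1 / 2)
    refine (congrArg L2 ?_).mpr this
    ext y
    simp [k1]
    ring

lemma Kop_L2 {G : Fin 3 → ℝ → ℂ} (hG : ∀ k, L2 (G k)) (j : Fin 3) : L2 (Kop G j) := by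
  have hm : Measurable (Kop G j) := by
    have e : Kop G j = fun s => cexp (2 * Real.pi * I * (-s : ℝ)) *
      (if s ≤ 1 / 2 then k0 (fun i => G i (1 - 2 * s)) j else k1 (fun i => G i (2 - 2 * s)) j) := rfl
    rw [e]
    apply Measurable.mul
    · fun_prop
    · apply Measurable.ite measurableSet_Iic
      · exact (k0_L2 hG j).1.comp (by fun_prop)
      · exact (k1_L2 hG j).1.comp (by fun_prop)
  refine ⟨hm, ?_⟩
  apply ii_of_le (g := fun s => q (fun j => Kop G j s)) (hm.norm.pow_const 2)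
    (fun s => by positivity)
  · intro s
    have h1 := q_lower (fun j => Kop G j s)
    have h2 : ‖Kop G j s‖ ^ 2 ≤ ∑ i, ‖Kop G i s‖ ^ 2 :=
      Finset.single_le_sum (f := fun i => ‖Kop G i s‖ ^ 2) (fun i _ => by positivity)
        (Finset.mem_univ j)
    have h3 : 0 ≤ ∑ i, ‖Kop G i s‖ ^ 2 := Finset.sum_nonneg fun i _ => by positivity
    linarith
  · simp only [q_Kop]
    exact (pw_ii (q_ii (k0_L2 hG)) (q_ii (k1_L2 hG))).1

/-- the integrated quadratic form -/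
noncomputable def Q (G : Fin 3 → ℝ → ℂ) : ℝ := ∫ s in (0 : ℝ)..1, q (fun i => G i s)

lemma Q_nonneg (G : Fin 3 → ℝ → ℂ) : 0 ≤ Q G :=
  intervalIntegral.integral_nonneg zero_le_one fun s _ => q_nonneg _

lemma Q_Kop {G : Fin 3 → ℝ → ℂ} (hG : ∀ k, L2 (G k)) : Q (Kop G) ≤ 3 / 4 * Q G := by
  unfold Q
  simp only [q_Kop]
  rw [(pw_ii (q_ii (k0_L2 hG)) (q_ii (k1_L2 hG))).2, ← intervalIntegral.integral_add
    (q_ii (k0_L2 hG)) (q_ii (k1_L2 hG)), ← intervalIntegral.integral_div,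
    ← intervalIntegral.integral_const_mul]
  apply intervalIntegral.integral_mono_on zero_le_one
  · exact ((q_ii (k0_L2 hG)).add (q_ii (k1_L2 hG))).div_const 2
  · exact (q_ii hG).const_mul _
  · intro s _
    exact q_avg _

lemma Q_lower {G : Fin 3 → ℝ → ℂ} (hG : ∀ k, L2 (G k)) : 6 * ∑ k, N (G k) ≤ Q G := by
  unfold Q N
  rw [← intervalIntegral.integral_finsetSum (fun i _ => (hG i).2),
    ← intervalIntegral.integral_const_mul]
  apply intervalIntegral.integral_mono_on zero_le_one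
  · apply IntervalIntegrable.const_mul
    have : (fun s => ∑ i, ‖G i s‖ ^ 2) = ∑ i, fun s => ‖G i s‖ ^ 2 := by
      ext s
      simp
    rw [this]
    exact IntervalIntegrable.sum _ fun i _ => (hG i).2
  · exact q_ii hG
  · intro s _
    exact q_lower _

lemma Q_upper {G : Fin 3 → ℝ → ℂ} (hG : ∀ k, L2 (G k)) : Q G ≤ 8 * ∑ k, N (G k) := by
  unfold Q N
  rw [← intervalIntegral.integral_finsetSum (fun i _ => (hG i).2),
    ← intervalIntegral.integral_const_mul]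
  apply intervalIntegral.integral_mono_on zero_le_one
  · exact q_ii hG
  · apply IntervalIntegrable.const_mul
    have : (fun s => ∑ i, ‖G i s‖ ^ 2) = ∑ i, fun s => ‖G i s‖ ^ 2 := by
      ext s
      simp
    rw [this]
    exact IntervalIntegrable.sum _ fun i _ => (hG i).2
  · intro s _
    exact q_upper _

/-- `1 + K` is bounded below -/
lemma one_add_K_lower {G : Fin 3 → ℝ → ℂ} (hG : ∀ k, L2 (G k)) : Q G ≤ 56 * Q (G + Kop G) := by
  have hH : ∀ k, L2 ((G + Kop G) k) := fun k => (hG k).add (Kop_L2 hG k)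
  have h1 : Q G ≤ 7 * Q (G + Kop G) + 7 / 6 * Q (Kop G) := by
    unfold Q
    rw [← intervalIntegral.integral_const_mul, ← intervalIntegral.integral_const_mul,
      ← intervalIntegral.integral_add ((q_ii hH).const_mul _) ((q_ii (Kop_L2 hG)).const_mul _)]
    apply intervalIntegral.integral_mono_on zero_le_one (q_ii hG)
      (((q_ii hH).const_mul _).add ((q_ii (Kop_L2 hG)).const_mul _))
    intro s _
    have h := q_young (fun i => (G + Kop G) i s) (fun i => Kop G i s)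
    have e : ((fun i => (G + Kop G) i s) - fun i => Kop G i s) = fun i => G i s := by
      ext i
      simp
    rw [e] at h
    exact h
  have h2 := Q_Kop hG
  linarith

/-- `Δ`, multiplication by unimodular functions -/
noncomputable def Dop : (Fin 3 → ℝ → ℂ) →ₗ[ℂ] (Fin 3 → ℝ → ℂ) where
  toFun F := ![F 0, fun s => -cexp (2 * Real.pi * I * (-s / 2 : ℝ)) * F 1 s,
    fun s => -cexp (2 * Real.pi * I * (-s / 2 : ℝ)) * F 2 s]
  map_add' := by
    intro G H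
    ext j s
    fin_cases j <;> simp <;> ring
  map_smul' := by
    intro c G
    ext j s
    fin_cases j <;> simp <;> ring

/-- the inverse of `Δ` -/
noncomputable def Dinv (F : Fin 3 → ℝ → ℂ) : Fin 3 → ℝ → ℂ :=
  ![F 0, fun s => -cexp (2 * Real.pi * I * (s / 2 : ℝ)) * F 1 s,
    fun s => -cexp (2 * Real.pi * I * (s / 2 : ℝ)) * F 2 s]

lemma exp_cancel (s : ℝ) : cexp (2 * Real.pi * I * (-s / 2 : ℝ)) *
    cexp (2 * Real.pi * I * (s / 2 : ℝ)) = 1 := by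
  rw [← Complex.exp_add, ← Complex.exp_zero]
  congr 1
  push_cast
  ring

lemma Dop_Dinv (F : Fin 3 → ℝ → ℂ) : Dop (Dinv F) = F := by
  ext j s
  have h := exp_cancel s
  fin_cases j
  · rfl
  · change -cexp (2 * Real.pi * I * (-s / 2 : ℝ)) *
      (-cexp (2 * Real.pi * I * (s / 2 : ℝ)) * F 1 s) = F 1 s
    linear_combination (F 1 s) * h
  · change -cexp (2 * Real.pi * I * (-s / 2 : ℝ)) *
      (-cexp (2 * Real.pi * I * (s / 2 : ℝ)) * F 2 s) = F 2 s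
    linear_combination (F 2 s) * h

lemma norm_Dop (F : Fin 3 → ℝ → ℂ) (j : Fin 3) (s : ℝ) : ‖Dop F j s‖ = ‖F j s‖ := by
  fin_cases j
  · rfl
  · change ‖-cexp (2 * Real.pi * I * (-s / 2 : ℝ)) * F 1 s‖ = ‖F 1 s‖
    rw [norm_mul, norm_neg, norm_cexp, one_mul]
  · change ‖-cexp (2 * Real.pi * I * (-s / 2 : ℝ)) * F 2 s‖ = ‖F 2 s‖
    rw [norm_mul, norm_neg, norm_cexp, one_mul]

lemma Dop_L2 {F : Fin 3 → ℝ → ℂ} (hF : ∀ k, L2 (F k)) (j : Fin 3) : L2 (Dop F j) := by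
  fin_cases j
  · exact hF 0
  · exact (hF 1).mul (u := fun s => -cexp (2 * Real.pi * I * (-s / 2 : ℝ))) (by fun_prop)
      (fun s => by rw [norm_neg, norm_cexp])
  · exact (hF 2).mul (u := fun s => -cexp (2 * Real.pi * I * (-s / 2 : ℝ))) (by fun_prop)
      (fun s => by rw [norm_neg, norm_cexp])

lemma Dinv_L2 {F : Fin 3 → ℝ → ℂ} (hF : ∀ k, L2 (F k)) (j : Fin 3) : L2 (Dinv F j) := by
  fin_cases j
  · exact hF 0
  · exact (hF 1).mul (u := fun s => -cexp (2 * Real.pi * I * (s / 2 : ℝ))) (by fun_prop)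
      (fun s => by rw [norm_neg, norm_cexp])
  · exact (hF 2).mul (u := fun s => -cexp (2 * Real.pi * I * (s / 2 : ℝ))) (by fun_prop)
      (fun s => by rw [norm_neg, norm_cexp])

/-- `T` -/
noncomputable def Top : (Fin 3 → ℝ → ℂ) →ₗ[ℂ] (Fin 3 → ℝ → ℂ) where
  toFun H := ![fun s => -cexp (2 * Real.pi * I * (s : ℝ)) * (H 1 s + H 2 s),
    fun s => H 0 s + H 2 s, fun s => H 0 s + H 1 s]
  map_add' := by
    intro G H
    ext j s
    fin_cases j <;> simp <;> ring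
  map_smul' := by
    intro c G
    ext j s
    fin_cases j <;> simp <;> ring

/-- the inverse of `T` -/
noncomputable def Tinv (f : Fin 3 → ℝ → ℂ) : Fin 3 → ℝ → ℂ :=
  ![fun s => (cexp (2 * Real.pi * I * (-s : ℝ)) * f 0 s + f 1 s + f 2 s) / 2,
    fun s => (-(cexp (2 * Real.pi * I * (-s : ℝ)) * f 0 s) - f 1 s + f 2 s) / 2,
    fun s => (-(cexp (2 * Real.pi * I * (-s : ℝ)) * f 0 s) + f 1 s - f 2 s) / 2]

lemma exp_cancel' (s : ℝ) : cexp (2 * Real.pi * I * (s : ℝ)) *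
    cexp (2 * Real.pi * I * (-s : ℝ)) = 1 := by
  rw [← Complex.exp_add, ← Complex.exp_zero]
  congr 1
  push_cast
  ring

lemma Top_Tinv (f : Fin 3 → ℝ → ℂ) : Top (Tinv f) = f := by
  ext j s
  have h := exp_cancel' s
  fin_cases j
  · change -cexp (2 * Real.pi * I * (s : ℝ)) *
      ((-(cexp (2 * Real.pi * I * (-s : ℝ)) * f 0 s) - f 1 s + f 2 s) / 2 +
       (-(cexp (2 * Real.pi * I * (-s : ℝ)) * f 0 s) + f 1 s - f 2 s) / 2) = f 0 s
    linear_combination (f 0 s) * h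
  · change (cexp (2 * Real.pi * I * (-s : ℝ)) * f 0 s + f 1 s + f 2 s) / 2 +
      (-(cexp (2 * Real.pi * I * (-s : ℝ)) * f 0 s) + f 1 s - f 2 s) / 2 = f 1 s
    ring
  · change (cexp (2 * Real.pi * I * (-s : ℝ)) * f 0 s + f 1 s + f 2 s) / 2 +
      (-(cexp (2 * Real.pi * I * (-s : ℝ)) * f 0 s) - f 1 s + f 2 s) / 2 = f 2 s
    ring

lemma Tinv_L2 {f : Fin 3 → ℝ → ℂ} (hf : ∀ k, L2 (f k)) (j : Fin 3) : L2 (Tinv f j) := by
  have a : L2 (fun s => cexp (2 * Real.pi * I * (-s : ℝ)) * f 0 s) :=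
    (hf 0).mul (u := fun s => cexp (2 * Real.pi * I * (-s : ℝ))) (by fun_prop)
      (fun s => norm_cexp _)
  have b := hf 1
  have c := hf 2
  fin_cases j
  · have := ((a.add b).add c).const_mul (1 / 2)
    refine (congrArg L2 ?_).mpr this
    ext y
    simp [Tinv]
    ring
  · have := ((a.neg.sub b).add c).const_mul (1 / 2)
    refine (congrArg L2 ?_).mpr this
    ext y
    simp [Tinv]
    ring
  · have := ((a.neg.add b).sub c).const_mul (1 / 2)
    refine (congrArg L2 ?_).mpr this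
    ext y
    simp [Tinv]
    ring

lemma Top_L2 {H : Fin 3 → ℝ → ℂ} (hH : ∀ k, L2 (H k)) (j : Fin 3) : L2 (Top H j) := by
  fin_cases j
  · exact ((hH 1).add (hH 2)).mul (u := fun s => -cexp (2 * Real.pi * I * (s : ℝ))) (by fun_prop)
      (fun s => by rw [norm_neg, norm_cexp])
  · exact (hH 0).add (hH 2)
  · exact (hH 0).add (hH 1)

lemma Top_sq (H : Fin 3 → ℝ → ℂ) (s : ℝ) : ∑ j, ‖Top H j s‖ ^ 2 =
    ∑ j, ‖H j s‖ ^ 2 + ‖H 0 s + H 1 s + H 2 s‖ ^ 2 := by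
  rw [Fin.sum_univ_three, Fin.sum_univ_three]
  have e0 : ‖Top H 0 s‖ = ‖H 1 s + H 2 s‖ := by
    change ‖-cexp (2 * Real.pi * I * (s : ℝ)) * (H 1 s + H 2 s)‖ = _
    rw [norm_mul, norm_neg, norm_cexp, one_mul]
  have e1 : Top H 1 s = H 0 s + H 2 s := rfl
  have e2 : Top H 2 s = H 0 s + H 1 s := rfl
  rw [e0, e1, e2]
  simp only [← Complex.normSq_eq_norm_sq, Complex.normSq_apply, Complex.add_re, Complex.add_im]
  ring

lemma sumN_ii {G : Fin 3 → ℝ → ℂ} (hG : ∀ k, L2 (G k)) :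
    IntervalIntegrable (fun s => ∑ i, ‖G i s‖ ^ 2) volume 0 1 := by
  have : (fun s => ∑ i, ‖G i s‖ ^ 2) = ∑ i, fun s => ‖G i s‖ ^ 2 := by
    ext s
    simp
  rw [this]
  exact IntervalIntegrable.sum _ fun i _ => (hG i).2

lemma sumN {G : Fin 3 → ℝ → ℂ} (hG : ∀ k, L2 (G k)) :
    ∑ k, N (G k) = ∫ s in (0 : ℝ)..1, ∑ i, ‖G i s‖ ^ 2 := by
  unfold N
  rw [← intervalIntegral.integral_finsetSum (fun i _ => (hG i).2)]

lemma Top_N_lower {H : Fin 3 → ℝ → ℂ} (hH : ∀ k, L2 (H k)) : ∑ k, N (H k) ≤ ∑ k, N (Top H k) := by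
  rw [sumN hH, sumN (Top_L2 hH)]
  apply intervalIntegral.integral_mono_on zero_le_one (sumN_ii hH) (sumN_ii (Top_L2 hH))
  intro s _
  rw [Top_sq]
  have := sq_nonneg ‖H 0 s + H 1 s + H 2 s‖
  linarith

lemma Top_N_upper {H : Fin 3 → ℝ → ℂ} (hH : ∀ k, L2 (H k)) :
    ∑ k, N (Top H k) ≤ 4 * ∑ k, N (H k) := by
  rw [sumN hH, sumN (Top_L2 hH), ← intervalIntegral.integral_const_mul]
  apply intervalIntegral.integral_mono_on zero_le_one (sumN_ii (Top_L2 hH))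
    ((sumN_ii hH).const_mul 4)
  intro s _
  rw [Top_sq, Fin.sum_univ_three]
  have h : ‖H 0 s + H 1 s + H 2 s‖ ^ 2 ≤ 3 * (‖H 0 s‖ ^ 2 + ‖H 1 s‖ ^ 2 + ‖H 2 s‖ ^ 2) := by
    have h1 : ‖H 0 s + H 1 s + H 2 s‖ ≤ ‖H 0 s‖ + ‖H 1 s‖ + ‖H 2 s‖ := norm_add₃_le
    have h0 := norm_nonneg (H 0 s + H 1 s + H 2 s)
    nlinarith [sq_nonneg (‖H 0 s‖ - ‖H 1 s‖), sq_nonneg (‖H 0 s‖ - ‖H 2 s‖),
      sq_nonneg (‖H 1 s‖ - ‖H 2 s‖), norm_nonneg (H 0 s), norm_nonneg (H 1 s), norm_nonneg (H 2 s)]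
  linarith

/-- the synthesis operator -/
noncomputable def Sop : (Fin 3 → ℝ → ℂ) →ₗ[ℂ] (Fin 3 → ℝ → ℂ) :=
  Top ∘ₗ (LinearMap.id + Kop) ∘ₗ Dop

lemma Sop_apply (F : Fin 3 → ℝ → ℂ) : Sop F = Top (Dop F + Kop (Dop F)) := rfl

lemma Sop_L2 {F : Fin 3 → ℝ → ℂ} (hF : ∀ k, L2 (F k)) (j : Fin 3) : L2 (Sop F j) := by
  rw [Sop_apply]
  exact Top_L2 (fun k => (Dop_L2 hF k).add (Kop_L2 (Dop_L2 hF) k)) j

lemma N_Dop (F : Fin 3 → ℝ → ℂ) (k : Fin 3) : N (Dop F k) = N (F k) := N_congr (norm_Dop F k)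

lemma Sop_lower {F : Fin 3 → ℝ → ℂ} (hF : ∀ k, L2 (F k)) :
    (1 / 75 : ℝ) * ∑ k, N (F k) ≤ ∑ j, N (Sop F j) := by
  have hG := Dop_L2 hF
  have hH : ∀ k, L2 ((Dop F + Kop (Dop F)) k) := fun k => (hG k).add (Kop_L2 hG k)
  rw [Sop_apply]
  have h1 := Top_N_lower hH
  have h2 := Q_upper hH
  have h3 := one_add_K_lower hG
  have h4 := Q_lower hG
  simp only [N_Dop] at h4
  have h5 : 0 ≤ ∑ k, N (F k) := Finset.sum_nonneg fun k _ => N_nonneg _
  linarith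

lemma Sop_upper {F : Fin 3 → ℝ → ℂ} (hF : ∀ k, L2 (F k)) :
    ∑ j, N (Sop F j) ≤ 20 * ∑ k, N (F k) := by
  have hG := Dop_L2 hF
  have hH : ∀ k, L2 ((Dop F + Kop (Dop F)) k) := fun k => (hG k).add (Kop_L2 hG k)
  rw [Sop_apply]
  have h1 := Top_N_upper hH
  have h2 : ∑ k, N ((Dop F + Kop (Dop F)) k) ≤ ∑ k, (2 * N (Dop F k) + 2 * N (Kop (Dop F) k)) :=
    Finset.sum_le_sum fun k _ => N_add_le (hG k) (Kop_L2 hG k)
  rw [Finset.sum_add_distrib, ← Finset.mul_sum, ← Finset.mul_sum] at h2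
  have h3 := Q_lower (Kop_L2 hG)
  have h4 := Q_Kop hG
  have h5 := Q_upper hG
  simp only [N_Dop] at h2 h5
  have h6 : 0 ≤ ∑ k, N (F k) := Finset.sum_nonneg fun k _ => N_nonneg _
  linarith

lemma neg_K_pow_L2 {G : Fin 3 → ℝ → ℂ} (hG : ∀ k, L2 (G k)) (n : ℕ) :
    (∀ k, L2 (((-Kop) ^ n) G k)) ∧ Q (((-Kop) ^ n) G) ≤ (3 / 4) ^ n * Q G := by
  induction n with
  | zero => exact ⟨by simpa using hG, by simp⟩
  | succ n ih =>
    have e : ((-Kop) ^ (n + 1)) G = -Kop (((-Kop) ^ n) G) := by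
      rw [pow_succ', Module.End.mul_apply]
      rfl
    rw [e]
    refine ⟨fun k => (Kop_L2 ih.1 k).neg, ?_⟩
    have e2 : Q (-Kop (((-Kop) ^ n) G)) = Q (Kop (((-Kop) ^ n) G)) := by
      unfold Q
      congr 1
      ext s
      have := q_smul (-1) (by simp) (fun i => Kop (((-Kop) ^ n) G) i s)
      rw [← this]
      congr 1
      ext i
      simp
    rw [e2]
    have h := Q_Kop ih.1
    calc _ ≤ 3 / 4 * Q (((-Kop) ^ n) G) := h
      _ ≤ 3 / 4 * ((3 / 4) ^ n * Q G) := by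
          have := ih.2
          gcongr
      _ = _ := by ring

lemma Sop_surj (f : Fin 3 → ℝ → ℂ) (hf : ∀ j, L2 (f j)) (ε : ℝ) (hε : 0 < ε) :
    ∃ F, (∀ k, L2 (F k)) ∧ ∑ j, N (f j - Sop F j) < ε := by
  set H0 := Tinv f with hH0
  have hH0L := Tinv_L2 hf
  have hlim : Filter.Tendsto (fun n : ℕ => (3 / 4 : ℝ) ^ n * Q H0) Filter.atTop (nhds (0 * Q H0)) :=
    (tendsto_pow_atTop_nhds_zero_of_lt_one (by norm_num) (by norm_num)).mul_const _
  rw [zero_mul] at hlim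
  obtain ⟨n, hn⟩ := (hlim.eventually (gt_mem_nhds hε)).exists
  set G : Fin 3 → ℝ → ℂ := ∑ i ∈ Finset.range n, ((-Kop) ^ i) H0 with hG
  have hGL : ∀ k, L2 (G k) := by
    intro k
    rw [hG, Finset.sum_apply]
    exact L2.sum _ _ fun i _ => (neg_K_pow_L2 hH0L i).1 k
  have hgeo : G + Kop G = H0 - ((-Kop) ^ n) H0 := by
    have h1 := mul_neg_geom_sum (-Kop) n
    have h2 := congrArg (fun L : Module.End ℂ (Fin 3 → ℝ → ℂ) => L H0) h1
    simp only [Module.End.mul_apply, LinearMap.sub_apply, Module.End.one_apply, LinearMap.sum_apply,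
      LinearMap.neg_apply] at h2
    rw [← hG, sub_neg_eq_add] at h2
    exact h2
  refine ⟨Dinv G, Dinv_L2 hGL, ?_⟩
  have e1 : ∀ j, f j - Sop (Dinv G) j = Top (((-Kop) ^ n) H0) j := by
    intro j
    have : Top (((-Kop) ^ n) H0) = f - Sop (Dinv G) := by
      rw [Sop_apply, Dop_Dinv, hgeo, map_sub, hH0, Top_Tinv]
      abel
    rw [this, Pi.sub_apply]
  simp only [e1]
  have h1 := Top_N_upper (neg_K_pow_L2 hH0L n).1
  have h2 := Q_lower (neg_K_pow_L2 hH0L n).1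
  have h3 := (neg_K_pow_L2 hH0L n).2
  have h4 : 0 ≤ ∑ k, N (((-Kop) ^ n) H0 k) := Finset.sum_nonneg fun k _ => N_nonneg _
  linarith

end Pool.Agent.R244.RB
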